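import Pool.Agent.Lib.MP_e18f8a_al.Three

/-!
Amplification: a trilinear inequality with exponent close to one, and its tensor powers.
-/

open Finset

namespace Pool.Agent.Lib.MP_e18f8a_al

section
variable {α : Type*} [Fintype α] [Nonempty α]

lemma card_pos' : (0 : ℝ) < Fintype.card α := by exact_mod_cast Fintype.card_pos

lemma pt_light {N p η : ℝ} (hN : 0 < N) (hp : 0 ≤ p) (h0 : 0 ≤ η) (h1 : η ≤ 1) :
    p ^ (1 - η) ≤ N ^ η * ((1 - η) * p + η * N⁻¹) := by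
  have h := Real.geom_mean_le_arith_mean2_weighted (w₁ := 1 - η) (w₂ := η) (p₁ := p) (p₂ := N⁻¹)
    (by linarith) h0 hp (by positivity) (by ring)
  have h2 : N ^ η * N⁻¹ ^ η = 1 := by
    rw [← Real.mul_rpow hN.le (by positivity), mul_inv_cancel₀ hN.ne', Real.one_rpow]
  calc p ^ (1 - η) = N ^ η * (p ^ (1 - η) * N⁻¹ ^ η) := by
        rw [mul_left_comm, h2, mul_one]
    _ ≤ _ := by gcongr

lemma pt_heavy {N p η Λ : ℝ} (hN : 0 < N) (h0 : 0 ≤ η) (hΛ : 0 ≤ Λ) (h1 : η * Λ ≤ 1)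
    (hp : Real.exp Λ / N < p) : p ^ (1 - η) ≤ N ^ η * (p * (1 - η * Λ / 2)) := by
  have hq : 0 < Real.exp Λ / N := by positivity
  have hp0 : 0 < p := hq.trans hp
  have e1 : p ^ (1 - η) = p * p ^ (-η) := by
    rw [sub_eq_add_neg, Real.rpow_add hp0, Real.rpow_one]
  have e2 : p ^ (-η) ≤ (Real.exp Λ / N) ^ (-η) :=
    Real.rpow_le_rpow_of_nonpos hq hp.le (by linarith)
  have e3 : (Real.exp Λ / N) ^ (-η) = N ^ η * Real.exp (-(η * Λ)) := by
    rw [Real.div_rpow (by positivity) hN.le, ← Real.exp_mul, Real.rpow_neg hN.le, div_inv_eq_mul,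
      mul_comm]
    congr 2; ring
  have e4 : Real.exp (-(η * Λ)) ≤ 1 - η * Λ / 2 := by
    have hx : 0 ≤ η * Λ := mul_nonneg h0 hΛ
    have := Real.add_one_le_exp (η * Λ)
    rw [Real.exp_neg, inv_le_comm₀ (Real.exp_pos _) (by linarith)]
    refine le_trans ?_ this
    rw [inv_le_iff_one_le_mul₀ (by linarith)]
    nlinarith
  rw [e1]
  calc p * p ^ (-η) ≤ p * (N ^ η * Real.exp (-(η * Λ))) := by rw [← e3]; gcongr
    _ ≤ p * (N ^ η * (1 - η * Λ / 2)) := by gcongr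
    _ = _ := by ring

lemma sum_le_one {p : α → ℝ} {η : ℝ} (hp : ∀ u, 0 ≤ p u) (hs : ∑ u, p u = 1) (h0 : 0 ≤ η)
    (h1 : η ≤ 1) : ∑ u, p u ^ (1 - η) ≤ (Fintype.card α : ℝ) ^ η := by
  have hN : (0 : ℝ) < Fintype.card α := card_pos'
  calc ∑ u, p u ^ (1 - η)
      ≤ ∑ u, (Fintype.card α : ℝ) ^ η * ((1 - η) * p u + η * (Fintype.card α : ℝ)⁻¹) :=
        sum_le_sum fun u _ => pt_light hN (hp u) h0 h1
    _ = _ := by
        rw [← mul_sum, sum_add_distrib, ← mul_sum, hs, sum_const, card_univ, nsmul_eq_mul]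
        field_simp
        ring

/-- Either the power sum is small or many atoms are not too light. -/
lemma dicho {p : α → ℝ} {η Λ : ℝ} (hp : ∀ u, 0 ≤ p u) (hs : ∑ u, p u = 1) (h0 : 0 ≤ η)
    (h1 : η ≤ 1) (hΛ : 0 ≤ Λ) (h2 : η * Λ ≤ 1) :
    ∑ u, p u ^ (1 - η) ≤ (1 - η * (Λ / 4 - 1)) * (Fintype.card α : ℝ) ^ η ∨
      (Fintype.card α : ℝ) / (4 * Real.exp Λ) ≤
        #{u | (4 * (Fintype.card α : ℝ))⁻¹ ≤ p u} := by
  classical
  set N : ℝ := (Fintype.card α : ℝ) with hNdef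
  have hN : 0 < N := card_pos'
  set q := ∑ u, if Real.exp Λ / N < p u then p u else 0 with hq
  rcases le_total (1 / 2) q with h | h
  · left
    have hpt : ∀ u, p u ^ (1 - η) ≤ N ^ η *
        (p u + η * N⁻¹ - η * Λ / 2 * (if Real.exp Λ / N < p u then p u else 0)) := by
      intro u
      split_ifs with hu
      · refine (pt_heavy hN h0 hΛ h2 hu).trans ?_
        gcongr
        have : 0 ≤ η * N⁻¹ := by positivity
        linarith
      · refine (pt_light hN (hp u) h0 h1).trans ?_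
        gcongr
        have := mul_nonneg h0 (hp u)
        linarith
    refine (sum_le_sum fun u _ => hpt u).trans ?_
    rw [← mul_sum, sum_sub_distrib, sum_add_distrib, ← mul_sum, ← mul_sum, ← hq, hs, sum_const,
      card_univ, nsmul_eq_mul, ← hNdef, mul_inv_cancel₀ hN.ne', mul_comm]
    refine mul_le_mul_of_nonneg_right ?_ (Real.rpow_nonneg hN.le _)
    have := mul_nonneg h0 hΛ
    nlinarith
  · right
    have hpt : ∀ u, p u ≤ (if Real.exp Λ / N < p u then p u else 0) + (4 * N)⁻¹ +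
        (if (4 * N)⁻¹ ≤ p u then Real.exp Λ / N else 0) := by
      intro u
      have a1 : 0 < (4 * N)⁻¹ := by positivity
      have a2 : 0 < Real.exp Λ / N := by positivity
      have := hp u
      split_ifs with hu hv hv
      · linarith
      · linarith
      · linarith [not_lt.mp hu]
      · linarith [not_le.mp hv]
    have := sum_le_sum fun u (_ : u ∈ univ) => hpt u
    rw [hs, sum_add_distrib, sum_add_distrib, ← hq, sum_const, card_univ, nsmul_eq_mul, ← hNdef,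
      ← sum_filter, sum_const, nsmul_eq_mul] at this
    have e : N * (4 * N)⁻¹ = 1 / 4 := by field_simp
    rw [e] at this
    have h3 : 1 / 4 ≤ (#{u | (4 * N)⁻¹ ≤ p u} : ℝ) * (Real.exp Λ / N) := by linarith
    rw [div_le_iff₀ (by positivity)]
    have h4 := mul_le_mul_of_nonneg_right h3 (by positivity : (0 : ℝ) ≤ 4 * N)
    calc N = 1 / 4 * (4 * N) := by ring
      _ ≤ _ := h4
      _ = _ := by field_simp

/-- The hitting property of a ternary relation. -/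
def Hit (H : α → α → α → Prop) (Λ : ℝ) : Prop :=
  ∀ U V W : Finset α, (Fintype.card α : ℝ) / (4 * Real.exp Λ) ≤ #U →
    (Fintype.card α : ℝ) / (4 * Real.exp Λ) ≤ #V → (Fintype.card α : ℝ) / (4 * Real.exp Λ) ≤ #W →
    ∃ u ∈ U, ∃ v ∈ V, ∃ w ∈ W, ¬ H u v w

omit [Nonempty α] in
open Classical in
lemma tri_le (H : α → α → α → Prop) (f g h : α → ℝ) (hf : ∀ u, 0 ≤ f u) (hg : ∀ u, 0 ≤ g u)
    (hh : ∀ u, 0 ≤ h u) :
    ∑ u, ∑ v, ∑ w, (if H u v w then f u * g v * h w else 0) ≤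
      (∑ u, f u) * (∑ u, g u) * (∑ u, h u) := by
  rw [sum_mul_sum, sum_mul]
  refine sum_le_sum fun u _ => ?_
  rw [sum_mul]
  refine sum_le_sum fun v _ => ?_
  rw [mul_sum]
  refine sum_le_sum fun w _ => ?_
  split_ifs
  · exact le_rfl
  · exact mul_nonneg (mul_nonneg (hf u) (hg v)) (hh w)

omit [Nonempty α] in
open Classical in
lemma tri_lt (H : α → α → α → Prop) (f g h : α → ℝ) (hf : ∀ u, 0 ≤ f u) (hg : ∀ u, 0 ≤ g u)
    (hh : ∀ u, 0 ≤ h u) {u₀ v₀ w₀ : α} (hH : ¬ H u₀ v₀ w₀) :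
    ∑ u, ∑ v, ∑ w, (if H u v w then f u * g v * h w else 0) ≤
      (∑ u, f u) * (∑ u, g u) * (∑ u, h u) - f u₀ * g v₀ * h w₀ := by
  have e1 : (∑ u, f u) * (∑ u, g u) * (∑ u, h u) = ∑ u, ∑ v, ∑ w, f u * g v * h w := by
    rw [sum_mul_sum, sum_mul]
    refine sum_congr rfl fun u _ => ?_
    rw [sum_mul]
    refine sum_congr rfl fun v _ => ?_
    rw [mul_sum]
  have e2 : f u₀ * g v₀ * h w₀ ≤ ∑ u, ∑ v, ∑ w, (if H u v w then 0 else f u * g v * h w) := by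
    have nn : ∀ u v w, 0 ≤ (if H u v w then 0 else f u * g v * h w) := by
      intro u v w
      split_ifs
      · exact le_rfl
      · exact mul_nonneg (mul_nonneg (hf u) (hg v)) (hh w)
    refine le_trans ?_ (single_le_sum
      (fun u _ => sum_nonneg fun v _ => sum_nonneg fun w _ => nn u v w) (mem_univ u₀))
    refine le_trans ?_ (single_le_sum (fun v _ => sum_nonneg fun w _ => nn u₀ v w) (mem_univ v₀))
    refine le_trans ?_ (single_le_sum (fun w _ => nn u₀ v₀ w) (mem_univ w₀))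
    rw [if_neg hH]
  rw [e1, le_sub_iff_add_le]
  refine le_trans (add_le_add_right e2 _) (le_of_eq ?_)
  simp only [← sum_add_distrib]
  refine sum_congr rfl fun u _ => sum_congr rfl fun v _ => sum_congr rfl fun w _ => ?_
  split_ifs <;> simp

open Classical in
lemma base_norm {H : α → α → α → Prop} {η Λ : ℝ} (hH : Hit H Λ) (h0 : 0 ≤ η) (h1 : η ≤ 1)
    (hΛ : 4 ≤ Λ) (h2 : η * Λ ≤ 1) (h3 : η * Λ ≤ (64 * (Fintype.card α : ℝ) ^ 6)⁻¹)
    (p q r : α → ℝ) (hp : ∀ u, 0 ≤ p u) (hq : ∀ u, 0 ≤ q u) (hr : ∀ u, 0 ≤ r u)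
    (sp : ∑ u, p u = 1) (sq : ∑ u, q u = 1) (sr : ∑ u, r u = 1) :
    ∑ u, ∑ v, ∑ w, (if H u v w then p u ^ (1 - η) * q v ^ (1 - η) * r w ^ (1 - η) else 0) ≤
      (1 - η * (Λ / 4 - 1)) * ((Fintype.card α : ℝ) ^ η) ^ 3 := by
  have hΛ0 : 0 ≤ Λ := by linarith
  have lp := sum_le_one hp sp h0 h1
  have lq := sum_le_one hq sq h0 h1
  have lr := sum_le_one hr sr h0 h1
  have dp := dicho hp sp h0 h1 hΛ0 h2
  have dq := dicho hq sq h0 h1 hΛ0 h2
  have dr := dicho hr sr h0 h1 hΛ0 h2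
  have np : ∀ u, 0 ≤ p u ^ (1 - η) := fun u => Real.rpow_nonneg (hp u) _
  have nq : ∀ u, 0 ≤ q u ^ (1 - η) := fun u => Real.rpow_nonneg (hq u) _
  have nr : ∀ u, 0 ≤ r u ^ (1 - η) := fun u => Real.rpow_nonneg (hr u) _
  have t1 := tri_le H _ _ _ np nq nr
  have zp : 0 ≤ ∑ u, p u ^ (1 - η) := sum_nonneg fun u _ => np u
  have zq : 0 ≤ ∑ u, q u ^ (1 - η) := sum_nonneg fun u _ => nq u
  have zr : 0 ≤ ∑ u, r u ^ (1 - η) := sum_nonneg fun u _ => nr u
  set N : ℝ := (Fintype.card α : ℝ) with hNdef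
  have hN1 : 1 ≤ N := by rw [hNdef]; exact_mod_cast Fintype.card_pos
  have hN : 0 < N := by linarith
  set T := N ^ η with hT
  have hT0 : 0 ≤ T := Real.rpow_nonneg hN.le _
  set M := 1 - η * (Λ / 4 - 1) with hM
  have hM0 : 0 ≤ M := by rw [hM]; nlinarith
  rcases dp with dp | dp
  · calc _ ≤ _ := t1
      _ ≤ (M * T) * T * T := by gcongr
      _ = _ := by ring
  rcases dq with dq | dq
  · calc _ ≤ _ := t1
      _ ≤ T * (M * T) * T := by gcongr
      _ = _ := by ring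
  rcases dr with dr | dr
  · calc _ ≤ _ := t1
      _ ≤ T * T * (M * T) := by gcongr
      _ = _ := by ring
  obtain ⟨u, hu, v, hv, w, hw, hn⟩ := hH _ _ _ dp dq dr
  simp only [mem_filter, mem_univ, true_and] at hu hv hw
  have low : ∀ (s : α → ℝ), (∀ u, 0 ≤ s u) → ∑ u, s u = 1 → ∀ u, (4 * N)⁻¹ ≤ s u →
      (4 * N)⁻¹ ≤ s u ^ (1 - η) := by
    intro s hs ss u hu
    have hs1 : s u ≤ 1 := ss ▸ single_le_sum (fun u _ => hs u) (mem_univ u)
    have hs0 : 0 < s u := lt_of_lt_of_le (by positivity) hu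
    calc _ ≤ s u := hu
      _ = s u ^ (1 : ℝ) := (Real.rpow_one _).symm
      _ ≤ _ := Real.rpow_le_rpow_of_exponent_ge hs0 hs1 (by linarith)
  have t2 := tri_lt H _ _ _ np nq nr hn
  have t3 : (4 * N)⁻¹ * (4 * N)⁻¹ * (4 * N)⁻¹ ≤
      p u ^ (1 - η) * q v ^ (1 - η) * r w ^ (1 - η) := by
    have a1 := low p hp sp u hu
    have a2 := low q hq sq v hv
    have a3 := low r hr sr w hw
    have := np u
    have := nq v
    gcongr
  have t4 : (∑ u, p u ^ (1 - η)) * (∑ u, q u ^ (1 - η)) * (∑ u, r u ^ (1 - η)) ≤ T * T * T := by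
    gcongr
  have hTN : T ≤ N := by
    calc T ≤ N ^ (1 : ℝ) := Real.rpow_le_rpow_of_exponent_le hN1 h1
      _ = N := Real.rpow_one _
  have t5 : η * (Λ / 4 - 1) * T ^ 3 ≤ (4 * N)⁻¹ * (4 * N)⁻¹ * (4 * N)⁻¹ := by
    have a1 : η * (Λ / 4 - 1) ≤ (64 * N ^ 6)⁻¹ := by nlinarith
    calc η * (Λ / 4 - 1) * T ^ 3 ≤ (64 * N ^ 6)⁻¹ * N ^ 3 := by gcongr
      _ = _ := by field_simp; norm_num
  rw [hM]
  nlinarith

open Classical in
lemma base_gen {H : α → α → α → Prop} {η Λ : ℝ} (hH : Hit H Λ) (h0 : 0 ≤ η) (h1 : η < 1)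
    (hΛ : 4 ≤ Λ) (h2 : η * Λ ≤ 1) (h3 : η * Λ ≤ (64 * (Fintype.card α : ℝ) ^ 6)⁻¹)
    (a b c : α → ℝ) (ha : ∀ u, 0 ≤ a u) (hb : ∀ u, 0 ≤ b u) (hc : ∀ u, 0 ≤ c u) :
    ∑ u, ∑ v, ∑ w, (if H u v w then a u ^ (1 - η) * b v ^ (1 - η) * c w ^ (1 - η) else 0) ≤
      (1 - η * (Λ / 4 - 1)) * ((Fintype.card α : ℝ) ^ η) ^ 3 *
        ((∑ u, a u) ^ (1 - η) * (∑ u, b u) ^ (1 - η) * (∑ u, c u) ^ (1 - η)) := by
  have hq : (1 - η) ≠ 0 := by linarith
  have zero : ∀ s : α → ℝ, (∀ u, 0 ≤ s u) → ∑ u, s u = 0 → ∀ u, s u ^ (1 - η) = 0 := by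
    intro s hs h u
    rw [(sum_eq_zero_iff_of_nonneg fun u _ => hs u).mp h u (mem_univ u), Real.zero_rpow hq]
  rcases (sum_nonneg fun u (_ : u ∈ univ) => ha u).eq_or_lt with sa | sa
  · simp [zero a ha sa.symm, ← sa, Real.zero_rpow hq]
  rcases (sum_nonneg fun u (_ : u ∈ univ) => hb u).eq_or_lt with sb | sb
  · simp [zero b hb sb.symm, ← sb, Real.zero_rpow hq]
  rcases (sum_nonneg fun u (_ : u ∈ univ) => hc u).eq_or_lt with sc | sc
  · simp [zero c hc sc.symm, ← sc, Real.zero_rpow hq]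
  have one : ∀ s : α → ℝ, 0 < ∑ u, s u → ∑ u, s u / ∑ u, s u = 1 := by
    intro s h
    rw [← sum_div, div_self h.ne']
  have sc' : ∀ s : α → ℝ, (∀ u, 0 ≤ s u) → 0 < ∑ u, s u → ∀ u,
      s u ^ (1 - η) = (s u / ∑ u, s u) ^ (1 - η) * (∑ u, s u) ^ (1 - η) := by
    intro s hs h u
    rw [← Real.mul_rpow (div_nonneg (hs u) h.le) h.le, div_mul_cancel₀ _ h.ne']
  have key := base_norm hH h0 h1.le hΛ h2 h3 (fun u => a u / ∑ u, a u) (fun u => b u / ∑ u, b u)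
    (fun u => c u / ∑ u, c u) (fun u => div_nonneg (ha u) sa.le) (fun u => div_nonneg (hb u) sb.le)
    (fun u => div_nonneg (hc u) sc.le) (one a sa) (one b sb) (one c sc)
  refine le_trans (le_of_eq ?_) (mul_le_mul_of_nonneg_right key (by positivity))
  simp only [sum_mul]
  refine sum_congr rfl fun u _ => sum_congr rfl fun v _ => sum_congr rfl fun w _ => ?_
  split_ifs
  · rw [sc' a ha sa u, sc' b hb sb v, sc' c hc sc w]; ring
  · simp

open Classical in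
/-- The tensor power of the trilinear inequality. -/
theorem amp {η Λ : ℝ} (h0 : 0 ≤ η) (h1 : η < 1)
    (hΛ : 4 ≤ Λ) (h2 : η * Λ ≤ 1) (h3 : η * Λ ≤ (64 * (Fintype.card α : ℝ) ^ 6)⁻¹) :
    ∀ (m : ℕ) (H : Fin m → α → α → α → Prop), (∀ i, Hit (H i) Λ) →
    ∀ (F₁ F₂ F₃ : (Fin m → α) → ℝ), (∀ u, 0 ≤ F₁ u) → (∀ u, 0 ≤ F₂ u) → (∀ u, 0 ≤ F₃ u) →
    ∑ u, ∑ v, ∑ w, (if ∀ i, H i (u i) (v i) (w i) then
        F₁ u ^ (1 - η) * F₂ v ^ (1 - η) * F₃ w ^ (1 - η) else 0) ≤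
      ((1 - η * (Λ / 4 - 1)) * ((Fintype.card α : ℝ) ^ η) ^ 3) ^ m *
        ((∑ u, F₁ u) ^ (1 - η) * (∑ u, F₂ u) ^ (1 - η) * (∑ u, F₃ u) ^ (1 - η)) := by
  intro m
  induction m with
  | zero =>
    intro H _ F₁ F₂ F₃ _ _ _
    simp
  | succ m ih =>
    intro H hH F₁ F₂ F₃ f1 f2 f3
    set B := (1 - η * (Λ / 4 - 1)) * ((Fintype.card α : ℝ) ^ η) ^ 3 with hB
    have hB0 : 0 ≤ B := by
      rw [hB]
      exact mul_nonneg (by nlinarith) (by positivity)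
    have key := base_gen (hH 0) h0 h1 hΛ h2 h3 (fun a => ∑ u : Fin m → α, F₁ (Fin.cons a u))
      (fun a => ∑ u : Fin m → α, F₂ (Fin.cons a u)) (fun a => ∑ u : Fin m → α, F₃ (Fin.cons a u))
      (fun _ => sum_nonneg fun _ _ => f1 _) (fun _ => sum_nonneg fun _ _ => f2 _)
      (fun _ => sum_nonneg fun _ _ => f3 _)
    rw [← sum_cons F₁, ← sum_cons F₂, ← sum_cons F₃, ← hB] at key
    rw [pow_succ, mul_assoc]
    refine le_trans ?_ (mul_le_mul_of_nonneg_left key (pow_nonneg hB0 m))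
    simp only [sum_cons (n := m), Fin.forall_fin_succ, Fin.cons_zero, Fin.cons_succ, mul_sum]
    refine sum_le_sum fun a _ => ?_
    rw [sum_comm]
    refine sum_le_sum fun b _ => ?_
    have sw : ∀ G : (Fin m → α) → (Fin m → α) → α → ℝ,
        ∑ u, ∑ v, ∑ c, G u v c = ∑ c, ∑ u, ∑ v, G u v c := by
      intro G
      rw [sum_congr rfl fun u _ => sum_comm, sum_comm]
    rw [sw]
    refine sum_le_sum fun c _ => ?_
    by_cases hc : H 0 a b c
    · simp only [hc, true_and, if_true]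
      exact ih (fun i => H i.succ) (fun i => hH _) _ _ _ (fun _ => f1 _) (fun _ => f2 _)
        (fun _ => f3 _)
    · simp [hc]

end

end Pool.Agent.Lib.MP_e18f8a_al
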