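import Mathlib

/-!
The cube of dimension `4 ^ k` is covered by `2 * 4 ^ k` translates of the set of vectors whose
zeros outnumber their ones by at least `2 ^ k`.
-/

open Finset

namespace Pool.Agent.Lib.MP_e18f8a_al

/-- The sign character. -/
def sg (a : ZMod 2) : ℤ := if a = 0 then 1 else -1

lemma sg_add (a b : ZMod 2) : sg (a + b) = sg a * sg b := by revert a b; decide

lemma sg_sum {ι : Type*} (s : Finset ι) (f : ι → ZMod 2) :
    sg (∑ l ∈ s, f l) = ∏ l ∈ s, sg (f l) := by
  classical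
  induction s using Finset.induction_on with
  | empty => rfl
  | insert a s ha ih => rw [sum_insert ha, prod_insert ha, sg_add, ih]

lemma sg_orth {k : ℕ} (v : Fin k → ZMod 2) :
    ∑ j : Fin k → ZMod 2, sg (∑ l, v l * j l) = if v = 0 then 2 ^ k else 0 := by
  have h1 : ∑ j : Fin k → ZMod 2, sg (∑ l, v l * j l) = ∏ l, ∑ b : ZMod 2, sg (v l * b) := by
    rw [prod_univ_sum, Fintype.piFinset_univ]
    exact sum_congr rfl fun j _ => sg_sum _ _
  have h2 : ∀ a : ZMod 2, ∑ b : ZMod 2, sg (a * b) = if a = 0 then 2 else 0 := by decide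
  rw [h1]
  simp only [h2]
  split_ifs with hv
  · subst hv; simp
  · obtain ⟨l, hl⟩ := Function.ne_iff.mp hv
    exact prod_eq_zero (mem_univ l) (if_neg hl)

lemma parseval {k : ℕ} (x : (Fin k → ZMod 2) → ZMod 2) :
    ∑ j : Fin k → ZMod 2, (∑ i, sg (x i + ∑ l, i l * j l)) ^ 2 = 2 ^ k * 2 ^ k := by
  have h1 : ∀ j : Fin k → ZMod 2, (∑ i, sg (x i + ∑ l, i l * j l)) ^ 2 =
      ∑ i, ∑ i', sg (x i + x i') * sg (∑ l, (i + i') l * j l) := by
    intro j
    rw [sq, sum_mul_sum]
    refine sum_congr rfl fun i _ => sum_congr rfl fun i' _ => ?_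
    rw [← sg_add, ← sg_add]
    congr 1
    simp only [Pi.add_apply, add_mul, sum_add_distrib]
    ring
  simp only [h1]
  rw [sum_comm]
  have h2 : ∀ i : Fin k → ZMod 2, ∑ j : Fin k → ZMod 2,
      ∑ i', sg (x i + x i') * sg (∑ l, (i + i') l * j l) = 2 ^ k := by
    intro i
    rw [sum_comm]
    simp only [← mul_sum, sg_orth]
    have h3 : ∀ a : ZMod 2, a + a = 0 := by decide
    have h4 : ∀ a b : ZMod 2, a + b = 0 → b = a := by decide
    rw [sum_eq_single i]
    · have : i + i = 0 := funext fun l => h3 _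
      rw [this, h3]; simp [sg]
    · intro i' _ hne
      rw [if_neg, mul_zero]
      intro h
      exact hne (funext fun l => h4 _ _ (congrFun h l))
    · simp
  simp only [h2]
  simp

lemma sg_card {n : ℕ} (y : Fin n → ZMod 2) :
    ∑ i, sg (y i) = 2 * (#{i | y i = 0} : ℕ) - (n : ℤ) := by
  have : ∀ i, sg (y i) = 2 * (if y i = 0 then (1 : ℤ) else 0) - 1 := by
    intro i; unfold sg; split_ifs <;> norm_num
  simp only [this, sum_sub_distrib, ← mul_sum, sum_boole]
  simp

/-- The base example. -/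
theorem base (k : ℕ) : ∃ (n : ℕ) (A X : Finset (Fin n → ZMod 2)), 0 ∈ A ∧ #X ≤ 2 * 4 ^ k ∧
    (∀ x, ∃ h ∈ X, ∃ a ∈ A, h + a = x) ∧
    ∀ a ∈ A, ∀ b ∈ A, 2 ^ k ≤ #{i | (a + b) i = 0} := by
  classical
  set n := Fintype.card (Fin (2 * k) → ZMod 2) with hn
  have hn' : n = 2 ^ k * 2 ^ k := by
    rw [hn, Fintype.card_fun, ZMod.card, Fintype.card_fin, two_mul, pow_add]
  let e : (Fin (2 * k) → ZMod 2) ≃ Fin n := Fintype.equivFin _
  let ctr : (Fin (2 * k) → ZMod 2) × ZMod 2 → (Fin n → ZMod 2) :=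
    fun p i => ∑ l, e.symm i l * p.1 l + p.2
  refine ⟨n, univ.filter (fun a : Fin n → ZMod 2 => n + 2 ^ k ≤ 2 * #{i | a i = 0}),
    univ.image ctr, ?_, ?_, ?_, ?_⟩
  · simp only [mem_filter, mem_univ, true_and, Pi.zero_apply, filter_true, card_univ,
      Fintype.card_fin]
    have : 2 ^ k ≤ n := by rw [hn']; exact Nat.le_mul_self _
    omega
  · refine card_image_le.trans ?_
    rw [card_univ, Fintype.card_prod, ← hn, ZMod.card, hn', ← mul_pow]
    norm_num [mul_comm]
  · intro x
    have hp := parseval (k := 2 * k) (fun i => x (e i))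
    have hex : ∃ j : Fin (2 * k) → ZMod 2,
        ((2 : ℤ) ^ k) ^ 2 ≤ (∑ i, sg (x (e i) + ∑ l, i l * j l)) ^ 2 := by
      by_contra hcon
      push Not at hcon
      have := sum_lt_sum_of_nonempty (s := univ) univ_nonempty fun j _ => hcon j
      rw [hp, sum_const, card_univ, ← hn, hn', nsmul_eq_mul] at this
      push_cast at this
      rw [two_mul, pow_add] at this
      nlinarith
    obtain ⟨j, hj⟩ := hex
    have hchar : ∀ a b : ZMod 2, a + (b + a) = b := by decide
    have fin : ∀ b : ZMod 2, (2 : ℤ) ^ k ≤ ∑ i, sg (x (e i) + (∑ l, i l * j l + b)) →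
        ∃ h ∈ univ.image ctr, ∃ a ∈ univ.filter
          (fun a : Fin n → ZMod 2 => n + 2 ^ k ≤ 2 * #{i | a i = 0}), h + a = x := by
      intro b hb
      refine ⟨ctr (j, b), mem_image_of_mem _ (mem_univ _), x + ctr (j, b), ?_,
        funext fun i => hchar _ _⟩
      have h1 := sg_card (x + ctr (j, b))
      rw [← e.sum_comp] at h1
      simp only [Pi.add_apply, ctr, Equiv.symm_apply_apply] at h1
      simp only [mem_filter, mem_univ, true_and, Pi.add_apply, ctr]
      rw [h1] at hb
      zify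
      linarith
    rcases le_total 0 (∑ i, sg (x (e i) + ∑ l, i l * j l)) with hs | hs
    · refine fin 0 ?_
      simp only [add_zero]
      exact (pow_le_pow_iff_left₀ (by positivity) hs two_ne_zero).mp hj
    · refine fin 1 ?_
      have h2 : ∀ a b : ZMod 2, sg (a + (b + 1)) = -sg (a + b) := by decide
      simp only [h2, sum_neg_distrib]
      rw [← neg_sq (∑ i, sg _)] at hj
      exact (pow_le_pow_iff_left₀ (by positivity) (by linarith) two_ne_zero).mp hj
  · intro a ha b hb
    simp only [mem_filter, mem_univ, true_and] at ha hb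
    have h1 := card_union_add_card_inter ({i | a i = 0} : Finset (Fin n)) {i | b i = 0}
    have h2 : #(({i | a i = 0} : Finset (Fin n)) ∪ ({i | b i = 0} : Finset (Fin n))) ≤ n :=
      (card_le_univ _).trans (Fintype.card_fin n).le
    have h3 : #(({i | a i = 0} : Finset (Fin n)) ∩ ({i | b i = 0} : Finset (Fin n))) ≤
        #{i | (a + b) i = 0} := by
      refine card_le_card fun i hi => ?_
      simp only [mem_inter, mem_filter, mem_univ, true_and] at hi
      simp [hi.1, hi.2]
    omega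

end Pool.Agent.Lib.MP_e18f8a_al
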