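import Mathlib

/-!
The exponent in the problem is at least two, even when the set `S` is not required to lie in `A`.
-/

open scoped Pointwise

namespace Pool.Agent.Results.MP_e18f8a_al.ExponentTwo

/-- The ambient additive group. -/
abbrev H (d : ℕ) := (Fin d → ℤ) × ℤ

/-- A box with all sides `I`, at level `l`. -/
def box (d : ℕ) (I : Finset ℤ) (l : ℤ) : Finset (Multiplicative (H d)) :=
  ((Fintype.piFinset fun _ : Fin d => I) ×ˢ {l}).map Multiplicative.ofAdd.toEmbedding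

lemma mem_box {d : ℕ} {I : Finset ℤ} {l : ℤ} {x : Multiplicative (H d)} :
    x ∈ box d I l ↔ (∀ i, x.toAdd.1 i ∈ I) ∧ x.toAdd.2 = l := by
  rw [box, Finset.mem_map_equiv, Finset.mem_product, Fintype.mem_piFinset, Finset.mem_singleton]
  rfl

lemma card_box (d : ℕ) (I : Finset ℤ) (l : ℤ) : (box d I l).card = I.card ^ d := by
  simp [box]

/-- The approximate group. -/
def AA (d : ℕ) : Finset (Multiplicative (H d)) :=
  box d {0} 0 ∪ (box d {0, 1, 2, 3} 1 ∪ box d {-3, -2, -1, 0} (-1))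

/-- The covering set. -/
def XX (d : ℕ) : Finset (Multiplicative (H d)) :=
  box d {0} 0 ∪ (box d {0, 3} 1 ∪ box d {-3, 0} (-1))

lemma mem_A {d : ℕ} {x : Multiplicative (H d)} : x ∈ AA d ↔
    ((∀ i, x.toAdd.1 i = 0) ∧ x.toAdd.2 = 0) ∨
      ((∀ i, 0 ≤ x.toAdd.1 i ∧ x.toAdd.1 i ≤ 3) ∧ x.toAdd.2 = 1) ∨
      ((∀ i, -3 ≤ x.toAdd.1 i ∧ x.toAdd.1 i ≤ 0) ∧ x.toAdd.2 = -1) := by
  have e1 : ∀ z : ℤ, z ∈ ({0, 1, 2, 3} : Finset ℤ) ↔ 0 ≤ z ∧ z ≤ 3 := fun z => by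
    simp only [Finset.mem_insert, Finset.mem_singleton]; omega
  have e2 : ∀ z : ℤ, z ∈ ({-3, -2, -1, 0} : Finset ℤ) ↔ -3 ≤ z ∧ z ≤ 0 := fun z => by
    simp only [Finset.mem_insert, Finset.mem_singleton]; omega
  simp only [AA, Finset.mem_union, mem_box, e1, e2, Finset.mem_singleton]

lemma mem_X {d : ℕ} {x : Multiplicative (H d)} : x ∈ XX d ↔
    ((∀ i, x.toAdd.1 i = 0) ∧ x.toAdd.2 = 0) ∨
      ((∀ i, x.toAdd.1 i = 0 ∨ x.toAdd.1 i = 3) ∧ x.toAdd.2 = 1) ∨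
      ((∀ i, x.toAdd.1 i = -3 ∨ x.toAdd.1 i = 0) ∧ x.toAdd.2 = -1) := by
  simp [XX, mem_box]

lemma card_X (d : ℕ) : (XX d).card ≤ 3 * 2 ^ d := by
  have h1 : 1 ≤ 2 ^ d := Nat.one_le_two_pow
  have h2 := Finset.card_union_le (box d {0} 0) (box d {0, 3} 1 ∪ box d {-3, 0} (-1))
  have h3 := Finset.card_union_le (box d {0, 3} 1) (box d {-3, 0} (-1))
  have e1 : ({0, 3} : Finset ℤ).card = 2 := by decide
  have e2 : ({-3, 0} : Finset ℤ).card = 2 := by decide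
  rw [card_box, card_box, e1, e2] at h3
  rw [card_box, Finset.card_singleton, one_pow] at h2
  unfold XX
  omega

lemma card_A (d : ℕ) : 4 ^ d ≤ (AA d).card := by
  have e1 : ({0, 1, 2, 3} : Finset ℤ).card = 4 := by decide
  rw [← e1, ← card_box d _ 1]
  exact Finset.card_le_card (Finset.subset_union_left.trans Finset.subset_union_right)

lemma eq_one {d : ℕ} {x : Multiplicative (H d)} (h : ∀ i, x.toAdd.1 i = 0) (h' : x.toAdd.2 = 0) :
    x = 1 := Multiplicative.toAdd.injective (Prod.ext (funext h) h')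

lemma cover {d : ℕ} {a b : Multiplicative (H d)} (ha : a ∈ AA d) (hb : b ∈ AA d) :
    ∃ x ∈ XX d, x⁻¹ * (a * b) ∈ AA d := by
  have one : (1 : Multiplicative (H d)) ∈ XX d := mem_X.2 (Or.inl ⟨fun _ => rfl, rfl⟩)
  have key : ∀ (f : Fin d → ℤ) (l : ℤ) (i : Fin d),
      ((Multiplicative.ofAdd (f, l))⁻¹ * (a * b)).toAdd.1 i = -f i + (a.toAdd.1 i + b.toAdd.1 i) ∧
      ((Multiplicative.ofAdd (f, l))⁻¹ * (a * b)).toAdd.2 = -l + (a.toAdd.2 + b.toAdd.2) :=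
    fun _ _ _ => ⟨rfl, rfl⟩
  have key2 : ∀ (f : Fin d → ℤ) (l : ℤ),
      ((Multiplicative.ofAdd (f, l))⁻¹ * (a * b)).toAdd.2 = -l + (a.toAdd.2 + b.toAdd.2) :=
    fun _ _ => rfl
  rcases mem_A.1 ha with h | h | h
  · exact ⟨1, one, by rw [eq_one h.1 h.2]; simpa using hb⟩
  all_goals rcases mem_A.1 hb with h' | h' | h'
  · exact ⟨1, one, by rw [eq_one h'.1 h'.2]; simpa using ha⟩
  · refine ⟨Multiplicative.ofAdd (fun i => if a.toAdd.1 i + b.toAdd.1 i ≤ 3 then 0 else 3, 1),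
      mem_X.2 (Or.inr (Or.inl ⟨fun i => ?_, rfl⟩)), mem_A.2 (Or.inr (Or.inl ⟨fun i => ?_, ?_⟩))⟩
    · simp only [toAdd_ofAdd]; split_ifs <;> simp
    · rw [(key _ _ i).1]; have := h.1 i; have := h'.1 i; split_ifs <;> omega
    · rw [key2, h.2, h'.2]; rfl
  · refine ⟨Multiplicative.ofAdd (fun i => if 0 ≤ a.toAdd.1 i + b.toAdd.1 i then 0 else -3, -1),
      mem_X.2 (Or.inr (Or.inr ⟨fun i => ?_, rfl⟩)), mem_A.2 (Or.inr (Or.inl ⟨fun i => ?_, ?_⟩))⟩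
    · simp only [toAdd_ofAdd]; split_ifs <;> simp
    · rw [(key _ _ i).1]; have := h.1 i; have := h'.1 i; split_ifs <;> omega
    · rw [key2, h.2, h'.2]; rfl
  · exact ⟨1, one, by rw [eq_one h'.1 h'.2]; simpa using ha⟩
  · refine ⟨Multiplicative.ofAdd (fun i => if 0 ≤ a.toAdd.1 i + b.toAdd.1 i then 0 else -3, -1),
      mem_X.2 (Or.inr (Or.inr ⟨fun i => ?_, rfl⟩)), mem_A.2 (Or.inr (Or.inl ⟨fun i => ?_, ?_⟩))⟩
    · simp only [toAdd_ofAdd]; split_ifs <;> simp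
    · rw [(key _ _ i).1]; have := h.1 i; have := h'.1 i; split_ifs <;> omega
    · rw [key2, h.2, h'.2]; rfl
  · refine ⟨Multiplicative.ofAdd (fun i => if -3 ≤ a.toAdd.1 i + b.toAdd.1 i then 0 else -3, -1),
      mem_X.2 (Or.inr (Or.inr ⟨fun i => ?_, rfl⟩)), mem_A.2 (Or.inr (Or.inr ⟨fun i => ?_, ?_⟩))⟩
    · simp only [toAdd_ofAdd]; split_ifs <;> simp
    · rw [(key _ _ i).1]; have := h.1 i; have := h'.1 i; split_ifs <;> omega
    · rw [key2, h.2, h'.2]; rfl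

lemma inv_mem {d : ℕ} {a : Multiplicative (H d)} (ha : a ∈ AA d) : a⁻¹ ∈ AA d := by
  have k1 : ∀ i, a⁻¹.toAdd.1 i = -a.toAdd.1 i := fun _ => rfl
  have k2 : a⁻¹.toAdd.2 = -a.toAdd.2 := rfl
  rw [mem_A] at ha ⊢
  simp only [k1, k2]
  rcases ha with h | h | h
  · exact Or.inl ⟨fun i => by rw [h.1 i]; rfl, by rw [h.2]; rfl⟩
  · exact Or.inr (Or.inr ⟨fun i => by have := h.1 i; omega, by rw [h.2]⟩)
  · exact Or.inr (Or.inl ⟨fun i => by have := h.1 i; omega, by rw [h.2]; rfl⟩)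

lemma approx (d : ℕ) : IsApproximateSubgroup (3 * 2 ^ d : ℝ) (AA d : Set (Multiplicative (H d))) where
  one_mem := mem_A.2 (Or.inl ⟨fun _ => rfl, rfl⟩)
  inv_eq_self := by
    ext x
    rw [Set.mem_inv, Finset.mem_coe, Finset.mem_coe]
    exact ⟨fun h => by simpa using inv_mem h, inv_mem⟩
  sq_covBySMul := by
    refine ⟨XX d, by exact_mod_cast card_X d, ?_⟩
    rw [sq]
    rintro _ ⟨a, ha, b, hb, rfl⟩
    obtain ⟨x, hx, h⟩ := cover ha hb
    exact ⟨x, hx, _, h, by simp⟩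

lemma bound {d : ℕ} (n : ℕ) {y : Multiplicative (H d)} (hy : y ∈ AA d ^ n) :
    |y.toAdd.2| ≤ n ∧ ∀ i, |2 * y.toAdd.1 i - 3 * y.toAdd.2| ≤ 3 * n := by
  induction n generalizing y with
  | zero =>
    rw [pow_zero, Finset.mem_one] at hy
    subst hy
    simp
  | succ n ih =>
    rw [pow_succ] at hy
    obtain ⟨z, hz, a, ha, rfl⟩ := Finset.mem_mul.1 hy
    obtain ⟨h1, h2⟩ := ih hz
    have k1 : ∀ i, (z * a).toAdd.1 i = z.toAdd.1 i + a.toAdd.1 i := fun _ => rfl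
    have k2 : (z * a).toAdd.2 = z.toAdd.2 + a.toAdd.2 := rfl
    simp only [k1, k2, abs_le] at h1 h2 ⊢
    push_cast
    rcases mem_A.1 ha with h | h | h
    all_goals
      refine ⟨by omega, fun i => ?_⟩
      have := h.1 i
      have := h2 i
      omega

lemma small {d : ℕ} {S : Finset (Multiplicative (H d))} (hS : S ^ 8 ⊆ AA d ^ 4) : S.card ≤ 1 := by
  refine Finset.card_le_one.2 fun a ha b hb => ?_
  have key : ∀ s ∈ S, s = 1 := fun s hs => by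
    obtain ⟨h1, h2⟩ := bound 4 (hS (Finset.pow_mem_pow hs))
    have k1 : ∀ i, (s ^ 8).toAdd.1 i = 8 * s.toAdd.1 i := fun i => by simp
    have k2 : (s ^ 8).toAdd.2 = 8 * s.toAdd.2 := by simp
    simp only [k1, k2, abs_le] at h1 h2
    push_cast at h1 h2
    exact eq_one (fun i => by have := h2 i; omega) (by omega)
  rw [key a ha, key b hb]

/-- For every `c > 0` and `C < 2` there is a `K`-approximate group `A` such that every finite set
`S` of the ambient group with `S ^ 8 ⊆ A ^ 4` has fewer than `c K ^ (-C) |A|` elements. -/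
theorem result : ∀ c C : ℝ, 0 < c → C < 2 →
    ∃ (G : Type) (_ : Group G) (_ : DecidableEq G) (K : ℝ) (A : Finset G),
      1 ≤ K ∧ IsApproximateSubgroup K (A : Set G) ∧
      ∀ S : Finset G, S ^ 8 ⊆ A ^ 4 → (S.card : ℝ) < c * K ^ (-C) * (A.card : ℝ) := by
  intro c C hc hC
  have h1 : Filter.Tendsto (fun d : ℕ => ((2 : ℝ) ^ d) ^ (2 - C)) Filter.atTop Filter.atTop :=
    (tendsto_rpow_atTop (by linarith)).comp (tendsto_pow_atTop_atTop_of_one_lt one_lt_two)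
  obtain ⟨d, hd⟩ := (h1.eventually_gt_atTop (3 ^ C / c)).exists
  have ht : (1 : ℝ) ≤ 2 ^ d := one_le_pow₀ one_le_two
  refine ⟨Multiplicative (H d), inferInstance, inferInstance, 3 * 2 ^ d, AA d, by linarith,
    approx d, fun S hS => ?_⟩
  have h2 : (S.card : ℝ) ≤ 1 := by exact_mod_cast small hS
  have h3 : ((2 : ℝ) ^ d) ^ (2 : ℝ) ≤ (AA d).card := by
    have : ((4 ^ d : ℕ) : ℝ) ≤ (AA d).card := by exact_mod_cast card_A d
    rw [Real.rpow_two, ← pow_mul, mul_comm, pow_mul]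
    norm_num at this ⊢
    exact this
  have h4 : (0 : ℝ) < 2 ^ d := by positivity
  have h5 : (0 : ℝ) < 3 ^ C := by positivity
  have h6 : c * (3 * 2 ^ d : ℝ) ^ (-C) * ((2 : ℝ) ^ d) ^ (2 : ℝ) =
      c * ((2 : ℝ) ^ d) ^ (2 - C) / 3 ^ C := by
    rw [Real.mul_rpow (by norm_num) h4.le, Real.rpow_neg (by norm_num), Real.rpow_neg h4.le,
      Real.rpow_sub h4]
    field_simp
  have h7 : 1 < c * ((2 : ℝ) ^ d) ^ (2 - C) / 3 ^ C := by
    rw [div_lt_iff₀ hc] at hd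
    rw [lt_div_iff₀ h5]
    linarith
  calc (S.card : ℝ) ≤ 1 := h2
    _ < c * (3 * 2 ^ d : ℝ) ^ (-C) * ((2 : ℝ) ^ d) ^ (2 : ℝ) := h6 ▸ h7
    _ ≤ _ := mul_le_mul_of_nonneg_left h3 (by positivity)

end Pool.Agent.Results.MP_e18f8a_al.ExponentTwo
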