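import Pool.Agent.Lib.MP_e18f8a_al.QMix

/-!
Descent to a minimal good subgroup.
-/

open scoped Pointwise
open Finset Module

namespace Pool.Agent.Lib.MP_e18f8a_al.QB

variable {G Q ι : Type*} [Group G] [Group Q] [Fintype Q] [DecidableEq Q]

/-- The part of `T` in `U` maps onto more than half of the base. -/
def Good (π : G →* Q) (T : Finset G) (U : Set G) : Prop :=
  ∃ V : Finset G, V ⊆ T ∧ (∀ v ∈ V, v ∈ U) ∧ Fintype.card Q < 2 * (V.image π).card

/-- The standing hypotheses. -/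
structure Data0 (π : G →* Q) (T : Finset G) (L : ℝ) (cov : G → ι) (I : Finset ι) : Prop where
  one : 1 ∈ T
  inv : ∀ t ∈ T, t⁻¹ ∈ T
  cardI : (I.card : ℝ) ≤ L
  covI : ∀ a ∈ T, ∀ b ∈ T, cov (a * b) ∈ I
  covT : ∀ a ∈ T, ∀ b ∈ T, ∀ c ∈ T, ∀ e ∈ T, cov (a * b) = cov (c * e) → (a * b)⁻¹ * (c * e) ∈ T
  nine : 9 ≤ L
  mixQ : ∀ E : Finset Q, (Fintype.card Q : ℝ) < 2 * L * E.card →
    Fintype.card Q < 2 * (E⁻¹ * E).card

/-- The standing hypotheses with small fibres. -/
structure Data (π : G →* Q) (T : Finset G) (L : ℝ) (cov : G → ι) (I : Finset ι) : Prop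
    extends Data0 π T L cov I where
  fib : ∀ J : Finset G, (∀ y ∈ J, π y = 1 ∧ y ∈ (T : Set G) ^ 7) → (J.card : ℝ) ≤ L
  size : (T.card : ℝ) ≤ L * Fintype.card Q

lemma half {H : Type*} [Group H] [Fintype H] [DecidableEq H] (F : Finset H)
    (h : Fintype.card H < 2 * F.card) (q : H) : ∃ a ∈ F, ∃ b ∈ F, q = a⁻¹ * b := by
  by_contra hc
  push Not at hc
  have hd : Disjoint (F.image (· * q)) F := by
    rw [disjoint_left]
    intro x hx hxF
    obtain ⟨a, ha, rfl⟩ := mem_image.1 hx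
    exact hc a ha _ hxF (by group)
  have h1 := card_le_univ (F.image (· * q) ∪ F)
  rw [card_union_of_disjoint hd, card_image_of_injective _ (mul_left_injective q)] at h1
  omega

lemma popular {κ : Type*} [DecidableEq κ] (π : G →* Q) (V : Finset G) (col : G → κ) (J : Finset κ)
    (hJ : ∀ v ∈ V, col v ∈ J) {L : ℝ} (hL : (J.card : ℝ) ≤ L)
    (h : Fintype.card Q < 2 * (V.image π).card) :
    ∃ i, (Fintype.card Q : ℝ) < 2 * L * ((V.filter fun v => col v = i).image π).card := by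
  have hV : V.Nonempty := by
    rw [nonempty_iff_ne_empty]
    rintro rfl
    simp at h
  obtain ⟨v, hv⟩ := hV
  obtain ⟨i, -, hi⟩ := J.exists_max_image
    (fun i => ((V.filter fun v => col v = i).image π).card) ⟨_, hJ v hv⟩
  refine ⟨i, ?_⟩
  have h1 : V.image π ⊆ J.biUnion fun i => (V.filter fun v => col v = i).image π := by
    intro q hq
    obtain ⟨w, hw, rfl⟩ := mem_image.1 hq
    exact mem_biUnion.2 ⟨_, hJ w hw, mem_image_of_mem _ (mem_filter.2 ⟨hw, rfl⟩)⟩
  have h2 := (card_le_card h1).trans (card_biUnion_le_card_mul _ _ _ hi)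
  have h3 : ((V.image π).card : ℝ) ≤ J.card * ((V.filter fun v => col v = i).image π).card := by
    exact_mod_cast h2
  have h4 : (Fintype.card Q : ℝ) < 2 * (V.image π).card := by exact_mod_cast h
  have h5 : (J.card : ℝ) * ((V.filter fun v => col v = i).image π).card ≤
      L * ((V.filter fun v => col v = i).image π).card := by gcongr
  linarith

lemma step {κ : Type*} (π : G →* Q) {L : ℝ}
    (hmix : ∀ E : Finset Q, (Fintype.card Q : ℝ) < 2 * L * E.card →
      Fintype.card Q < 2 * (E⁻¹ * E).card)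
    (V : Finset G) (col : G → κ) (J : Finset κ)
    (hJ : ∀ v ∈ V, col v ∈ J) (hL : (J.card : ℝ) ≤ L)
    (h : Fintype.card Q < 2 * (V.image π).card) :
    ∃ V' : Finset G, (∀ w ∈ V', ∃ a ∈ V, ∃ b ∈ V, col a = col b ∧ w = a⁻¹ * b) ∧
      Fintype.card Q < 2 * (V'.image π).card := by
  classical
  obtain ⟨i, hi⟩ := popular π V col J hJ hL h
  refine ⟨(V.filter fun v => col v = i)⁻¹ * V.filter fun v => col v = i, fun w hw => ?_, ?_⟩
  · obtain ⟨a', ha', b, hb, rfl⟩ := mem_mul.1 hw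
    obtain ⟨a, ha, rfl⟩ := mem_inv.1 ha'
    rw [mem_filter] at ha hb
    exact ⟨a, ha.1, b, hb.1, ha.2.trans hb.2.symm, rfl⟩
  · rw [image_mul, image_inv]
    exact hmix _ hi

variable {π : G →* Q} {T : Finset G} {L : ℝ} {cov : G → ι} {I : Finset ι}

/-- Regeneration. -/
lemma regen {κ : Type*} (h : Data0 π T L cov I) {U U₁ U₂ : Set G} (hU : Good π T U)
    (col : G → κ) (J : Finset κ) (hJ : ∀ t ∈ T, t ∈ U → col t ∈ J) (hL : (J.card : ℝ) ≤ L)
    (h1 : ∀ a ∈ T, a ∈ U → ∀ b ∈ T, b ∈ U → col a = col b → a⁻¹ * b ∈ U₁)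
    (h2 : ∀ x ∈ U₁, ∀ y ∈ U₁, x⁻¹ * y ∈ U₂) : Good π T U₂ := by
  obtain ⟨V, hVT, hVU, hV⟩ := hU
  obtain ⟨V', hV', hc'⟩ := step π h.mixQ V col J (fun v hv => hJ v (hVT hv) (hVU v hv)) hL hV
  obtain ⟨V'', hV'', hc''⟩ := step π h.mixQ V' cov I (fun w hw => by
    obtain ⟨a, ha, b, hb, -, rfl⟩ := hV' w hw
    exact h.covI _ (h.inv _ (hVT ha)) _ (hVT hb)) h.cardI hc'
  refine ⟨V'', fun w hw => ?_, fun w hw => ?_, hc''⟩
  · obtain ⟨x, hx, y, hy, hxy, rfl⟩ := hV'' w hw
    obtain ⟨a, ha, b, hb, -, rfl⟩ := hV' x hx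
    obtain ⟨c, hc, e, he, -, rfl⟩ := hV' y hy
    exact h.covT _ (h.inv _ (hVT ha)) _ (hVT hb) _ (h.inv _ (hVT hc)) _ (hVT he) hxy
  · obtain ⟨x, hx, y, hy, -, rfl⟩ := hV'' w hw
    obtain ⟨a, ha, b, hb, hab, rfl⟩ := hV' x hx
    obtain ⟨c, hc, e, he, hce, rfl⟩ := hV' y hy
    exact h2 _ (h1 a (hVT ha) (hVU a ha) b (hVT hb) (hVU b hb) hab) _
      (h1 c (hVT hc) (hVU c hc) e (hVT he) (hVU e he) hce)

lemma onto (h : Data0 π T L cov I) (hg : Good π T Set.univ) (q : Q) :
    ∃ a ∈ T, ∃ b ∈ T, π (a * b) = q := by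
  obtain ⟨V, hVT, -, hV⟩ := hg
  obtain ⟨x, hx, y, hy, rfl⟩ := half _ hV q
  obtain ⟨a, ha, rfl⟩ := mem_image.1 hx
  obtain ⟨b, hb, rfl⟩ := mem_image.1 hy
  exact ⟨_, h.inv a (hVT ha), b, hVT hb, by simp⟩

lemma pow7 {S : Set G} {a b c d e f g : G} (ha : a ∈ S) (hb : b ∈ S) (hc : c ∈ S) (hd : d ∈ S)
    (he : e ∈ S) (hf : f ∈ S) (hg : g ∈ S) : a * b * c * d * e * f * g ∈ S ^ 7 := by
  simp only [pow_succ, pow_zero, one_mul]
  apply_rules [Set.mul_mem_mul]

/-- Short elements of the kernel are central. -/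
lemma central_short (h : Data π T L cov I) (hg : Good π T Set.univ)
    (hmin : ∀ C : Subgroup G, Good π T C → C = ⊤) {a b c d e : G} (ha : a ∈ T) (hb : b ∈ T)
    (hc : c ∈ T) (hd : d ∈ T) (he : e ∈ T) (hπ : π (a * b * c * d * e) = 1) :
    a * b * c * d * e ∈ Subgroup.center G := by
  classical
  set z := a * b * c * d * e with hz
  have h1 : Good π T (Subgroup.centralizer {z}) := by
    refine regen h.toData0 (U₁ := Subgroup.centralizer {z}) hg (fun t => t * z * t⁻¹)
      (T.image fun t => t * z * t⁻¹) (fun t ht _ => mem_image_of_mem _ ht) (h.fib _ ?_) ?_ ?_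
    · intro y hy
      obtain ⟨t, ht, rfl⟩ := mem_image.1 hy
      refine ⟨by simp [hπ], ?_⟩
      have : t * z * t⁻¹ = t * a * b * c * d * e * t⁻¹ := by rw [hz]; group
      rw [this]
      exact pow7 ht ha hb hc hd he (h.inv t ht)
    · intro x _ _ y _ _ hxy
      rw [SetLike.mem_coe, Subgroup.mem_centralizer_singleton_iff]
      calc x⁻¹ * y * z = x⁻¹ * (y * z * y⁻¹) * y := by group
        _ = z * (x⁻¹ * y) := by rw [← hxy]; group
    · intro x hx y hy
      exact mul_mem (inv_mem hx) hy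
  have h2 := hmin _ h1
  rw [Subgroup.mem_center_iff]
  intro g
  have : g ∈ Subgroup.centralizer {z} := h2 ▸ Subgroup.mem_top g
  exact Subgroup.mem_centralizer_singleton_iff.1 this

/-- The kernel is central. -/
lemma central (h : Data π T L cov I) (hg : Good π T Set.univ)
    (hmin : ∀ C : Subgroup G, Good π T C → C = ⊤) (z : G) (hz : π z = 1) :
    z ∈ Subgroup.center G := by
  choose sa hsa sb hsb hs using onto h.toData0 hg
  have hcl : Subgroup.closure (T : Set G) = ⊤ := by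
    obtain ⟨V, hVT, -, hV⟩ := hg
    exact hmin _ ⟨V, hVT, fun v hv => Subgroup.subset_closure (hVT hv), hV⟩
  have h0 : sa 1 * sb 1 ∈ Subgroup.center G := by
    simpa using central_short h hg hmin (hsa 1) (hsb 1) h.one h.one h.one (by simpa using hs 1)
  have hstep : ∀ x, ∀ y ∈ T, x * (sa (π x) * sb (π x))⁻¹ ∈ Subgroup.center G →
      x * y * (sa (π (x * y)) * sb (π (x * y)))⁻¹ ∈ Subgroup.center G := by
    intro x y hy hx
    have h1 := central_short h hg hmin (hsa (π x)) (hsb (π x)) hy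
      (h.inv _ (hsb (π (x * y)))) (h.inv _ (hsa (π (x * y)))) (by
        rw [mul_assoc _ _ (sa _)⁻¹, ← mul_inv_rev, map_mul, map_inv, hs, map_mul, hs, map_mul]
        group)
    convert mul_mem hx h1 using 1
    group
  have key : ∀ g ∈ Subgroup.closure (T : Set G),
      g * (sa (π g) * sb (π g))⁻¹ ∈ Subgroup.center G := by
    intro g hg
    induction hg using Subgroup.closure_induction_right with
    | one => simpa using inv_mem h0
    | mul_right x _ y hy ih => exact hstep x y hy ih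
    | mul_inv_cancel x _ y hy ih => exact hstep x _ (h.inv y hy) ih
  have h3 := mul_mem (key z (hcl ▸ Subgroup.mem_top z)) h0
  rwa [hz, inv_mul_cancel_right] at h3

/-- The group is perfect. -/
lemma perfect (h : Data0 π T L cov I) (hg : Good π T Set.univ)
    (hmin : ∀ C : Subgroup G, Good π T C → C = ⊤) : commutator G = ⊤ := by
  classical
  by_contra hne
  obtain ⟨g₀, hg₀⟩ : ∃ g₀, g₀ ∉ commutator G := by
    by_contra hc
    push Not at hc
    exact hne (eq_top_iff.2 fun g _ => hc g)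
  have h0 : Additive.ofMul (Abelianization.of g₀) ≠ 0 := by
    intro h0
    apply hg₀
    rw [← Abelianization.ker_of]
    exact h0
  obtain ⟨c, hc⟩ := CharacterModule.exists_character_apply_ne_zero_of_ne_zero h0
  let φ : G → AddCircle (1 : ℚ) := fun g => c (Additive.ofMul (Abelianization.of g))
  have hφ : ∀ a b, φ (a⁻¹ * b) = φ b - φ a := fun a b => by
    simp only [φ, map_mul, map_inv, ofMul_mul, ofMul_inv, map_add, map_neg]
    abel
  let U : ℚ → Set G := fun r => {g | ∃ θ : ℚ, |θ| ≤ r ∧ (θ : AddCircle (1 : ℚ)) = φ g}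
  have hU : ∀ j : ℕ, Good π T (U ((1 / 2) ^ j)) := by
    intro j
    induction j with
    | zero =>
      obtain ⟨V, hVT, -, hV⟩ := hg
      refine ⟨V, hVT, fun v _ => ?_, hV⟩
      obtain ⟨θ, hθ⟩ := QuotientAddGroup.mk_surjective (φ v)
      refine ⟨Int.fract θ, ?_, by rw [AddCircle.coe_fract]; exact hθ⟩
      rw [abs_of_nonneg (Int.fract_nonneg θ), pow_zero]
      exact (Int.fract_lt_one θ).le
    | succ j ih =>
      set r : ℚ := (1 / 2) ^ j with hr
      have hr0 : 0 < r := by positivity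
      have hex : ∀ g, ∃ θ : ℚ, g ∈ U r → |θ| ≤ r ∧ (θ : AddCircle (1 : ℚ)) = φ g := fun g => by
        by_cases hgU : g ∈ U r
        · obtain ⟨θ, hθ⟩ := hgU
          exact ⟨θ, fun _ => hθ⟩
        · exact ⟨0, fun h => absurd h hgU⟩
      choose θ hθ using hex
      refine regen h (U₁ := U (r / 4)) ih (fun g => ⌊4 * θ g / r⌋) (Icc (-4) 4) ?_
        (by simpa using h.nine) ?_ ?_
      · intro t _ ht
        obtain ⟨h1, h2⟩ := abs_le.1 (hθ t ht).1
        rw [mem_Icc, Int.le_floor, Int.floor_le_iff, le_div_iff₀ hr0, div_lt_iff₀ hr0]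
        push_cast
        constructor <;> linarith
      · intro a _ ha b _ hb hab
        refine ⟨θ b - θ a, ?_, by rw [AddCircle.coe_sub, (hθ a ha).2, (hθ b hb).2, hφ]⟩
        have h1 := Int.abs_sub_lt_one_of_floor_eq_floor hab.symm
        rw [← sub_div, ← mul_sub, abs_div, abs_mul, abs_of_pos hr0, div_lt_one hr0] at h1
        norm_num at h1
        linarith
      · rintro x ⟨a, ha, hx⟩ y ⟨b, hb, hy⟩
        refine ⟨b - a, ?_, by rw [AddCircle.coe_sub, hx, hy, hφ]⟩
        rw [pow_succ, ← hr]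
        have := abs_sub b a
        linarith
  have hev : ∀ t ∈ T, ∀ᶠ j : ℕ in Filter.atTop, t ∈ U ((1 / 2) ^ j) → φ t = 0 := by
    intro t _
    obtain ⟨θ₀, hθ₀⟩ := QuotientAddGroup.mk_surjective (φ t)
    have hd : (0 : ℚ) < θ₀.den := by exact_mod_cast θ₀.den_pos
    obtain ⟨n, hn⟩ := exists_pow_lt_of_lt_one (inv_pos.2 hd) (by norm_num : (1 / 2 : ℚ) < 1)
    filter_upwards [Filter.eventually_ge_atTop n] with j hj
    rintro ⟨θ, h1, h2⟩
    have h3 : ((θ - θ₀ : ℚ) : AddCircle (1 : ℚ)) = 0 := by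
      rw [AddCircle.coe_sub, h2, ← hθ₀, sub_self]
    obtain ⟨k, hk⟩ := (AddCircle.coe_eq_zero_iff _).1 h3
    have h4 : θ * θ₀.den = ((k * θ₀.den + θ₀.num : ℤ) : ℚ) := by
      have : θ = k + θ₀ := by simp at hk; linarith
      rw [this]
      push_cast
      rw [add_mul, Rat.mul_den_eq_num]
    have h5 : |θ * θ₀.den| < 1 := by
      rw [abs_mul, abs_of_pos hd, ← lt_div_iff₀ hd, one_div]
      exact h1.trans_lt ((pow_le_pow_of_le_one (by norm_num) (by norm_num) hj).trans_lt hn)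
    rw [h4, ← Int.cast_abs, ← Int.cast_one, Int.cast_lt, Int.abs_lt_one_iff] at h5
    rw [h5, Int.cast_zero, mul_eq_zero] at h4
    rw [← h2, h4.resolve_right hd.ne']
    rfl
  obtain ⟨j, hj⟩ := ((Filter.eventually_all_finset T).2 hev).exists
  let K : Subgroup G :=
    { carrier := {g | φ g = 0}
      one_mem' := by simp [φ]
      mul_mem' := fun {a b} ha hb => by
        simp only [Set.mem_ofPred_eq, φ, map_mul, ofMul_mul, map_add] at ha hb ⊢
        rw [ha, hb, add_zero]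
      inv_mem' := fun {a} ha => by
        simp only [Set.mem_ofPred_eq, φ, map_inv, ofMul_inv, map_neg] at ha ⊢
        rw [ha, neg_zero] }
  obtain ⟨V, hVT, hVU, hV⟩ := hU j
  have hK := hmin K ⟨V, hVT, fun v hv => hj v (hVT hv) (hVU v hv), hV⟩
  have : g₀ ∈ K := hK ▸ Subgroup.mem_top g₀
  exact hc this

omit [DecidableEq Q] in
open scoped commutatorElement in
/-- A perfect central extension of a finite group is finite. -/
lemma finite_of (hp : Function.Surjective π) (hz : ∀ z, π z = 1 → z ∈ Subgroup.center G)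
    (hC : commutator G = ⊤) : Finite G := by
  let s : Q → G := Function.surjInv hp
  have hs : ∀ q, π (s q) = q := Function.surjInv_eq hp
  have h1 : ∀ z ∈ Subgroup.center G, ∀ x, z * x * z⁻¹ = x := fun z hz x => by
    rw [← Subgroup.mem_center_iff.1 hz x]; group
  have : Finite (commutatorSet G) := by
    refine Set.Finite.subset (Set.finite_range fun q : Q × Q => ⁅s q.1, s q.2⁆) ?_
    rintro _ ⟨g, k, rfl⟩
    refine ⟨(π g, π k), ?_⟩
    have a1 := hz (g * (s (π g))⁻¹) (by simp [hs])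
    have a2 := hz (k * (s (π k))⁻¹) (by simp [hs])
    have e1 : ⁅g, k⁆ = ⁅s (π g), k⁆ := by
      simp only [commutatorElement_def]
      rw [← h1 _ a1 (s (π g) * k * (s (π g))⁻¹)]
      group
    have e2 : ⁅k, s (π g)⁆ = ⁅s (π k), s (π g)⁆ := by
      simp only [commutatorElement_def]
      rw [← h1 _ a2 (s (π k) * s (π g) * (s (π k))⁻¹)]
      group
    rw [e1, ← commutatorElement_inv, e2, commutatorElement_inv]
  have h2 : Finite (commutator G) := inferInstance
  rw [hC] at h2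
  exact Finite.of_equiv _ Subgroup.topEquiv.toEquiv

/-- A minimal good group is the product set of `T` with itself. -/
lemma core (h : Data π T L cov I) (hg : Good π T Set.univ)
    (hmin : ∀ C : Subgroup G, Good π T C → C = ⊤) {d : ℝ}
    (hQ : ∀ n : ℕ, (n : ℝ) < d ^ 2 → ∀ ρ : Q →* GL (Fin n) ℂ, ∀ q, ρ q = 1)
    (hd : 16 * L ^ 3 ≤ d) (g : G) : ∃ a ∈ T, ∃ b ∈ T, g = a * b := by
  classical
  have hp : Function.Surjective π := fun q => by
    obtain ⟨a, -, b, -, hab⟩ := onto h.toData0 hg q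
    exact ⟨_, hab⟩
  have hz := central h hg hmin
  have hC := perfect h.toData0 hg hmin
  have := finite_of hp hz hC
  have := Fintype.ofFinite G
  obtain ⟨V, hVT, -, hV⟩ := hg
  obtain ⟨i, hi⟩ := popular π V cov I
    (fun v hv => by simpa using h.covI v (hVT hv) 1 h.one) h.cardI hV
  obtain ⟨E, hE, hinj, himg⟩ := exists_subset_injOn_image_eq_of_surjOn (f := π)
    (V.filter fun v => cov v = i) ((V.filter fun v => cov v = i).image π) (by
      rw [coe_image]; exact Set.surjOn_image _ _)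
  rw [← himg, card_image_of_injOn hinj] at hi
  have hF : E⁻¹ * E ⊆ T := by
    intro w hw
    obtain ⟨a', ha', b, hb, rfl⟩ := mem_mul.1 hw
    obtain ⟨a, ha, rfl⟩ := mem_inv.1 ha'
    have a1 := mem_filter.1 (mem_coe.1 (hE ha))
    have b1 := mem_filter.1 (mem_coe.1 (hE hb))
    simpa using h.covT a (hVT a1.1) 1 h.one b (hVT b1.1) 1 h.one (by simp [a1.2, b1.2])
  have hFc := card_le_card hF
  have hL : 0 < L := by linarith [h.nine]
  have hn : (0 : ℝ) < Fintype.card Q := by exact_mod_cast Fintype.card_pos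
  have hm := mix π hp (fun z h1 c => (Subgroup.mem_center_iff.1 (hz z h1) c).symm) (d := d)
    (fun U ρ h1 h2 => rep_triv_ext hQ π hp hC ρ h1 h2) E hinj (by
      have c1 : ((E⁻¹ * E).card : ℝ) ≤ L * Fintype.card Q :=
        le_trans (by exact_mod_cast hFc) h.size
      calc 4 * ((E⁻¹ * E).card : ℝ) * Fintype.card Q
          ≤ 4 * (L * Fintype.card Q) * Fintype.card Q := by gcongr
        _ = 4 * L * (Fintype.card Q : ℝ) ^ 2 := by ring
        _ < 4 * L * (2 * L * E.card) ^ 2 := by gcongr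
        _ = 16 * L ^ 3 * (E.card : ℝ) ^ 2 := by ring
        _ ≤ _ := by gcongr)
  obtain ⟨a, ha, b, hb, rfl⟩ := half T (by omega) g
  exact ⟨_, h.inv a ha, b, hb, rfl⟩

/-- The standing hypotheses pass to subgroups. -/
lemma Data0.sub (h : Data0 π T L cov I) (C : Subgroup G) [DecidablePred (· ∈ C)] :
    Data0 (π.comp C.subtype) (T.subtype (· ∈ C)) L (fun c => cov c) I where
  one := mem_subtype.2 h.one
  inv := fun t ht => mem_subtype.2 (h.inv _ (mem_subtype.1 ht))
  cardI := h.cardI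
  covI := fun a ha b hb => h.covI _ (mem_subtype.1 ha) _ (mem_subtype.1 hb)
  covT := fun a ha b hb c hc e he hx => mem_subtype.2
    (h.covT _ (mem_subtype.1 ha) _ (mem_subtype.1 hb) _ (mem_subtype.1 hc) _ (mem_subtype.1 he) hx)
  nine := h.nine
  mixQ := h.mixQ

lemma Data.sub (h : Data π T L cov I) (C : Subgroup G) [DecidablePred (· ∈ C)] :
    Data (π.comp C.subtype) (T.subtype (· ∈ C)) L (fun c => cov c) I where
  toData0 := h.toData0.sub C
  fib := fun J hJ => by
    have := h.fib (J.map (Function.Embedding.subtype _)) fun y hy => by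
      obtain ⟨x, hx, rfl⟩ := mem_map.1 hy
      refine ⟨(hJ x hx).1, ?_⟩
      have h1 := Set.mem_image_of_mem C.subtype (hJ x hx).2
      rw [Set.image_pow] at h1
      refine Set.pow_subset_pow_left ?_ h1
      rintro _ ⟨t, ht, rfl⟩
      exact mem_subtype.1 ht
    rwa [card_map] at this
  size := le_trans (by
    rw [card_subtype]
    exact_mod_cast card_filter_le _ _) h.size

open Classical in
/-- A minimal good subgroup. -/
lemma exists_min (hg : Good π T Set.univ) :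
    ∃ C : Subgroup G, Good (π.comp C.subtype) (T.subtype (· ∈ C)) Set.univ ∧
      ∀ C' : Subgroup C, Good (π.comp C.subtype) (T.subtype (· ∈ C)) C' → C' = ⊤ := by
  obtain ⟨C₀, hC₀, hmin⟩ := (measure fun C : Subgroup G => (T.filter (· ∈ C)).card).wf.has_min
    {C | Good π T C} ⟨⊤, hg⟩
  let C := Subgroup.closure (T.filter (· ∈ C₀) : Set G)
  have hle : C ≤ C₀ := (Subgroup.closure_le _).2 fun t ht => (mem_filter.1 (mem_coe.1 ht)).2
  refine ⟨C, ?_, ?_⟩
  · obtain ⟨V, hVT, hVC, hV⟩ := hC₀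
    refine ⟨V.subtype (· ∈ C), fun v hv => mem_subtype.2 (hVT (mem_subtype.1 hv)),
      fun _ _ => trivial, hV.trans_le (Nat.mul_le_mul_left _ (card_le_card fun q hq => ?_))⟩
    obtain ⟨v, hv, rfl⟩ := mem_image.1 hq
    exact mem_image.2 ⟨⟨v, Subgroup.subset_closure (mem_coe.2 (mem_filter.2 ⟨hVT hv, hVC v hv⟩))⟩,
      mem_subtype.2 hv, rfl⟩
  · rintro C' ⟨V, hVT, hVC, hV⟩
    have g1 : Good π T (C'.map C.subtype) := by
      refine ⟨V.image C.subtype, fun v hv => ?_, fun v hv => ?_, by rwa [image_image]⟩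
      · obtain ⟨w, hw, rfl⟩ := mem_image.1 hv
        exact mem_subtype.1 (hVT hw)
      · obtain ⟨w, hw, rfl⟩ := mem_image.1 hv
        exact ⟨w, hVC w hw, rfl⟩
    have g2 : T.filter (· ∈ C'.map C.subtype) = T.filter (· ∈ C₀) :=
      eq_of_subset_of_card_le (fun t ht => mem_filter.2 ⟨(mem_filter.1 ht).1,
        hle (Subgroup.map_subtype_le _ (mem_filter.1 ht).2)⟩) (not_lt.1 (hmin _ g1))
    have g3 : C ≤ C'.map C.subtype := (Subgroup.closure_le _).2 fun t ht => by
      rw [← g2] at ht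
      exact (mem_filter.1 (mem_coe.1 ht)).2
    refine eq_top_iff.2 fun c _ => ?_
    obtain ⟨w, hw, hwc⟩ := g3 c.2
    rwa [← Subtype.ext hwc]

/-- The descent. -/
lemma descent (h : Data π T L cov I) (hg : Good π T Set.univ) {d : ℝ}
    (hQ : ∀ n : ℕ, (n : ℝ) < d ^ 2 → ∀ ρ : Q →* GL (Fin n) ℂ, ∀ q, ρ q = 1)
    (hd : 16 * L ^ 3 ≤ d) :
    ∃ C : Subgroup G, (∀ g ∈ C, ∃ a ∈ T, ∃ b ∈ T, g = a * b) ∧ ∀ q, ∃ g ∈ C, π g = q := by
  classical
  obtain ⟨C, hg', hmin'⟩ := exists_min hg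
  have hD := h.sub C
  refine ⟨C, fun g hgC => ?_, fun q => ?_⟩
  · obtain ⟨a, ha, b, hb, hab⟩ := core hD hg' hmin' hQ hd ⟨g, hgC⟩
    exact ⟨a, mem_subtype.1 ha, b, mem_subtype.1 hb, congrArg Subtype.val hab⟩
  · obtain ⟨a, -, b, -, hab⟩ := onto hD.toData0 hg' q
    exact ⟨_, (a * b).2, hab⟩

/-- Mixing in the base. -/
lemma mix_base {D : ℝ}
    (hQ : ∀ n : ℕ, (n : ℝ) < D → ∀ ρ : Q →* GL (Fin n) ℂ, ∀ q, ρ q = 1)
    (hD : 8 * L ^ 2 ≤ D) (E : Finset Q) (hE : (Fintype.card Q : ℝ) < 2 * L * E.card) :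
    Fintype.card Q < 2 * (E⁻¹ * E).card := by
  by_contra hc
  refine hc (mix (MonoidHom.id Q) Function.surjective_id (fun z hz c => by
    rw [show z = 1 from hz]; simp) (d := D) (fun U ρ h1 _ => rep_triv hQ ρ h1) E
    (Set.injOn_id _) ?_)
  push Not at hc
  have h1 : 2 * ((E⁻¹ * E).card : ℝ) ≤ Fintype.card Q := by exact_mod_cast hc
  have hn : (0 : ℝ) < Fintype.card Q := by exact_mod_cast Fintype.card_pos
  calc 4 * ((E⁻¹ * E).card : ℝ) * Fintype.card Q ≤ 2 * (Fintype.card Q : ℝ) ^ 2 := by nlinarith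
    _ < 2 * (2 * L * E.card) ^ 2 := by gcongr
    _ = 8 * L ^ 2 * (E.card : ℝ) ^ 2 := by ring
    _ ≤ _ := by gcongr

end Pool.Agent.Lib.MP_e18f8a_al.QB
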