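import Pool.Agent.Lib.MP_e18f8a_al.QTw

/-!
Approximate groups generating a perfect group, over a solvable kernel.
-/

open scoped Pointwise commutatorElement
open Finset Module

namespace Pool.Agent.Lib.MP_e18f8a_al.QB

variable {G Q : Type*} [Group G] [Group Q]

lemma pmul {S : Set G} {m n : ℕ} {a b : G} (ha : a ∈ S ^ m) (hb : b ∈ S ^ n) :
    a * b ∈ S ^ (m + n) := by
  rw [pow_add]; exact Set.mul_mem_mul ha hb

lemma pinv {K : ℝ} {S : Set G} (hA : IsApproximateSubgroup K S) {m : ℕ} {a : G}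
    (ha : a ∈ S ^ m) : a⁻¹ ∈ S ^ m := by
  rw [← hA.inv_eq_self, inv_pow]; exact Set.inv_mem_inv.2 ha

lemma pmono {K : ℝ} {S : Set G} (hA : IsApproximateSubgroup K S) {m n : ℕ} (h : m ≤ n) {a : G}
    (ha : a ∈ S ^ m) : a ∈ S ^ n := Set.pow_subset_pow_right hA.one_mem h ha

lemma pone {S : Set G} {a : G} (ha : a ∈ S) : a ∈ S ^ 1 := by rwa [pow_one]

/-- A colouring of a power whose classes have quotients in the square. -/
lemma exists_cov {K : ℝ} {S : Set G} (hA : IsApproximateSubgroup K S) (n : ℕ) :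
    ∃ (cov : G → G) (I : Finset G), (I.card : ℝ) ≤ K ^ (n + 1) ∧ (∀ u ∈ S ^ (n + 2), cov u ∈ I) ∧
      ∀ u ∈ S ^ (n + 2), ∀ v ∈ S ^ (n + 2), cov u = cov v → u⁻¹ * v ∈ S ^ 2 := by
  classical
  obtain ⟨F, hF, hAF⟩ := hA.sq_covBySMul
  have h4 : S ^ (n + 2) ⊆ (F : Set G) ^ (n + 1) * S :=
    Set.pow_subset_pow_mul_of_sq_subset_mul hAF (by omega)
  have hcov : ∀ u : G, ∃ x : G, u ∈ S ^ (n + 2) → x ∈ F ^ (n + 1) ∧ x⁻¹ * u ∈ S := fun u => by
    by_cases hu : u ∈ S ^ (n + 2)
    · obtain ⟨x, hx, a, ha, rfl⟩ := h4 hu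
      exact ⟨x, fun _ => ⟨by rwa [← coe_pow] at hx, by simpa using ha⟩⟩
    · exact ⟨1, fun h => absurd h hu⟩
  choose cov hcov using hcov
  refine ⟨cov, F ^ (n + 1), ?_, fun u hu => (hcov u hu).1, fun u hu v hv h => ?_⟩
  · calc ((F ^ (n + 1)).card : ℝ) ≤ (F.card : ℝ) ^ (n + 1) := by exact_mod_cast card_pow_le
      _ ≤ _ := by gcongr
  · convert pmul (pinv hA (pone (hcov u hu).2)) (pone (hcov v hv).2) using 1
    rw [h]
    group

/-- All commutators with the abelian kernel are short. -/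
lemma ztrick [Fintype Q] [DecidableEq Q] {K : ℝ} {S : Set G} (hA : IsApproximateSubgroup K S)
    (hcl : Subgroup.closure S = ⊤) (p : G →* Q) (s : Q → G) (hs : ∀ q, p (s q) = q)
    (hs4 : ∀ q, s q ∈ S ^ 4) (hc : ∀ v w, p v = 1 → p w = 1 → v * w = w * v)
    (hmix : ∀ E : Finset Q, (Fintype.card Q : ℝ) < 2 * K ^ 55 * E.card →
      Fintype.card Q < 2 * (E⁻¹ * E).card) (x : G) (hx : p x = 1) (g : G) :
    g * x * g⁻¹ * x⁻¹ ∈ S ^ 28 := by
  have hconj : ∀ g g' x, p g = p g' → p x = 1 → g * x * g⁻¹ = g' * x * g'⁻¹ := by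
    intro g g' x h hx
    have := hc (g'⁻¹ * g) x (by simp [h]) hx
    calc g * x * g⁻¹ = g' * (g'⁻¹ * g * x) * g⁻¹ := by group
      _ = _ := by rw [this]; group
  obtain ⟨cov, I, hI, hcI, hcov⟩ := exists_cov hA 54
  let Z : Subgroup G :=
    { carrier := {x | p x = 1 ∧ ∀ g, g * x * g⁻¹ * x⁻¹ ∈ S ^ 28}
      one_mem' := ⟨map_one p, fun g => by
        simpa using pmono hA (Nat.zero_le 28) (a := 1) (by simp)⟩
      inv_mem' := fun {x} hx => ⟨by simp [hx.1], fun g => by
        convert pinv hA (hx.2 g) using 1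
        rw [hc (g * x⁻¹ * g⁻¹) x⁻¹⁻¹ (by simp [hx.1]) (by simp [hx.1])]
        group⟩
      mul_mem' := fun {x y} hx hy => ⟨by simp [hx.1, hy.1], fun g => by
        set η := x * y with hη
        have hη1 : p η = 1 := by simp [hη, hx.1, hy.1]
        let c : G → G := fun g => g * η * g⁻¹ * η⁻¹
        have hc1 : ∀ g, p (c g) = 1 := fun g => by simp [c, hη1]
        have hc56 : ∀ g, c g ∈ S ^ 56 := fun g => by
          convert pmul (hx.2 g) (hy.2 g) using 1
          rw [mul_assoc (g * x * g⁻¹), hc x⁻¹ (g * y * g⁻¹ * y⁻¹) (by simp [hx.1]) (by simp [hy.1])]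
          simp only [c, hη]
          group
        have hcc : ∀ a b, p a = p b → c a = c b := fun a b h => by
          simp only [c, hconj a b η h hη1]
        have hco : ∀ a b, c (a⁻¹ * b) = a⁻¹ * ((c a)⁻¹ * c b) * a := fun a b => by
          rw [hc (c a)⁻¹ (c b) (by simp [hc1]) (hc1 b)]
          simp only [c]
          group
        obtain ⟨V', hV', hcard⟩ := step (MonoidHom.id Q) hmix univ (fun q => cov (c (s q))) I
          (fun q _ => hcI _ (hc56 _)) hI (by
            have := Fintype.card_pos (α := Q)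
            have h : (univ.image (MonoidHom.id Q)).card = Fintype.card Q :=
              card_image_of_injective _ fun _ _ h => h
            omega)
        have h10 : ∀ u ∈ V', c (s u) ∈ S ^ 10 := fun u hu => by
          obtain ⟨a, -, b, -, hab, rfl⟩ := hV' u hu
          rw [hcc _ ((s a)⁻¹ * s b) (by simp [hs]), hco]
          exact pmul (pmul (pinv hA (hs4 a)) (hcov _ (hc56 _) _ (hc56 _) hab)) (hs4 a)
        obtain ⟨u, hu, v, hv, huv⟩ := half V' (by simpa using hcard) (p g)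
        change c g ∈ S ^ 28
        rw [hcc _ ((s u)⁻¹ * s v) (by simp [hs, huv]), hco]
        exact pmul (pmul (pinv hA (hs4 u)) (pmul (pinv hA (h10 u hu)) (h10 v hv))) (hs4 u)⟩ }
  have h9 : ∀ b ∈ S ^ 9, p b = 1 → b ∈ Z := fun b hb hb1 => ⟨hb1, fun g => by
    rw [hconj g (s (p g)) b (hs _).symm hb1]
    exact pmono hA (by norm_num)
      (pmul (pmul (pmul (hs4 _) hb) (pinv hA (hs4 _))) (pinv hA hb))⟩
  have h0 : s 1 ∈ Z := h9 _ (pmono hA (by norm_num) (hs4 1)) (hs 1)
  have hstep : ∀ x, ∀ y ∈ S, x * (s (p x))⁻¹ ∈ Z → x * y * (s (p (x * y)))⁻¹ ∈ Z := by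
    intro x y hy hx
    have h1 := h9 _ (pmul (pmul (hs4 (p x)) (pone hy)) (pinv hA (hs4 (p (x * y))))) (by simp [hs])
    convert mul_mem hx h1 using 1
    group
  have key : ∀ g ∈ Subgroup.closure S, g * (s (p g))⁻¹ ∈ Z := by
    intro g hg
    induction hg using Subgroup.closure_induction_right with
    | one => simpa using inv_mem h0
    | mul_right x _ y hy ih => exact hstep x y hy ih
    | mul_inv_cancel x _ y hy ih =>
      exact hstep x _ (by simpa using pinv hA (pone hy)) ih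
  have h3 := mul_mem (key x (hcl ▸ Subgroup.mem_top x)) h0
  rw [hx, inv_mul_cancel_right] at h3
  exact h3.2 g

/-- A dense approximate group fills a quasirandom group. -/
lemma fill [Fintype G] [DecidableEq G] {K d L : ℝ} {A : Finset G}
    (hA : IsApproximateSubgroup K (A : Set G)) (hG : QR G d) (hd : 8 * L ^ 2 ≤ d)
    (h : (Fintype.card G : ℝ) < 2 * L * A.card) (g : G) : g ∈ (A : Set G) ^ 4 := by
  obtain ⟨u, hu, v, hv, rfl⟩ := half _ (mix_base hG hd A h) g
  have : ∀ w ∈ A⁻¹ * A, w ∈ (A : Set G) ^ 2 := fun w hw => by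
    obtain ⟨a', ha', b, hb, rfl⟩ := mem_mul.1 hw
    obtain ⟨a, ha, rfl⟩ := mem_inv.1 ha'
    exact pmul (pinv hA (pone ha)) (pone hb)
  exact pmul (pinv hA (this u hu)) (this v hv)

/-- One abelian step. -/
lemma abel_step [DecidableEq G] [Finite Q] {K d : ℝ} {A : Finset G}
    (hA : IsApproximateSubgroup K (A : Set G)) (hcl : Subgroup.closure (A : Set G) = ⊤)
    (hG : commutator G = ⊤) (p : G →* Q) (h4 : ∀ q, ∃ g ∈ (A : Set G) ^ 4, p g = q)
    (hc : ∀ v w, p v = 1 → p w = 1 → v * w = w * v) (hQ : QR Q d) (hGd : Finite G → QR G d)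
    (hd : 8 * K ^ 110 ≤ d) : Finite G ∧ ∀ g : G, g ∈ (A : Set G) ^ 4 := by
  classical
  have := Fintype.ofFinite Q
  have hK := hA.one_le
  choose s hs4 hs using h4
  have hz := ztrick hA hcl p s hs hs4 hc (mix_base hQ (by rwa [← pow_mul]))
  have hcj : ∀ x, p x = 1 → ∀ {m : ℕ} {w : G}, w ∈ (A : Set G) ^ m →
      x * w * x⁻¹ ∈ (A : Set G) ^ (28 + m) := fun x hx m w hw => by
    convert pmul (pinv hA (hz x hx w)) hw using 1
    group
  have hfin : Finite G := by
    have : Finite (commutatorSet G) := by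
      refine Set.Finite.subset (A ^ 100).finite_toSet ?_
      rw [coe_pow]
      intro y hy
      obtain ⟨g, h, rfl⟩ := mem_commutatorSet_iff.1 hy
      have a1 := hcj (g * (s (p g))⁻¹) (by simp [hs])
        (pmul (pmul (hs4 (p g)) (hs4 (p h))) (pinv hA (hs4 (p g))))
      have a2 := hcj (h * (s (p h))⁻¹) (by simp [hs]) (pmul a1 (pinv hA (hs4 (p h))))
      convert pmul (hz (h * (s (p h))⁻¹) (by simp [hs]) g) a2 using 1
      simp only [commutatorElement_def]
      group
    have h2 : Finite (commutator G) := inferInstance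
    rw [hG] at h2
    exact Finite.of_equiv _ Subgroup.topEquiv.toEquiv
  refine ⟨hfin, ?_⟩
  have := Fintype.ofFinite G
  have hA0 : (0 : ℝ) < A.card := by exact_mod_cast card_pos.2 ⟨1, hA.one_mem⟩
  have h33 : ((A ^ 33).card : ℝ) ≤ K ^ 32 * A.card := hA.card_pow_le
  have hK32 : K ^ 32 ≤ K ^ 110 := pow_le_pow_right₀ hK (by norm_num)
  have hK64 : (K ^ 32) ^ 2 ≤ K ^ 110 := by
    rw [← pow_mul]; exact pow_le_pow_right₀ hK (by norm_num)
  have hKp : 0 < K ^ 32 := by positivity
  have h1 := twirl p s hs hc (hGd hfin) A (A ^ 33) (fun z hz q a ha => by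
    rw [← mem_coe, coe_pow]
    have := hcj z⁻¹ (by simp [hz]) (hs4 q)
    rw [inv_inv] at this
    exact pmul (pinv hA this) (pone ha)) (by
      have : 4 * K ^ 32 < d := by linarith
      nlinarith)
  refine fill hA (hGd hfin) (L := K ^ 32) (by linarith) ?_
  have h2 : (Fintype.card G : ℝ) < 2 * (A ^ 33).card := by exact_mod_cast h1
  linarith

lemma perfect_of_surj {H : Type*} [Group H] (hG : commutator G = ⊤) (f : G →* H)
    (hf : Function.Surjective f) : commutator H = ⊤ := by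
  have := congrArg (Subgroup.map f) hG
  rwa [commutator_def, Subgroup.map_commutator, Subgroup.map_top_of_surjective f hf] at this

lemma solv_ker {H : Type*} [Group H] (π : G →* Q) [Group.IsSolvable π.ker] (f : G →* H)
    (hf : Function.Surjective f) (π' : H →* Q) (h : ∀ g, π' (f g) = π g) :
    Group.IsSolvable π'.ker := by
  let φ : π.ker →* π'.ker := (f.comp π.ker.subtype).codRestrict _ fun x => by
    rw [MonoidHom.mem_ker, MonoidHom.comp_apply, h]; exact x.2
  refine Group.isSolvable_of_surjective (f := φ) fun y => ?_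
  obtain ⟨x, hx⟩ := hf y
  exact ⟨⟨x, by rw [MonoidHom.mem_ker, ← h, hx]; exact y.2⟩, Subtype.ext hx⟩

/-- The engine. -/
lemma engine [DecidableEq G] [Finite Q] {K d : ℝ} {A : Finset G}
    (hA : IsApproximateSubgroup K (A : Set G)) (hcl : Subgroup.closure (A : Set G) = ⊤)
    (hG : commutator G = ⊤) (π : G →* Q) [Group.IsSolvable π.ker]
    (h4 : ∀ q, ∃ g ∈ (A : Set G) ^ 4, π g = q) (hQ : QR Q (d ^ 2)) (hd : 8 * K ^ 110 ≤ d)
    (g : G) : g ∈ (A : Set G) ^ 4 := by
  classical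
  have hπ : Function.Surjective π := fun q => by
    obtain ⟨g, -, hg⟩ := h4 q
    exact ⟨g, hg⟩
  have hq : ∀ (W : Subgroup G) [W.Normal], W ≤ π.ker → Finite (G ⧸ W) → QR (G ⧸ W) d := by
    intro W _ hW _
    let π' : G ⧸ W →* Q := QuotientGroup.lift W π hW
    have := solv_ker π (QuotientGroup.mk' W) (QuotientGroup.mk'_surjective W) π' fun _ => rfl
    exact qr_ext (perfect_of_surj hG _ (QuotientGroup.mk'_surjective W)) π' (fun q => by
      obtain ⟨g, rfl⟩ := hπ q
      exact ⟨g, rfl⟩) hQ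
  have key := up π.ker (fun V => Finite (G ⧸ V) ∧ ∀ g, ∃ a ∈ (A : Set G) ^ 4, a⁻¹ * g ∈ V)
    ⟨Finite.of_equiv _ (QuotientGroup.quotientKerEquivOfSurjective π hπ).symm.toEquiv, fun g => by
      obtain ⟨a, ha, hag⟩ := h4 (π g)
      exact ⟨a, ha, by simp [MonoidHom.mem_ker, hag]⟩⟩ (by
      rintro V hV hVN ⟨hfin, hon⟩
      have hle : ⁅V, V⁆ ≤ V := Subgroup.commutator_le_left V V
      let mk := QuotientGroup.mk' ⁅V, V⁆
      have hmk := QuotientGroup.mk'_surjective ⁅V, V⁆
      let p : G ⧸ ⁅V, V⁆ →* G ⧸ V := QuotientGroup.lift _ (QuotientGroup.mk' V) (by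
        rwa [QuotientGroup.ker_mk'])
      have hp : ∀ g, p (mk g) = (g : G ⧸ V) := fun _ => rfl
      have hA' : IsApproximateSubgroup K (A.image mk : Set (G ⧸ ⁅V, V⁆)) := by
        rw [coe_image]; exact hA.image mk
      have := abel_step hA' (by
        rw [coe_image, ← MonoidHom.map_closure, hcl, Subgroup.map_top_of_surjective _ hmk])
        (perfect_of_surj hG _ hmk) p (fun q => by
          obtain ⟨g, rfl⟩ := QuotientGroup.mk_surjective q
          obtain ⟨a, ha, hag⟩ := hon g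
          refine ⟨mk a, ?_, by rw [hp]; exact QuotientGroup.eq.2 hag⟩
          rw [coe_image, ← Set.image_pow]
          exact Set.mem_image_of_mem _ ha) (fun v w hv hw => by
          obtain ⟨v, rfl⟩ := hmk v
          obtain ⟨w, rfl⟩ := hmk w
          rw [← commutatorElement_eq_one_iff_mul_comm, ← map_commutatorElement]
          exact (QuotientGroup.eq_one_iff _).2 (Subgroup.commutator_mem_commutator
            ((QuotientGroup.eq_one_iff _).1 hv) ((QuotientGroup.eq_one_iff _).1 hw)))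
        (hq V hVN hfin) (hq _ (hle.trans hVN)) hd
      refine ⟨this.1, fun g => ?_⟩
      have h1 := this.2 (mk g)
      rw [coe_image, ← Set.image_pow] at h1
      obtain ⟨a, ha, hag⟩ := h1
      exact ⟨a, ha, QuotientGroup.eq.1 hag⟩)
  obtain ⟨a, ha, hag⟩ := key.2 g
  rw [Subgroup.mem_bot, inv_mul_eq_one] at hag
  exact hag ▸ ha

end Pool.Agent.Lib.MP_e18f8a_al.QB
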