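import Pool.Agent.Lib.MP_e18f8a_al.QEng

/-!
Existence of a quasirandom subgroup over the base.
-/

open scoped Pointwise commutatorElement
open Finset Module

namespace Pool.Agent.Lib.MP_e18f8a_al.QB

variable {G Q : Type*} [Group G] [Group Q]

/-- The trace of the square of an approximate group on a subgroup. -/
lemma approx_sub {H : Type*} [Group H] {K : ℝ} {S : Set G} (hA : IsApproximateSubgroup K S)
    (f : H →* G) (hf : Function.Injective f) : IsApproximateSubgroup (K ^ 3) (f ⁻¹' (S ^ 2)) := by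
  classical
  have h := hA.pow_inter_pow (IsApproximateSubgroup.subgroup (H := f.range)) le_rfl le_rfl
  have h2 : (f.range : Set G) ^ 2 = f.range := by rw [sq, coe_mul_coe]
  rw [h2] at h
  norm_num at h
  refine ⟨?_, ?_, ?_⟩
  · simpa using h.one_mem.1
  · ext x
    simp only [Set.mem_inv, Set.mem_preimage, map_inv]
    exact ⟨fun hx => by simpa using pinv hA hx, pinv hA⟩
  · obtain ⟨X, hX, hXB⟩ := h.sq_covBySMul
    refine ⟨X.preimage f hf.injOn, le_trans ?_ hX, fun u hu => ?_⟩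
    · exact_mod_cast card_le_card_of_injOn f (fun x hx => mem_preimage.1 hx) hf.injOn
    · rw [sq] at hu hXB
      obtain ⟨a, ha, b, hb, rfl⟩ := hu
      obtain ⟨x, hx, y, ⟨hy, c, rfl⟩, hxy⟩ := hXB
        (Set.mul_mem_mul (s := S ^ 2 ∩ Set.range f) ⟨ha, a, rfl⟩ ⟨hb, b, rfl⟩)
      have h3 : f (a * b * c⁻¹) = x := by
        have : x * f c = f a * f b := hxy
        rw [map_mul, map_mul, ← this]
        simp
      exact ⟨a * b * c⁻¹, by simpa [h3] using hx, c, hy, by simp⟩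

/-- The engine inside a subgroup generated by its trace on the square. -/
lemma engine_sub {H : Type*} [Group H] [Finite Q] [DecidableEq G] {K d : ℝ} {A : Finset G}
    (hA : IsApproximateSubgroup K (A : Set G)) (f : H →* G) (hf : Function.Injective f)
    (hcl : Subgroup.closure (f ⁻¹' ((A : Set G) ^ 2)) = ⊤) (hH : commutator H = ⊤)
    (π : H →* Q) [Group.IsSolvable π.ker]
    (h4 : ∀ q, ∃ a b, f a ∈ (A : Set G) ^ 2 ∧ f b ∈ (A : Set G) ^ 2 ∧ π (a * b) = q)
    (hQ : QR Q (d ^ 2)) (hd : 8 * K ^ 330 ≤ d) :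
    QR f.range d ∧ (f.range : Set G) ⊆ (A : Set G) ^ 8 := by
  classical
  have h1 := approx_sub hA f hf
  let B : Finset H := (A ^ 2).preimage f hf.injOn
  have hB : (B : Set H) = f ⁻¹' ((A : Set G) ^ 2) := by simp [B]
  rw [← hB] at h1 hcl
  have h2 := engine h1 hcl hH π (fun q => by
    obtain ⟨a, b, ha, hb, hab⟩ := h4 q
    refine ⟨a * b, pmono h1 (by norm_num) (pmul (pone ?_) (pone ?_)), hab⟩ <;> rwa [hB])
    hQ (by rwa [← pow_mul])
  have : Finite H := Set.finite_univ_iff.1 ((B ^ 4).finite_toSet.subset fun g _ => by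
    rw [coe_pow]; exact h2 g)
  have h3 : QR H d := qr_ext hH π (fun q => by
    obtain ⟨a, b, -, -, hab⟩ := h4 q
    exact ⟨_, hab⟩) hQ
  refine ⟨fun n hn ρ q => ?_, ?_⟩
  · obtain ⟨x, rfl⟩ := f.rangeRestrict_surjective q
    exact h3 n hn (ρ.comp f.rangeRestrict) x
  · rintro _ ⟨x, rfl⟩
    have h5 := Set.mem_image_of_mem f (h2 x)
    rw [Set.image_pow, hB] at h5
    have h6 := Set.pow_subset_pow_left (Set.image_preimage_subset f _) h5
    rwa [← pow_mul] at h6

/-- A minimal good subgroup with solvable kernel. -/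
lemma exists_sub {ι : Type*} [Fintype Q] [DecidableEq Q] {π : G →* Q} {T : Finset G} {L : ℝ}
    {cov : G → ι} {I : Finset ι} (h : Data0 π T L cov I) (hg : Good π T Set.univ)
    (hs : Group.IsSolvable π.ker ∨ Data π T L cov I) :
    ∃ C : Subgroup G, commutator C = ⊤ ∧ Subgroup.closure (C.subtype ⁻¹' (T : Set G)) = ⊤ ∧
      Group.IsSolvable (π.comp C.subtype).ker ∧
      ∀ q, ∃ a b : C, (a : G) ∈ T ∧ (b : G) ∈ T ∧ π (a * b) = q := by
  classical
  obtain ⟨C, hg', hmin'⟩ := exists_min hg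
  refine ⟨C, perfect (h.sub C) hg' hmin', ?_, ?_, fun q => ?_⟩
  · obtain ⟨V, hVT, -, hV⟩ := hg'
    exact hmin' _ ⟨V, hVT, fun v hv => Subgroup.subset_closure (mem_subtype.1 (hVT hv)), hV⟩
  · rcases hs with hs | hs
    · let φ : (π.comp C.subtype).ker →* π.ker :=
        (C.subtype.comp (π.comp C.subtype).ker.subtype).codRestrict _ fun x => x.2
      exact Group.isSolvable_of_isSolvable_injective (f := φ) fun x y hxy =>
        Subtype.ext (Subtype.ext (congrArg (fun z : π.ker => (z : G)) hxy))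
    · exact Group.isSolvable_of_comm fun a b => Subtype.ext
        (Subgroup.mem_center_iff.1 (central (hs.sub C) hg' hmin' b b.2) a)
  · obtain ⟨a, ha, b, hb, hab⟩ := onto (h.sub C) hg' q
    exact ⟨a, b, mem_subtype.1 ha, mem_subtype.1 hb, hab⟩

/-- The standing hypotheses for an approximate group. -/
lemma data_of [DecidableEq G] [Fintype Q] [DecidableEq Q] {K M D : ℝ} {A : Finset G}
    (hA : IsApproximateSubgroup K (A : Set G)) (hM : 1 ≤ M) (Γ : Subgroup G)
    [DecidablePred (· ∈ Γ)] (π : Γ →* Q) (hQ : QR Q D) (hD : 8 * (9 * K ^ 14 * M) ^ 2 ≤ D)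
    (h2 : (Fintype.card Q : ℝ) ≤ M * ((A.subtype (· ∈ Γ)).image π).card) :
    ∃ (cov : Γ → G) (I : Finset G),
      Data0 π ((A ^ 2).subtype (· ∈ Γ)) (9 * K ^ 14 * M) cov I ∧
      Good π ((A ^ 2).subtype (· ∈ Γ)) Set.univ ∧
      ((A.card : ℝ) ≤ M * ((A.subtype (· ∈ Γ)).image π).card →
        Data π ((A ^ 2).subtype (· ∈ Γ)) (9 * K ^ 14 * M) cov I) := by
  classical
  have hK := hA.one_le
  set P := (A.subtype (· ∈ Γ)).image π with hP
  set T := (A ^ 2).subtype (· ∈ Γ) with hT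
  set L := 9 * K ^ 14 * M with hL
  have hTm : ∀ t : Γ, t ∈ T ↔ (t : G) ∈ (A : Set G) ^ 2 := fun t => by
    rw [hT, mem_subtype, ← mem_coe, coe_pow]
  obtain ⟨cov, I, hI, hcI, hcov⟩ := exists_cov hA 2
  have hK14 : 1 ≤ K ^ 14 := one_le_pow₀ hK
  have hL9 : 9 ≤ L := by
    have : 1 ≤ K ^ 14 * M := one_le_mul_of_one_le_of_one_le hK14 hM
    linarith
  have hPp : (0 : ℝ) < P.card := by
    exact_mod_cast card_pos.2 ⟨π 1, mem_image_of_mem _ (mem_subtype.2 hA.one_mem)⟩
  have hPQ : (P.card : ℝ) ≤ Fintype.card Q := by exact_mod_cast card_le_univ P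
  have hKL : K ^ 14 * M ≤ L := by nlinarith
  have hmix := mix_base (L := L) hQ hD
  have hD0 : Data0 π T L (fun g => cov g) I :=
    { one := (hTm _).2 (Set.one_mem_pow hA.one_mem)
      inv := fun t ht => (hTm _).2 (pinv hA ((hTm _).1 ht))
      cardI := by
        calc (I.card : ℝ) ≤ K ^ (2 + 1) := hI
          _ ≤ K ^ 14 := pow_le_pow_right₀ hK (by norm_num)
          _ ≤ K ^ 14 * M := by nlinarith
          _ ≤ L := hKL
      covI := fun a ha b hb => hcI _ (pmul ((hTm _).1 ha) ((hTm _).1 hb))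
      covT := fun a ha b hb c hc e he hx => (hTm _).2
        (hcov _ (pmul ((hTm _).1 ha) ((hTm _).1 hb)) _ (pmul ((hTm _).1 hc) ((hTm _).1 he)) hx)
      nine := hL9
      mixQ := hmix }
  refine ⟨fun g => cov g, I, hD0, ?_, fun h1 => ⟨hD0, fun J hJ => ?_, ?_⟩⟩
  · refine ⟨T, Subset.rfl, fun _ _ => trivial, (hmix P ?_).trans_le
      (Nat.mul_le_mul_left _ (card_le_card fun q hq => ?_))⟩
    · have : M ≤ L := le_trans (by nlinarith) hKL
      nlinarith
    · obtain ⟨x', hx', y, hy, rfl⟩ := mem_mul.1 hq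
      obtain ⟨x, hx, rfl⟩ := mem_inv.1 hx'
      obtain ⟨a, ha, rfl⟩ := mem_image.1 hx
      obtain ⟨b, hb, rfl⟩ := mem_image.1 hy
      exact mem_image.2 ⟨a⁻¹ * b, (hTm _).2
        (pmul (pinv hA (pone (mem_subtype.1 ha))) (pone (mem_subtype.1 hb))), by simp⟩
  · have hs : ∀ q ∈ P, ∃ a : Γ, (a : G) ∈ A ∧ π a = q := fun q hq => by
      obtain ⟨a, ha, rfl⟩ := mem_image.1 hq
      exact ⟨a, mem_subtype.1 ha, rfl⟩
    choose! s hs using hs
    have b1 : (J ×ˢ P).card ≤ (A ^ 15).card := by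
      refine card_le_card_of_injOn (fun w => ((w.1 * s w.2 : Γ) : G)) ?_ ?_
      · intro w hw
        obtain ⟨w1, w2⟩ := mem_product.1 (mem_coe.1 hw)
        have c1 := Set.mem_image_of_mem Γ.subtype (hJ _ w1).2
        rw [Set.image_pow] at c1
        have c2 : Γ.subtype '' (T : Set Γ) ⊆ (A : Set G) ^ 2 := by
          rintro _ ⟨t, ht, rfl⟩
          exact (hTm _).1 ht
        have c3 := Set.pow_subset_pow_left c2 c1
        rw [← pow_mul] at c3
        rw [coe_pow]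
        exact pmul c3 (pone (hs _ w2).1)
      · intro w hw w' hw' hww
        obtain ⟨w1, w2⟩ := mem_product.1 (mem_coe.1 hw)
        obtain ⟨w1', w2'⟩ := mem_product.1 (mem_coe.1 hw')
        have c1 : w.1 * s w.2 = w'.1 * s w'.2 := Subtype.ext hww
        have c2 := congrArg π c1
        rw [map_mul, map_mul, (hJ _ w1).1, (hJ _ w1').1, (hs _ w2).2, (hs _ w2').2, one_mul,
          one_mul] at c2
        rw [c2, mul_left_inj] at c1
        exact Prod.ext c1 c2
    have b2 : ((A ^ 15).card : ℝ) ≤ K ^ 14 * A.card := hA.card_pow_le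
    have b3 : (J.card : ℝ) * P.card ≤ L * P.card :=
      calc (J.card : ℝ) * P.card ≤ (A ^ 15).card := by
            rw [card_product] at b1; exact_mod_cast b1
        _ ≤ K ^ 14 * (M * P.card) := b2.trans (by gcongr)
        _ = K ^ 14 * M * P.card := by ring
        _ ≤ _ := by gcongr
    exact le_of_mul_le_mul_right b3 hPp
  · calc (T.card : ℝ) ≤ (A ^ 2).card := by
          rw [card_subtype]; exact_mod_cast card_filter_le _ _
      _ ≤ K ^ (2 - 1) * A.card := hA.card_pow_le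
      _ ≤ K ^ 14 * (M * Fintype.card Q) := by
          gcongr
          · norm_num
          · exact h1.trans (by gcongr)
      _ = K ^ 14 * M * Fintype.card Q := by ring
      _ ≤ _ := by gcongr

lemma const_le {K M d : ℝ} (hK : 1 ≤ K) (hM : 1 ≤ M) (hd : 32 * K ^ 330 * M ≤ d) :
    8 * (9 * K ^ 14 * M) ^ 2 ≤ d ^ 2 ∧ 8 * K ^ 330 ≤ d ∧ 32 * K ^ 14 ≤ d := by
  have h1 : K ^ 14 ≤ K ^ 330 := pow_le_pow_right₀ hK (by norm_num)
  have h2 : 0 < K ^ 14 := by positivity
  have h3 : 32 * (K ^ 14 * M) ≤ d := by nlinarith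
  have h4 : 0 < K ^ 14 * M := by positivity
  refine ⟨by nlinarith, by nlinarith, by nlinarith⟩

/-- A quasirandom subgroup in the eighth power over the base. -/
lemma exists_over [DecidableEq G] [Finite Q] {K M d : ℝ} {A : Finset G}
    (hA : IsApproximateSubgroup K (A : Set G)) (hM : 1 ≤ M) (hd : 32 * K ^ 330 * M ≤ d)
    (Γ : Subgroup G) (π : Γ →* Q) (hQ : QR Q (d ^ 2))
    (h2 : (Nat.card Q : ℝ) ≤ M * (π '' {g : Γ | (g : G) ∈ A}).ncard)
    (hs : Group.IsSolvable π.ker ∨ (A.card : ℝ) ≤ M * (π '' {g : Γ | (g : G) ∈ A}).ncard) :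
    ∃ L : Subgroup G, QR L d ∧ (L : Set G) ⊆ (A : Set G) ^ 8 ∧
      ∀ q, ∃ g : Γ, (g : G) ∈ L ∧ π g = q := by
  classical
  have := Fintype.ofFinite Q
  obtain ⟨c1, c2, -⟩ := const_le hA.one_le hM hd
  have hP : (π '' {g : Γ | (g : G) ∈ A}).ncard = ((A.subtype (· ∈ Γ)).image π).card := by
    rw [← Set.ncard_coe_finset]
    congr 1
    ext q
    simp
  rw [Nat.card_eq_fintype_card, hP] at h2
  rw [hP] at hs
  obtain ⟨cov, I, h0, hg, h1⟩ := data_of hA hM Γ π hQ c1 h2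
  obtain ⟨C, hC, hcl, hsol, hon⟩ := exists_sub h0 hg (hs.imp id h1)
  have hTm : ∀ t : Γ, t ∈ (A ^ 2).subtype (· ∈ Γ) ↔ (t : G) ∈ (A : Set G) ^ 2 := fun t => by
    rw [mem_subtype, ← mem_coe, coe_pow]
  let f : C →* G := Γ.subtype.comp C.subtype
  obtain ⟨e1, e2⟩ := engine_sub hA f (Γ.subtype_injective.comp C.subtype_injective) (by
    convert hcl using 2
    ext x
    exact (hTm _).symm) hC (π.comp C.subtype) (fun q => by
    obtain ⟨a, b, ha, hb, hab⟩ := hon q
    exact ⟨a, b, (hTm _).1 ha, (hTm _).1 hb, hab⟩) hQ c2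
  refine ⟨f.range, e1, e2, fun q => ?_⟩
  obtain ⟨a, b, -, -, hab⟩ := hon q
  exact ⟨a * b, ⟨a * b, rfl⟩, hab⟩

/-- A perfect group generated by its trace on the approximate group. -/
lemma perfect_over [DecidableEq G] [Finite Q] {K M d : ℝ} {A : Finset G}
    (hA : IsApproximateSubgroup K (A : Set G)) (hM : 1 ≤ M) (hd : 32 * K ^ 330 * M ≤ d)
    (Γ : Subgroup G) (π : Γ →* Q) (hQ : QR Q (d ^ 2))
    (h2 : (Nat.card Q : ℝ) ≤ M * (π '' {g : Γ | (g : G) ∈ A}).ncard)
    [Group.IsSolvable π.ker] (hΓ : commutator Γ = ⊤)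
    (hcl : Subgroup.closure {g : Γ | (g : G) ∈ (A : Set G) ^ 2} = ⊤) :
    QR Γ d ∧ (Γ : Set G) ⊆ (A : Set G) ^ 8 := by
  classical
  have := Fintype.ofFinite Q
  obtain ⟨c1, c2, -⟩ := const_le hA.one_le hM hd
  have hP : (π '' {g : Γ | (g : G) ∈ A}).ncard = ((A.subtype (· ∈ Γ)).image π).card := by
    rw [← Set.ncard_coe_finset]
    congr 1
    ext q
    simp
  rw [Nat.card_eq_fintype_card, hP] at h2
  obtain ⟨cov, I, h0, hg, -⟩ := data_of hA hM Γ π hQ c1 h2
  have hTm : ∀ t : Γ, t ∈ (A ^ 2).subtype (· ∈ Γ) ↔ (t : G) ∈ (A : Set G) ^ 2 := fun t => by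
    rw [mem_subtype, ← mem_coe, coe_pow]
  have := engine_sub hA Γ.subtype Γ.subtype_injective hcl hΓ π (fun q => by
    obtain ⟨a, ha, b, hb, hab⟩ := onto h0 hg q
    exact ⟨a, b, (hTm _).1 ha, (hTm _).1 hb, hab⟩) hQ c2
  rwa [Subgroup.range_subtype] at this

end Pool.Agent.Lib.MP_e18f8a_al.QB
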