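import Pool.Agent.Lib.MP_e18f8a_al.QRadA

/-!
The quasirandom radical of an approximate group.
-/

open scoped Pointwise
open Finset Module

namespace Pool.Agent.Lib.MP_e18f8a_al.QB

lemma QR.of_surj {L L' : Type*} [Group L] [Group L'] {d : ℝ} (h : QR L d) (φ : L →* L')
    (hφ : Function.Surjective φ) : QR L' d := fun n hn ρ q => by
  obtain ⟨l, rfl⟩ := hφ q
  exact h n hn (ρ.comp φ) l

lemma QR.comm_triv {L H : Type*} [Group L] [Finite L] [CommGroup H] {d : ℝ} (h : QR L d)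
    (hd : 1 < d) (f : L →* H) (l : L) : f l = 1 := by
  by_contra hne
  have : Finite f.range := Finite.of_surjective _ f.rangeRestrict_surjective
  obtain ⟨φ, hφ⟩ := CommGroup.exists_apply_ne_one_of_hasEnoughRootsOfUnity f.range ℂ
    (a := f.rangeRestrict l) fun h1 => hne (congrArg Subtype.val h1)
  let ρ : L →* Module.End ℂ ℂ :=
    ((Algebra.lmul ℂ ℂ).toRingHom.toMonoidHom.comp (Units.coeHom ℂ)).comp (φ.comp f.rangeRestrict)
  have h1 := congrArg (fun F : Module.End ℂ ℂ => F 1) (rep_triv h ρ (by simpa using hd) l)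
  exact hφ (Units.ext (by simpa [ρ] using h1))

lemma QR.sup {J : Type*} [Group J] {d : ℝ} {M₁ M₂ : Subgroup J} (h₁ : QR M₁ d) (h₂ : QR M₂ d)
    (h : M₁ ⊔ M₂ = ⊤) : QR J d := fun n hn ρ q => by
  have : ⊤ ≤ ρ.ker := h ▸ sup_le (fun l hl => h₁ n hn (ρ.comp M₁.subtype) ⟨l, hl⟩)
    fun l hl => h₂ n hn (ρ.comp M₂.subtype) ⟨l, hl⟩
  exact this (Subgroup.mem_top q)

lemma finite_of_conj {J : Type*} [Group J] {d : ℝ} (hd : 1 < d) {M₁ M₂ : Subgroup J}
    (h₁ : QR M₁ d) (h₂ : QR M₂ d) (h : M₁ ⊔ M₂ = ⊤) {S : Set J} (hS : S.Finite)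
    (hc : ∀ g l, l ∈ M₁ ∨ l ∈ M₂ → g * l * g⁻¹ ∈ S) : Finite J := by
  classical
  have f1 : Finite M₁ := (hS.subset fun l hl => by simpa using hc 1 l (Or.inl hl)).to_subtype
  have f2 : Finite M₂ := (hS.subset fun l hl => by simpa using hc 1 l (Or.inr hl)).to_subtype
  have hper : commutator J = ⊤ := by
    rw [← Abelianization.ker_of, eq_top_iff, ← h]
    exact sup_le (fun l hl => h₁.comm_triv hd (Abelianization.of.comp M₁.subtype) ⟨l, hl⟩)
      fun l hl => h₂.comm_triv hd (Abelianization.of.comp M₂.subtype) ⟨l, hl⟩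
  have := hS.to_subtype
  let f : J → (M₁ → S) × (M₂ → S) := fun g =>
    (fun l => ⟨_, hc g l (Or.inl l.2)⟩, fun l => ⟨_, hc g l (Or.inr l.2)⟩)
  have hf : ∀ g k, f g = f k → g⁻¹ * k ∈ Subgroup.center J := fun g k hgk => by
    have a : ∀ l : J, g * l * g⁻¹ = k * l * k⁻¹ → l ∈ Subgroup.centralizer {g⁻¹ * k} :=
      fun l hl => by
        rw [Subgroup.mem_centralizer_singleton_iff]
        calc l * (g⁻¹ * k) = g⁻¹ * (g * l * g⁻¹) * k := by group
          _ = _ := by rw [hl]; group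
    have b : ⊤ ≤ Subgroup.centralizer {g⁻¹ * k} := h ▸ sup_le
      (fun l hl => a l (congrArg Subtype.val (congrFun (congrArg Prod.fst hgk) ⟨l, hl⟩)))
      fun l hl => a l (congrArg Subtype.val (congrFun (congrArg Prod.snd hgk) ⟨l, hl⟩))
    exact Subgroup.mem_center_iff.2 fun x =>
      Subgroup.mem_centralizer_singleton_iff.1 (b (Subgroup.mem_top x))
  have hq : Finite (J ⧸ Subgroup.center J) :=
    Finite.of_injective (fun q => f q.out) fun q q' hq => by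
      rw [← q.out_eq', ← q'.out_eq']
      exact QuotientGroup.eq.2 (hf _ _ hq)
  have := Fintype.ofFinite (J ⧸ Subgroup.center J)
  exact finite_of (π := QuotientGroup.mk' (Subgroup.center J)) (QuotientGroup.mk'_surjective _)
    (fun z hz => (QuotientGroup.eq_one_iff z).1 hz) hper

variable {G : Type*} [Group G] [DecidableEq G] {K d : ℝ} {A : Finset G}

omit [DecidableEq G] in
lemma inv_mem_pow (hA : IsApproximateSubgroup K (A : Set G)) {m : ℕ} {x : G}
    (hx : x ∈ (A : Set G) ^ m) : x⁻¹ ∈ (A : Set G) ^ m := by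
  rw [← hA.inv_eq_self, inv_pow]
  exact Set.inv_mem_inv.2 hx

omit [DecidableEq G] in
lemma mul_mem_pow {S : Set G} {m n k : ℕ} {x y : G} (hx : x ∈ S ^ m) (hy : y ∈ S ^ n)
    (h : m + n = k) : x * y ∈ S ^ k := by
  rw [← h, pow_add]
  exact Set.mul_mem_mul hx hy

omit [DecidableEq G] in
lemma mem_pow_one {S : Set G} {x : G} (hx : x ∈ S) : x ∈ S ^ 1 := by rwa [pow_one]

lemma fin_pow (A : Finset G) (m : ℕ) : ((A : Set G) ^ m).Finite := by
  rw [← coe_pow]
  exact finite_toSet _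

/-- Colouring a power by translates. -/
lemma exists_col (hA : IsApproximateSubgroup K (A : Set G)) (m : ℕ) :
    ∃ (I : Finset G) (col : G → G), (I.card : ℝ) ≤ K ^ m ∧
      ∀ u ∈ (A : Set G) ^ (m + 1), col u ∈ I ∧ (col u)⁻¹ * u ∈ (A : Set G) := by
  obtain ⟨F, hF, hAF⟩ := hA.sq_covBySMul
  have h4 : (A : Set G) ^ (m + 1) ⊆ (F : Set G) ^ m * A :=
    Set.pow_subset_pow_mul_of_sq_subset_mul hAF (Nat.succ_ne_zero m)
  have hcov : ∀ u : G, ∃ x : G, u ∈ (A : Set G) ^ (m + 1) → x ∈ F ^ m ∧ x⁻¹ * u ∈ (A : Set G) :=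
    fun u => by
      by_cases hu : u ∈ (A : Set G) ^ (m + 1)
      · obtain ⟨x, hx, a, ha, rfl⟩ := h4 hu
        exact ⟨x, fun _ => ⟨by rwa [← coe_pow] at hx, by simpa using ha⟩⟩
      · exact ⟨1, fun h => absurd h hu⟩
  choose col hcol using hcov
  refine ⟨F ^ m, col, ?_, hcol⟩
  calc ((F ^ m).card : ℝ) ≤ (F.card : ℝ) ^ m := by exact_mod_cast card_pow_le
    _ ≤ K ^ m := by gcongr

omit [DecidableEq G] in
lemma same_col (hA : IsApproximateSubgroup K (A : Set G)) {x u v : G} (hu : x⁻¹ * u ∈ (A : Set G))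
    (hv : x⁻¹ * v ∈ (A : Set G)) : u⁻¹ * v ∈ (A : Set G) ^ 2 := by
  have := mul_mem_pow (inv_mem_pow hA (mem_pow_one hu)) (mem_pow_one hv) rfl
  convert this using 1
  group

/-- A quasirandom subgroup inside a bounded power lies in the fourth power. -/
lemma shrink (hA : IsApproximateSubgroup K (A : Set G)) (m : ℕ) (hd : 8 * (K ^ m) ^ 2 ≤ d)
    (L : Subgroup G) (hL : QR L d) (h : (L : Set G) ⊆ (A : Set G) ^ (m + 1)) :
    (L : Set G) ⊆ (A : Set G) ^ 4 := by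
  classical
  have : Finite L := ((fin_pow A _).subset h).to_subtype
  have := Fintype.ofFinite L
  obtain ⟨I, col, hI, hcol⟩ := exists_col hA m
  obtain ⟨i, hi⟩ := popular (MonoidHom.id L) univ (fun l => col l) I
    (fun l _ => (hcol l (h l.2)).1) hI (by
      have := Fintype.card_pos (α := L)
      simp only [MonoidHom.coe_id, image_id, card_univ]
      omega)
  have h2 := mix_base hL hd _ hi
  have h3 : ∀ x ∈ ((univ.filter fun l : L => col l = i).image (MonoidHom.id L))⁻¹ *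
      (univ.filter fun l : L => col l = i).image (MonoidHom.id L), (x : G) ∈ (A : Set G) ^ 2 := by
    intro x hx
    obtain ⟨u', hu', v, hv, rfl⟩ := mem_mul.1 hx
    obtain ⟨u, hu, rfl⟩ := mem_inv.1 hu'
    simp only [MonoidHom.coe_id, image_id, mem_filter, mem_univ, true_and] at hu hv
    exact same_col hA (x := i) (hu ▸ (hcol u (h u.2)).2) (hv ▸ (hcol v (h v.2)).2)
  intro l hl
  obtain ⟨a, ha, b, hb, hab⟩ := half _ h2 ⟨l, hl⟩
  rw [show l = (a : G)⁻¹ * b from congrArg Subtype.val hab]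
  exact mul_mem_pow (inv_mem_pow hA (h3 a ha)) (h3 b hb) rfl

/-- All conjugates lie in the fourth power. -/
lemma conj_mem (hA : IsApproximateSubgroup K (A : Set G)) (hd : 8 * (K ^ 5) ^ 2 ≤ d)
    (L : Subgroup G) (hL : QR L d) (h : (L : Set G) ⊆ (A : Set G) ^ 4) (g : G)
    (hg : g ∈ Subgroup.closure (A : Set G)) : ∀ l ∈ L, g * l * g⁻¹ ∈ (A : Set G) ^ 4 := by
  have key : ∀ a ∈ (A : Set G), ∀ y : G, (∀ l ∈ L, y * l * y⁻¹ ∈ (A : Set G) ^ 4) →
      ∀ l ∈ L, a * y * l * (a * y)⁻¹ ∈ (A : Set G) ^ 4 := fun a ha y hy l hl => by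
    refine shrink hA 5 hd (L.map (MulAut.conj (a * y)).toMonoidHom)
      (hL.of_surj _ (MonoidHom.subgroupMap_surjective _ L)) ?_ ⟨l, hl, rfl⟩
    rintro _ ⟨k, hk, rfl⟩
    have := mul_mem_pow (mul_mem_pow (mem_pow_one ha) (hy k hk) rfl)
      (inv_mem_pow hA (mem_pow_one ha)) rfl
    convert this using 1
    simp [mul_assoc]
  induction hg using Subgroup.closure_induction_left with
  | one => exact fun l hl => by simpa using h hl
  | mul_left x hx y _ hy => exact key x hx y hy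
  | inv_mul_cancel x hx y _ hy =>
    exact key x⁻¹ (by simpa using inv_mem_pow hA (mem_pow_one hx)) y hy

lemma card_sub (hA : IsApproximateSubgroup K (A : Set G)) (m : ℕ) (J : Subgroup G)
    (B Z : Finset J) (hB : ∀ x : J, (x : G) ∈ (A : Set G) ^ 2 → x ∈ B)
    (hZ : ∀ z ∈ Z, (z : G) ∈ (A : Set G) ^ (m + 1)) : (Z.card : ℝ) ≤ K ^ m * B.card := by
  obtain ⟨I, col, hI, hcol⟩ := exists_col hA m
  have h1 : Z.card ≤ B.card * I.card := by
    refine card_le_mul_card_image_of_maps_to (f := fun z : J => col z)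
      (fun z hz => (hcol z (hZ z hz)).1) _ fun i _ => ?_
    rcases (Z.filter fun z : J => col z = i).eq_empty_or_nonempty with h0 | ⟨u, hu⟩
    · simp [h0]
    · refine card_le_card_of_injOn (fun z => u⁻¹ * z) (fun z hz => hB _ ?_)
        (mul_right_injective _).injOn
      obtain ⟨u1, u2⟩ := mem_filter.1 hu
      obtain ⟨z1, z2⟩ := mem_filter.1 (mem_coe.1 hz)
      exact same_col hA (x := i) (u2 ▸ (hcol u (hZ u u1)).2) (z2 ▸ (hcol z (hZ z z1)).2)
  calc (Z.card : ℝ) ≤ B.card * I.card := by exact_mod_cast h1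
    _ ≤ B.card * K ^ m := by gcongr
    _ = _ := mul_comm _ _

omit [DecidableEq G] in
lemma pow_sub_closure (m : ℕ) : (A : Set G) ^ m ⊆ Subgroup.closure (A : Set G) := by
  induction m with
  | zero => simp
  | succ m ih =>
    rw [pow_succ]
    rintro _ ⟨x, hx, y, hy, rfl⟩
    exact mul_mem (ih hx) (Subgroup.subset_closure hy)

/-- The join of two quasirandom subgroups inside the fourth power. -/
lemma join (hA : IsApproximateSubgroup K (A : Set G)) (hd : 128 * K ^ 14 ≤ d)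
    (L₁ L₂ : Subgroup G) (h₁ : QR L₁ d) (h₂ : QR L₂ d) (s₁ : (L₁ : Set G) ⊆ (A : Set G) ^ 4)
    (s₂ : (L₂ : Set G) ⊆ (A : Set G) ^ 4) :
    QR (L₁ ⊔ L₂ : Subgroup G) d ∧ ((L₁ ⊔ L₂ : Subgroup G) : Set G) ⊆ (A : Set G) ^ 4 := by
  classical
  have hK := hA.one_le
  have k14 : 1 ≤ K ^ 14 := one_le_pow₀ hK
  have k10 : K ^ 10 ≤ K ^ 14 := pow_le_pow_right₀ hK (by norm_num)
  have k8 : K ^ 8 ≤ K ^ 14 := pow_le_pow_right₀ hK (by norm_num)
  set J := L₁ ⊔ L₂ with hJ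
  have q₁ : QR (L₁.subgroupOf J) d :=
    h₁.of_surj (Subgroup.subgroupOfEquivOfLe le_sup_left).symm.toMonoidHom (MulEquiv.surjective _)
  have q₂ : QR (L₂.subgroupOf J) d :=
    h₂.of_surj (Subgroup.subgroupOfEquivOfLe le_sup_right).symm.toMonoidHom (MulEquiv.surjective _)
  have hsup : L₁.subgroupOf J ⊔ L₂.subgroupOf J = ⊤ := by
    rw [← Subgroup.subgroupOf_sup le_sup_left le_sup_right, Subgroup.subgroupOf_self]
  have qJ : QR J d := q₁.sup q₂ hsup
  have hcl : J ≤ Subgroup.closure (A : Set G) :=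
    sup_le (fun l hl => pow_sub_closure 4 (s₁ hl)) fun l hl => pow_sub_closure 4 (s₂ hl)
  have hd5 : 8 * (K ^ 5) ^ 2 ≤ d := by nlinarith
  have hc : ∀ g l : J, l ∈ L₁.subgroupOf J ∨ l ∈ L₂.subgroupOf J →
      ((g * l * g⁻¹ : J) : G) ∈ (A : Set G) ^ 4 := fun g l hl =>
    hl.elim (conj_mem hA hd5 L₁ h₁ s₁ g (hcl g.2) l) (conj_mem hA hd5 L₂ h₂ s₂ g (hcl g.2) l)
  have : Finite J := finite_of_conj (by linarith) q₁ q₂ hsup
    (S := {x : J | (x : G) ∈ (A : Set G) ^ 4})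
    ((fin_pow A 4).preimage Subtype.val_injective.injOn) hc
  have := Fintype.ofFinite J
  let B : Finset J := univ.filter fun x => (x : G) ∈ (A : Set G) ^ 2
  let Y : Finset J := univ.filter fun x => (x : G) ∈ (A : Set G) ^ 6
  have hB : ∀ x : J, (x : G) ∈ (A : Set G) ^ 2 → x ∈ B := fun x hx => mem_filter.2 ⟨mem_univ _, hx⟩
  have hF : ∀ z ∈ B⁻¹ * B, (z : G) ∈ (A : Set G) ^ 4 := fun z hz => by
    obtain ⟨u', hu', v, hv, rfl⟩ := mem_mul.1 hz
    obtain ⟨u, hu, rfl⟩ := mem_inv.1 hu'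
    exact mul_mem_pow (inv_mem_pow hA (mem_filter.1 hu).2) (mem_filter.1 hv).2 rfl
  have c1 := card_sub hA 5 J B Y hB fun z hz => (mem_filter.1 hz).2
  have c2 := card_sub hA 3 J B (B⁻¹ * B) hB hF
  have hBn : B.Nonempty := ⟨1, hB 1 (Set.one_mem_pow hA.one_mem)⟩
  have hBp : (0 : ℝ) < B.card := by exact_mod_cast hBn.card_pos
  have h1 := large_of_gap B (d := d) (κ := 16 * Y.card) (by linarith) (by positivity)
    (gap (by linarith) q₁ q₂ hsup B Y fun g l hl b hb =>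
      mem_filter.2 ⟨mem_univ _, mul_mem_pow (hc g l hl) (mem_filter.1 hb).2 rfl⟩) hBn (by
      calc 4 * ((B⁻¹ * B).card : ℝ) * (16 * Y.card)
          ≤ 4 * (K ^ 3 * B.card) * (16 * (K ^ 5 * B.card)) := by gcongr
        _ = 64 * K ^ 8 * (B.card : ℝ) ^ 2 := by ring
        _ < _ := by gcongr; linarith)
  refine ⟨qJ, shrink hA 7 (by nlinarith) J qJ fun l hl => ?_⟩
  obtain ⟨a, ha, b, hb, hab⟩ := half _ h1 ⟨l, hl⟩
  rw [show l = (a : G)⁻¹ * b from congrArg Subtype.val hab]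
  exact mul_mem_pow (inv_mem_pow hA (hF a ha)) (hF b hb) rfl

/-- The quasirandom radical. -/
theorem radical (hA : IsApproximateSubgroup K (A : Set G)) (hd : 128 * K ^ 14 ≤ d) :
    ∃ P : Subgroup G, QR P d ∧ (P : Set G) ⊆ (A : Set G) ^ 4 ∧
      (∀ g ∈ Subgroup.closure (A : Set G), ∀ p ∈ P, g * p * g⁻¹ ∈ P) ∧
      ∀ L : Subgroup G, QR L d → (L : Set G) ⊆ (A : Set G) ^ 8 → L ≤ P := by
  classical
  have hK := hA.one_le
  have k14 : 1 ≤ K ^ 14 := one_le_pow₀ hK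
  have k10 : K ^ 10 ≤ K ^ 14 := pow_le_pow_right₀ hK (by norm_num)
  obtain ⟨P, ⟨hP, sP⟩, hmin⟩ :=
    (measure fun L : Subgroup G => ((A ^ 4).filter (· ∉ L)).card).wf.has_min
      {L | QR L d ∧ (L : Set G) ⊆ (A : Set G) ^ 4}
      ⟨⊥, fun n _ ρ q => by rw [Subsingleton.elim q 1, map_one], by
        simpa using Set.one_mem_pow hA.one_mem⟩
  have hmax : ∀ L : Subgroup G, QR L d → (L : Set G) ⊆ (A : Set G) ^ 4 → L ≤ P := by
    intro L hL sL l hl
    by_contra hn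
    refine hmin (P ⊔ L) (join hA hd P L hP hL sP sL) (card_lt_card ⟨fun x hx => ?_, fun hx => ?_⟩)
    · exact mem_filter.2 ⟨(mem_filter.1 hx).1, fun h => (mem_filter.1 hx).2
        (Subgroup.mem_sup_left h)⟩
    · refine (mem_filter.1 (hx (mem_filter.2 ⟨?_, hn⟩))).2 (Subgroup.mem_sup_right hl)
      rw [← mem_coe, coe_pow]
      exact sL hl
  refine ⟨P, hP, sP, fun g hg p hp => ?_, fun L hL sL =>
    hmax L hL (shrink hA 7 (by nlinarith) L hL sL)⟩
  refine hmax (P.map (MulAut.conj g).toMonoidHom)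
    (hP.of_surj _ (MonoidHom.subgroupMap_surjective _ P)) ?_ ⟨p, hp, rfl⟩
  rintro _ ⟨k, hk, rfl⟩
  exact conj_mem hA (by nlinarith) P hP sP g hg k hk

end Pool.Agent.Lib.MP_e18f8a_al.QB
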