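import Pool.Agent.Lib.MP_e18f8a_al.QUni
import Pool.Agent.Lib.MP_e18f8a_al.QRad

/-!
A minimal good group is finite, whatever the kernel.
-/

open scoped Pointwise commutatorElement
open Finset Module

namespace Pool.Agent.Lib.MP_e18f8a_al.QB

variable {G Q : Type*} [Group G] [Group Q]

/-- The elements with a finite conjugacy class. -/
def fcC (H : Type*) [Group H] : Subgroup H where
  carrier := {x | (Subgroup.centralizer {x}).FiniteIndex}
  one_mem' := by
    change (Subgroup.centralizer {(1 : H)}).FiniteIndex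
    rw [show Subgroup.centralizer {(1 : H)} = ⊤ from eq_top_iff.2 fun g _ =>
      Subgroup.mem_centralizer_singleton_iff.2 (by simp)]
    infer_instance
  mul_mem' := fun {a b} ha hb => by
    have ha' : (Subgroup.centralizer {a}).FiniteIndex := ha
    have hb' : (Subgroup.centralizer {b}).FiniteIndex := hb
    refine Subgroup.finiteIndex_of_le (H := Subgroup.centralizer {a} ⊓ Subgroup.centralizer {b})
      fun g hg => ?_
    have h1 := Subgroup.mem_centralizer_singleton_iff.1 hg.1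
    have h2 := Subgroup.mem_centralizer_singleton_iff.1 hg.2
    rw [Subgroup.mem_centralizer_singleton_iff, ← mul_assoc, h1, mul_assoc, h2, mul_assoc]
  inv_mem' := fun {a} ha => by
    have ha' : (Subgroup.centralizer {a}).FiniteIndex := ha
    refine Subgroup.finiteIndex_of_le (H := Subgroup.centralizer {a}) fun g hg => ?_
    have h1 := Subgroup.mem_centralizer_singleton_iff.1 hg
    rw [Subgroup.mem_centralizer_singleton_iff]
    calc g * a⁻¹ = a⁻¹ * (a * g) * a⁻¹ := by group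
      _ = _ := by rw [← h1]; group

section

variable [DecidableEq G] [Fintype Q] [DecidableEq Q] {H ι : Type*} [Group H] {K L : ℝ}
  {A : Finset G} {π : H →* Q} {T : Finset H} {cov : H → ι} {I : Finset ι}

/-- The trace meets each of its conjugates in a good set. -/
lemma good_conj (hA : IsApproximateSubgroup K (A : Set G)) (f : H →* G)
    (hT : ∀ t, t ∈ T ↔ f t ∈ (A : Set G) ^ 2) (h : Data0 π T L cov I) (hL : K ^ 4 ≤ L)
    (hg : Good π T Set.univ) (hcl : Subgroup.closure (T : Set H) = ⊤) (w : H) :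
    Good π T {t | w * t * w⁻¹ ∈ T} := by
  classical
  obtain ⟨I₁, c₁, hI₁, hc₁⟩ := exists_col hA 1
  obtain ⟨I₃, c₃, hI₃, hc₃⟩ := exists_col hA 3
  have hK := hA.one_le
  have key : ∀ a ∈ T, ∀ y : H, Good π T {t | y * t * y⁻¹ ∈ T} →
      Good π T {t | a * y * t * (a * y)⁻¹ ∈ T} := by
    rintro a ha y ⟨V, hVT, hVU, hV⟩
    have m4 : ∀ v ∈ V, f (y * v * y⁻¹ * a⁻¹) ∈ (A : Set G) ^ (3 + 1) := fun v hv => by
      rw [map_mul]
      exact mul_mem_pow ((hT _).1 (hVU v hv)) ((hT _).1 (h.inv a ha)) rfl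
    obtain ⟨V', hV', hc⟩ := step π h.mixQ V (fun v => (c₁ (f v), c₃ (f (y * v * y⁻¹ * a⁻¹))))
      (I₁ ×ˢ I₃) (fun v hv => mem_product.2 ⟨(hc₁ _ ((hT _).1 (hVT hv))).1, (hc₃ _ (m4 v hv)).1⟩)
      (by
        rw [card_product, Nat.cast_mul]
        calc (I₁.card : ℝ) * I₃.card ≤ K ^ 1 * K ^ 3 := by gcongr
          _ = K ^ 4 := by ring
          _ ≤ L := hL) hV
    refine ⟨V', fun x hx => ?_, fun x hx => ?_, hc⟩
    · obtain ⟨u, hu, v, hv, huv, rfl⟩ := hV' x hx
      have e : c₁ (f u) = c₁ (f v) := congrArg Prod.fst huv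
      rw [hT, map_mul, map_inv]
      exact same_col hA (hc₁ _ ((hT _).1 (hVT hu))).2 (e ▸ (hc₁ _ ((hT _).1 (hVT hv))).2)
    · obtain ⟨u, hu, v, hv, huv, rfl⟩ := hV' x hx
      have e : c₃ (f (y * u * y⁻¹ * a⁻¹)) = c₃ (f (y * v * y⁻¹ * a⁻¹)) := congrArg Prod.snd huv
      have := same_col hA (hc₃ _ (m4 u hu)).2 (e ▸ (hc₃ _ (m4 v hv)).2)
      rw [← map_inv, ← map_mul, ← hT] at this
      change a * y * (u⁻¹ * v) * (a * y)⁻¹ ∈ T
      convert this using 1
      group
  have hw : w ∈ Subgroup.closure (T : Set H) := hcl ▸ Subgroup.mem_top w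
  induction hw using Subgroup.closure_induction_left with
  | one =>
    obtain ⟨V, hVT, -, hV⟩ := hg
    exact ⟨V, hVT, fun v hv => by simpa using hVT hv, hV⟩
  | mul_left x hx y _ hy => exact key x hx y hy
  | inv_mul_cancel x hx y _ hy => exact key x⁻¹ (h.inv x hx) y hy

/-- The elements with finite conjugacy class form a good subgroup. -/
lemma good_fc (hA : IsApproximateSubgroup K (A : Set G)) (f : H →* G)
    (hT : ∀ t, t ∈ T ↔ f t ∈ (A : Set G) ^ 2) (h : Data0 π T L cov I) (hL : K ^ 4 ≤ L)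
    (hg : Good π T Set.univ) (hcl : Subgroup.closure (T : Set H) = ⊤) : Good π T (fcC H) := by
  classical
  by_contra hn
  let s : Finset (H × H) := ((T.filter (· ∉ fcC H)) ×ˢ T).filter fun p => ∃ w, w * p.1 * w⁻¹ = p.2
  have hs : ∀ p : H × H, ∃ w, p ∈ s → w * p.1 * w⁻¹ = p.2 := fun p => by
    by_cases hp : p ∈ s
    · obtain ⟨w, hw⟩ := (mem_filter.1 hp).2
      exact ⟨w, fun _ => hw⟩
    · exact ⟨1, fun h => absurd h hp⟩
  choose g hg' using hs
  have hcov : ⋃ p ∈ s, g p • (Subgroup.centralizer {p.1} : Set H) = Set.univ := by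
    refine Set.eq_univ_of_forall fun w => ?_
    obtain ⟨V, hVT, hVU, hV⟩ := good_conj hA f hT h hL hg hcl w
    obtain ⟨t, ht, ht'⟩ : ∃ t ∈ V, t ∉ fcC H := by
      by_contra hc
      push Not at hc
      exact hn ⟨V, hVT, hc, hV⟩
    have hp : (t, w * t * w⁻¹) ∈ s :=
      mem_filter.2 ⟨mem_product.2 ⟨mem_filter.2 ⟨hVT ht, ht'⟩, hVU t ht⟩, w, rfl⟩
    refine Set.mem_iUnion₂.2 ⟨_, hp, (g (t, w * t * w⁻¹))⁻¹ * w, ?_, by simp⟩
    have e : g (t, w * t * w⁻¹) * t * (g (t, w * t * w⁻¹))⁻¹ = w * t * w⁻¹ := hg' _ hp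
    generalize g (t, w * t * w⁻¹) = k at e
    rw [SetLike.mem_coe, Subgroup.mem_centralizer_singleton_iff]
    calc k⁻¹ * w * t = k⁻¹ * (w * t * w⁻¹) * w := by group
      _ = _ := by rw [← e]; group
  obtain ⟨p, hp, hfi⟩ := Subgroup.exists_finiteIndex_of_leftCoset_cover hcov
  exact (mem_filter.1 (mem_product.1 (mem_filter.1 hp).1).1).2 hfi

/-- A minimal good group is finite. -/
lemma min_finite (hA : IsApproximateSubgroup K (A : Set G)) (f : H →* G)
    (hT : ∀ t, t ∈ T ↔ f t ∈ (A : Set G) ^ 2) (h : Data0 π T L cov I) (hL : K ^ 4 ≤ L)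
    (hg : Good π T Set.univ) (hmin : ∀ C : Subgroup H, Good π T C → C = ⊤) : Finite H := by
  classical
  have hcl : Subgroup.closure (T : Set H) = ⊤ := by
    obtain ⟨V, hVT, -, hV⟩ := hg
    exact hmin _ ⟨V, hVT, fun v hv => Subgroup.subset_closure (hVT hv), hV⟩
  have hfc := hmin _ (good_fc hA f hT h hL hg hcl)
  have h1 : (⨅ t ∈ T, Subgroup.centralizer {t} : Subgroup H).FiniteIndex :=
    Subgroup.finiteIndex_iInf' _ fun t _ => show t ∈ fcC H from hfc ▸ Subgroup.mem_top t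
  have h2 : (Subgroup.center H).FiniteIndex := by
    refine Subgroup.finiteIndex_of_le (H := ⨅ t ∈ T, Subgroup.centralizer {t}) fun z hz => ?_
    have a : Subgroup.closure (T : Set H) ≤ Subgroup.centralizer {z} :=
      (Subgroup.closure_le _).2 fun t ht => Subgroup.mem_centralizer_singleton_iff.2
        (Subgroup.mem_centralizer_singleton_iff.1
          (Subgroup.mem_iInf.1 (Subgroup.mem_iInf.1 hz t) ht)).symm
    exact Subgroup.mem_center_iff.2 fun x =>
      Subgroup.mem_centralizer_singleton_iff.1 (a (hcl ▸ Subgroup.mem_top x))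
  have := Fintype.ofFinite (H ⧸ Subgroup.center H)
  exact finite_of (π := QuotientGroup.mk' (Subgroup.center H)) (QuotientGroup.mk'_surjective _)
    (fun z hz => (QuotientGroup.eq_one_iff z).1 hz) (perfect h hg hmin)

lemma exists_sub_fin (hA : IsApproximateSubgroup K (A : Set G)) (f : H →* G)
    (_hf : Function.Injective f)
    (hT : ∀ t, t ∈ T ↔ f t ∈ (A : Set G) ^ 2) (h : Data0 π T L cov I) (hL : K ^ 4 ≤ L)
    (hg : Good π T Set.univ) :
    ∃ C : Subgroup H, Finite C ∧ commutator C = ⊤ ∧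
      Subgroup.closure (C.subtype ⁻¹' (T : Set H)) = ⊤ ∧
      ∀ q, ∃ a b : C, (a : H) ∈ T ∧ (b : H) ∈ T ∧ π (a * b) = q := by
  classical
  obtain ⟨C, hg', hmin'⟩ := exists_min hg
  refine ⟨C, min_finite hA (f.comp C.subtype) (fun t => mem_subtype.trans (hT t)) (h.sub C) hL hg'
    hmin', perfect (h.sub C) hg' hmin', ?_, fun q => ?_⟩
  · obtain ⟨V, hVT, -, hV⟩ := hg'
    exact hmin' _ ⟨V, hVT, fun v hv => Subgroup.subset_closure (mem_subtype.1 (hVT hv)), hV⟩
  · obtain ⟨a, ha, b, hb, hab⟩ := onto (h.sub C) hg' q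
    exact ⟨a, b, mem_subtype.1 ha, mem_subtype.1 hb, hab⟩

end

/-- Kernels whose finite subgroups are solvable, by small fibres. -/
lemma exists_over_fin [DecidableEq G] [Finite Q] {K M d : ℝ} {A : Finset G}
    (hA : IsApproximateSubgroup K (A : Set G)) (hM : 1 ≤ M) (hd : 64 * K ^ 330 * M ≤ d)
    (Γ : Subgroup G) (π : Γ →* Q) (hQ : QR Q (d ^ 2))
    (h2 : (Nat.card Q : ℝ) ≤ M * (π '' {g : Γ | (g : G) ∈ A}).ncard)
    (N : Subgroup Γ) [N.Normal]
    (hNs : ∀ F : Subgroup Γ, F ≤ N → Finite F → Group.IsSolvable F) (hN : N ≤ π.ker)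
    (h3 : ((QuotientGroup.mk' N '' {g : Γ | (g : G) ∈ (A : Set G) ^ 2}).ncard : ℝ) ≤
      M * Nat.card Q) :
    ∃ L : Subgroup G, QR L d ∧ (L : Set G) ⊆ (A : Set G) ^ 8 ∧
      ∀ q, ∃ g : Γ, (g : G) ∈ L ∧ π g = q := by
  classical
  have := Fintype.ofFinite Q
  have hK := hA.one_le
  have hKM : 0 < K ^ 330 * M := by positivity
  obtain ⟨c1, c2, -⟩ := const_le hK hM (d := d) (by nlinarith)
  have hP : (π '' {g : Γ | (g : G) ∈ A}).ncard = ((A.subtype (· ∈ Γ)).image π).card := by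
    rw [← Set.ncard_coe_finset]
    congr 1
    ext q
    simp
  rw [Nat.card_eq_fintype_card, hP] at h2
  obtain ⟨cov, I, h0, hg, -⟩ := data_of hA hM Γ π hQ c1 h2
  set T := (A ^ 2).subtype (· ∈ Γ) with hT
  have hTm : ∀ t : Γ, t ∈ T ↔ (t : G) ∈ (A : Set G) ^ 2 := fun t => by
    rw [hT, mem_subtype, ← mem_coe, coe_pow]
  have hTs : (T : Set Γ) = Γ.subtype ⁻¹' ((A : Set G) ^ 2) := Set.ext hTm
  let mk := QuotientGroup.mk' N
  let π' : Γ ⧸ N →* Q := QuotientGroup.lift N π hN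
  have hB : IsApproximateSubgroup (K ^ 3) (T.image mk : Set (Γ ⧸ N)) := by
    rw [coe_image, hTs]
    exact (approx_sub hA Γ.subtype Γ.subtype_injective).image mk
  have hc : (Fintype.card Q : ℝ) ≤ 2 *
      (((T.image mk).subtype (· ∈ (⊤ : Subgroup (Γ ⧸ N)))).image (π'.comp (Subgroup.subtype ⊤))).card := by
    obtain ⟨V, hVT, -, hV⟩ := hg
    have : V.image π ⊆ ((T.image mk).subtype (· ∈ (⊤ : Subgroup (Γ ⧸ N)))).image
        (π'.comp (Subgroup.subtype ⊤)) := fun q hq => by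
      obtain ⟨v, hv, rfl⟩ := mem_image.1 hq
      exact mem_image.2 ⟨⟨mk v, trivial⟩, mem_subtype.2 (mem_image_of_mem _ (hVT hv)), rfl⟩
    exact_mod_cast hV.le.trans (Nat.mul_le_mul_left _ (card_le_card this))
  have h42 : K ^ 42 ≤ K ^ 330 := pow_le_pow_right₀ hK (by norm_num)
  obtain ⟨cov', I', h0', hg', h1'⟩ := data_of (M := 2 * M) hB (by linarith) ⊤
    (π'.comp (Subgroup.subtype ⊤)) hQ (by
      have a1 : 64 * (K ^ 42 * M) ≤ d := by nlinarith
      have a2 : 0 < K ^ 42 * M := by positivity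
      have a3 : (64 * (K ^ 42 * M)) ^ 2 ≤ d ^ 2 := by gcongr
      have a4 : 8 * (9 * (K ^ 3) ^ 14 * (2 * M)) ^ 2 = 2592 * (K ^ 42 * M) ^ 2 := by ring
      nlinarith) (hc.trans (by gcongr; linarith))
  obtain ⟨C, -, -, hsol, hon⟩ := exists_sub h0' hg' (Or.inr (h1' (by
    have : ((T.image mk).card : ℝ) ≤ M * Fintype.card Q := by
      rw [← Nat.card_eq_fintype_card, ← Set.ncard_coe_finset, coe_image, hTs]
      exact h3
    nlinarith)))
  let Γ₁ := (C.map (Subgroup.subtype ⊤)).comap mk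
  obtain ⟨L, e1, e2, e3⟩ : ∃ L : Subgroup G, QR L d ∧ (L : Set G) ⊆ (A : Set G) ^ 8 ∧
      ∀ q, ∃ g : Γ₁, ((g : Γ) : G) ∈ L ∧ π g = q := by
    have hl : ∀ q, ∃ g ∈ Γ₁, π g = q ∧ g ∈ (T : Set Γ) ^ 4 := fun q => by
      obtain ⟨a, b, ha, hb, hab⟩ := hon q
      have a1 := pmul (m := 2) (n := 2) (S := (T.image mk : Set (Γ ⧸ N)))
        (by rw [← coe_pow]; exact mem_subtype.1 ha) (by rw [← coe_pow]; exact mem_subtype.1 hb)
      rw [coe_image, ← Set.image_pow] at a1
      obtain ⟨g, hg, hgm⟩ := a1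
      refine ⟨g, ⟨(a * b : C), (a * b).2, hgm.symm⟩, ?_, hg⟩
      rw [← hab]
      exact congrArg π' hgm
    choose s hs1' hs2 hs3 using hl
    obtain ⟨cov₂, I₂, hI₂, hcI₂, hcov₂⟩ := exists_cov hA 6
    have hs8 : ∀ q, (s q : G) ∈ (A : Set G) ^ 8 := fun q => by
      have a1 := Set.mem_image_of_mem Γ.subtype (hs3 q)
      rw [Set.image_pow, hTs] at a1
      have a2 := Set.pow_subset_pow_left (Set.image_preimage_subset _ _) a1
      rwa [← pow_mul] at a2
    obtain ⟨V', hV', hcard⟩ := step π h0.mixQ (univ.image s) (fun g => cov₂ g) I₂ (fun v hv => by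
      obtain ⟨q, -, rfl⟩ := mem_image.1 hv
      exact hcI₂ _ (hs8 q)) (hI₂.trans (by
        have a1 : K ^ (6 + 1) ≤ K ^ 14 := pow_le_pow_right₀ hK (by norm_num)
        have a2 : 0 < K ^ 14 := by positivity
        nlinarith)) (by
      have a1 : (univ.image s).image π = univ := by
        rw [image_image]
        exact image_univ_of_surjective fun q => ⟨q, hs2 q⟩
      have := Fintype.card_pos (α := Q)
      rw [a1, card_univ]
      omega)
    have hg1 : Good (π.comp Γ₁.subtype) (T.subtype (· ∈ Γ₁)) Set.univ := by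
      refine ⟨_, Subset.rfl, fun _ _ => trivial, hcard.trans_le
        (Nat.mul_le_mul_left _ (card_le_card fun q hq => ?_))⟩
      obtain ⟨w, hw, rfl⟩ := mem_image.1 hq
      obtain ⟨a, ha, b, hb, hab, rfl⟩ := hV' w hw
      obtain ⟨x, -, rfl⟩ := mem_image.1 ha
      obtain ⟨y, -, rfl⟩ := mem_image.1 hb
      exact mem_image.2 ⟨⟨_, mul_mem (inv_mem (hs1' x)) (hs1' y)⟩,
        mem_subtype.2 ((hTm _).2 (hcov₂ _ (hs8 x) _ (hs8 y) hab)), rfl⟩
    have hTm₁ : ∀ t : Γ₁, t ∈ T.subtype (· ∈ Γ₁) ↔ ((t : Γ) : G) ∈ (A : Set G) ^ 2 := fun t => by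
      rw [mem_subtype, hTm]
    obtain ⟨C₁, hfin, hC, hcl, hon₁⟩ := exists_sub_fin hA (Γ.subtype.comp Γ₁.subtype)
      (Γ.subtype_injective.comp Γ₁.subtype_injective) hTm₁ (h0.sub Γ₁) (by
        have a1 : K ^ 4 ≤ K ^ 14 := pow_le_pow_right₀ hK (by norm_num)
        have a2 : 0 < K ^ 14 := by positivity
        nlinarith) hg1
    have hsol₁ : Group.IsSolvable ((π.comp Γ₁.subtype).comp C₁.subtype).ker := by
      let ψ : ((π'.comp (Subgroup.subtype ⊤)).comp C.subtype).ker →* Γ ⧸ N :=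
        ((Subgroup.subtype ⊤).comp C.subtype).comp (Subgroup.subtype _)
      have : Group.IsSolvable ψ.range := Group.isSolvable_of_surjective ψ.rangeRestrict_surjective
      let φ : ((π.comp Γ₁.subtype).comp C₁.subtype).ker →* ψ.range :=
        (((mk.comp Γ₁.subtype).comp C₁.subtype).comp (Subgroup.subtype _)).codRestrict _ fun x => by
          obtain ⟨c, hc, hcx⟩ := x.1.1.2
          refine ⟨⟨⟨c, hc⟩, ?_⟩, hcx⟩
          change π' (c : Γ ⧸ N) = 1
          rw [show (c : Γ ⧸ N) = mk x.1.1 from hcx]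
          exact x.2
      let θ : φ.ker →* Γ :=
        ((Γ₁.subtype.comp C₁.subtype).comp (Subgroup.subtype _)).comp φ.ker.subtype
      have : Group.IsSolvable θ.range := hNs _ (by
        rintro _ ⟨x, rfl⟩
        exact (QuotientGroup.eq_one_iff _).1 (congrArg Subtype.val x.2))
        (Finite.of_surjective _ θ.rangeRestrict_surjective)
      have : Group.IsSolvable φ.ker := Group.isSolvable_of_isSolvable_injective
        (f := θ.rangeRestrict) fun x y h => Subtype.ext (Subtype.ext (Subtype.ext (Subtype.ext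
          (congrArg (fun z : θ.range => (z : Γ)) h))))
      exact Group.isSolvable_of_ker_le_range φ.ker.subtype φ (by simp)
    let f : C₁ →* G := (Γ.subtype.comp Γ₁.subtype).comp C₁.subtype
    obtain ⟨e1, e2⟩ := engine_sub hA f
      ((Γ.subtype_injective.comp Γ₁.subtype_injective).comp C₁.subtype_injective) (by
      convert hcl using 2
      ext x
      exact (hTm₁ _).symm) hC ((π.comp Γ₁.subtype).comp C₁.subtype) (fun q => by
      obtain ⟨a, b, ha, hb, hab⟩ := hon₁ q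
      exact ⟨a, b, (hTm₁ _).1 ha, (hTm₁ _).1 hb, hab⟩) hQ c2
    refine ⟨f.range, e1, e2, fun q => ?_⟩
    obtain ⟨a, b, -, -, hab⟩ := hon₁ q
    exact ⟨a * b, ⟨a * b, rfl⟩, hab⟩
  refine ⟨L, e1, e2, fun q => ?_⟩
  obtain ⟨g, hg1, hg2⟩ := e3 q
  exact ⟨g, hg1, hg2⟩

end Pool.Agent.Lib.MP_e18f8a_al.QB
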