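import Mathlib

/-!
Relative mixing in a central extension of a quasirandom group.
-/

open scoped Pointwise
open Finset Module

namespace Pool.Agent.Lib.MP_e18f8a_al.QB

/-- A representation of small dimension of a quasirandom group is trivial. -/
lemma rep_triv {Q : Type*} [Group Q] {D : ℝ}
    (hQ : ∀ n : ℕ, (n : ℝ) < D → ∀ ρ : Q →* GL (Fin n) ℂ, ∀ q, ρ q = 1)
    {W : Type*} [AddCommGroup W] [Module ℂ W] [FiniteDimensional ℂ W]
    (ρ : Q →* Module.End ℂ W) (hW : (finrank ℂ W : ℝ) < D) (q : Q) : ρ q = 1 := by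
  classical
  let e := LinearMap.toMatrixAlgEquiv (Module.finBasis ℂ W)
  let σ : Q →* Matrix (Fin (finrank ℂ W)) (Fin (finrank ℂ W)) ℂ :=
    (e.toMulEquiv.toMonoidHom).comp ρ
  have h := hQ _ hW σ.toHomUnits q
  have h2 : σ q = 1 := by
    have := congrArg Units.val h
    simpa using this
  apply e.injective
  rw [map_one]
  exact h2

/-- The same for a perfect central extension, for representations with central scalars. -/
lemma rep_triv_ext {Q C : Type*} [Group Q] [Group C] {d : ℝ}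
    (hQ : ∀ n : ℕ, (n : ℝ) < d ^ 2 → ∀ ρ : Q →* GL (Fin n) ℂ, ∀ q, ρ q = 1)
    (p : C →* Q) (hp : Function.Surjective p) (hC : commutator C = ⊤)
    {W : Type*} [AddCommGroup W] [Module ℂ W] [FiniteDimensional ℂ W]
    (ρ : C →* Module.End ℂ W) (hW : (finrank ℂ W : ℝ) < d)
    (hZ : ∀ z, p z = 1 → ∃ μ : ℂ, ∀ v, ρ z v = μ • v) (g : C) : ρ g = 1 := by
  let Ad : C →* Module.End ℂ (Module.End ℂ W) :=
    { toFun := fun g => (LinearMap.mulLeft ℂ (ρ g)).comp (LinearMap.mulRight ℂ (ρ g⁻¹))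
      map_one' := by ext φ v; simp
      map_mul' := fun a b => by ext φ v; simp }
  have hAd : ∀ g φ, Ad g φ = ρ g * (φ * ρ g⁻¹) := fun g φ => rfl
  have h1 : ∀ z, p z = 1 → Ad z = 1 := by
    intro z hz
    obtain ⟨μ, hμ⟩ := hZ z hz
    ext φ v
    rw [hAd]
    simp only [Module.End.mul_apply, Module.End.one_apply]
    rw [hμ, ← map_smul, ← hμ, ← Module.End.mul_apply (ρ z), ← map_mul]
    simp
  have h2 : ∀ a b, p a = p b → Ad a = Ad b := by
    intro a b hab
    have : a = b * (b⁻¹ * a) := by group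
    rw [this, map_mul, h1 (b⁻¹ * a) (by simp [hab]), mul_one]
  let s : Q → C := Function.surjInv hp
  have hs : ∀ q, p (s q) = q := Function.surjInv_eq hp
  let Ad' : Q →* Module.End ℂ (Module.End ℂ W) :=
    { toFun := fun q => Ad (s q)
      map_one' := h1 _ (hs 1)
      map_mul' := fun a b => by
        rw [← map_mul]; exact h2 _ _ (by simp [hs]) }
  have hfin : (finrank ℂ (Module.End ℂ W) : ℝ) < d ^ 2 := by
    rw [Module.finrank_linearMap, Nat.cast_mul, sq]
    exact mul_lt_mul'' hW hW (Nat.cast_nonneg _) (Nat.cast_nonneg _)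
  have h3 : ∀ a, Ad a = 1 := fun a => by
    rw [h2 a (s (p a)) (hs _).symm]
    exact rep_triv hQ Ad' hfin (p a)
  have h4 : commutator C ≤ ρ.ker := by
    rw [commutator_def, Subgroup.commutator_le]
    intro a _ b _
    have := congrArg (fun F => F (ρ b)) (h3 a)
    simp only [hAd, Module.End.one_apply] at this
    rw [MonoidHom.mem_ker, commutatorElement_def, map_mul, map_mul, map_mul, mul_assoc (ρ a),
      this, ← map_mul, mul_inv_cancel, map_one]
  rw [hC] at h4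
  exact h4 (Subgroup.mem_top g)

/-- Sum of squares of a functional over an orthonormal basis. -/
lemma sum_sq_le {W ι : Type*} [Fintype ι] [NormedAddCommGroup W] [InnerProductSpace ℂ W]
    (b : OrthonormalBasis ι ℂ W) (ℓ : W →ₗ[ℂ] ℂ) {κ : ℝ} (hκ : 0 ≤ κ)
    (h : ∀ v, ‖ℓ v‖ ^ 2 ≤ κ * ‖v‖ ^ 2) : ∑ i, ‖ℓ (b i)‖ ^ 2 ≤ κ := by
  set s := ∑ i, ‖ℓ (b i)‖ ^ 2 with hs
  have hs0 : 0 ≤ s := sum_nonneg fun i _ => sq_nonneg _
  let a : EuclideanSpace ℂ ι := WithLp.toLp 2 fun i => (starRingEnd ℂ) (ℓ (b i))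
  have h1 : ‖b.repr.symm a‖ ^ 2 = s := by
    rw [LinearIsometryEquiv.norm_map, EuclideanSpace.norm_sq_eq]
    simp [a, hs]
  have h2 : ℓ (b.repr.symm a) = (s : ℂ) := by
    rw [← b.sum_repr_symm, map_sum, hs]
    push_cast
    refine sum_congr rfl fun i _ => ?_
    rw [map_smul, smul_eq_mul]
    simp [a, Complex.conj_mul']
  have h3 := h (b.repr.symm a)
  rw [h1, h2, Complex.norm_real, Real.norm_of_nonneg hs0] at h3
  by_contra hc
  push Not at hc
  nlinarith

variable {C : Type*} [Group C] [Fintype C] [DecidableEq C]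

/-- Right translation. -/
noncomputable def R : C →* Module.End ℂ (EuclideanSpace ℂ C) where
  toFun g :=
    { toFun := fun f => WithLp.toLp 2 fun y => f (y * g)
      map_add' := fun _ _ => rfl
      map_smul' := fun _ _ => rfl }
  map_one' := by ext f y; simp
  map_mul' a b := by ext f y; simp [mul_assoc]

omit [Fintype C] [DecidableEq C] in
lemma R_apply (g : C) (f : EuclideanSpace ℂ C) (y : C) : R g f y = f (y * g) := rfl

/-- The averaging operator. -/
noncomputable def T (E : Finset C) : Module.End ℂ (EuclideanSpace ℂ C) where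
  toFun f := WithLp.toLp 2 fun x => ∑ e ∈ E, f (e * x)
  map_add' f g := by ext x; simp [sum_add_distrib]
  map_smul' c f := by ext x; simp [mul_sum]

omit [Fintype C] [DecidableEq C] in
lemma T_apply (E : Finset C) (f : EuclideanSpace ℂ C) (x : C) :
    T E f x = ∑ e ∈ E, f (e * x) := rfl

omit [DecidableEq C] in
lemma norm_R (g : C) (f : EuclideanSpace ℂ C) : ‖R g f‖ ^ 2 = ‖f‖ ^ 2 := by
  rw [EuclideanSpace.norm_sq_eq, EuclideanSpace.norm_sq_eq]
  exact Fintype.sum_equiv (Equiv.mulRight g) _ _ fun y => rfl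

omit [DecidableEq C] in
lemma sum_R (g : C) (f : EuclideanSpace ℂ C) : ∑ x, R g f x = ∑ x, f x :=
  Fintype.sum_equiv (Equiv.mulRight g) _ _ fun _ => rfl

omit [Fintype C] [DecidableEq C] in
lemma T_R (E : Finset C) (g : C) (f : EuclideanSpace ℂ C) : T E (R g f) = R g (T E f) := by
  ext x
  simp [T_apply, R_apply, mul_assoc]

omit [DecidableEq C] in
/-- The extremal subspace. -/
lemma extremal (E : Finset C) (f₀ : EuclideanSpace ℂ C) (h0 : ∑ x, f₀ x = 0) (hf₀ : f₀ ≠ 0) :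
    ∃ (lam : ℝ) (W : Submodule ℂ (EuclideanSpace ℂ C)), W ≠ ⊥ ∧ (∀ g, ∀ v ∈ W, R g v ∈ W) ∧
      (∀ v ∈ W, ∑ x, v x = 0) ∧ (∀ v ∈ W, ‖T E v‖ ^ 2 = lam * ‖v‖ ^ 2) ∧
      ∀ f : EuclideanSpace ℂ C, ∑ x, f x = 0 → ‖T E f‖ ^ 2 ≤ lam * ‖f‖ ^ 2 := by
  let S : Set (EuclideanSpace ℂ C) := {f | ∑ x, f x = 0} ∩ Metric.sphere 0 1
  have hS : IsCompact S := by
    refine (isCompact_sphere 0 1).inter_left (isClosed_eq ?_ continuous_const)
    fun_prop
  have hsc : ∀ f : EuclideanSpace ℂ C, ∑ x, f x = 0 → f ≠ 0 → ((‖f‖⁻¹ : ℝ) : ℂ) • f ∈ S := by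
    intro f hf hne
    refine ⟨?_, ?_⟩
    · simp [← mul_sum, hf]
    · simp [norm_smul, hne]
  have hcont : Continuous fun f : EuclideanSpace ℂ C => ‖T E f‖ ^ 2 :=
    ((T E).continuous_of_finiteDimensional.norm).pow 2
  obtain ⟨v₀, hv₀, hmax⟩ := hS.exists_isMaxOn ⟨_, hsc f₀ h0 hf₀⟩ hcont.continuousOn
  set lam := ‖T E v₀‖ ^ 2 with hlam
  have hv1 : ‖v₀‖ = 1 := by simpa using hv₀.2
  have hle : ∀ f : EuclideanSpace ℂ C, ∑ x, f x = 0 → ‖T E f‖ ^ 2 ≤ lam * ‖f‖ ^ 2 := by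
    intro f hf
    by_cases hne : f = 0
    · simp [hne]
    have h1 : ‖T E (((‖f‖⁻¹ : ℝ) : ℂ) • f)‖ ^ 2 ≤ lam := hmax (hsc f hf hne)
    have hp : 0 < ‖f‖ := norm_pos_iff.2 hne
    rw [map_smul, norm_smul, Complex.norm_real, norm_inv, norm_norm, mul_pow, inv_pow,
      inv_mul_le_iff₀ (by positivity)] at h1
    linarith
  let W : Submodule ℂ (EuclideanSpace ℂ C) :=
    { carrier := {v | ∑ x, v x = 0 ∧ ‖T E v‖ ^ 2 = lam * ‖v‖ ^ 2}
      zero_mem' := by simp
      smul_mem' := fun c v hv => ⟨by simp [← mul_sum, hv.1], by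
        rw [map_smul, norm_smul, norm_smul, mul_pow, mul_pow, hv.2]; ring⟩
      add_mem' := fun {u v} hu hv => by
        have s1 : ∑ x, (u + v) x = 0 := by simp [sum_add_distrib, hu.1, hv.1]
        have s2 : ∑ x, (u - v) x = 0 := by simp [sum_sub_distrib, hu.1, hv.1]
        refine ⟨s1, le_antisymm (hle _ s1) ?_⟩
        have p1 := parallelogram_law_with_norm ℂ u v
        have p2 := parallelogram_law_with_norm ℂ (T E u) (T E v)
        have p3 := hle _ s2
        rw [map_sub] at p3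
        rw [map_add]
        have q1 := hu.2
        have q2 := hv.2
        have : lam * ‖u + v‖ ^ 2 = lam * (2 * (‖u‖ ^ 2 + ‖v‖ ^ 2)) - lam * ‖u - v‖ ^ 2 := by
          rw [← mul_sub]; congr 1; nlinarith
        nlinarith }
  refine ⟨lam, W, ?_, ?_, fun v hv => hv.1, fun v hv => hv.2, hle⟩
  · intro h
    have : v₀ ∈ W := ⟨hv₀.1, by rw [hv1]; simp [hlam]⟩
    rw [h, Submodule.mem_bot] at this
    simp [this] at hv1
  · intro g v hv
    exact ⟨by rw [sum_R]; exact hv.1, by rw [T_R, norm_R, norm_R]; exact hv.2⟩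

omit [DecidableEq C] in
/-- A minimal invariant subspace, on which central elements act by scalars. -/
lemma minimal_inv (W : Submodule ℂ (EuclideanSpace ℂ C)) (hW : W ≠ ⊥)
    (hinv : ∀ g, ∀ v ∈ W, R g v ∈ W) :
    ∃ U : Submodule ℂ (EuclideanSpace ℂ C), U ≤ W ∧ U ≠ ⊥ ∧ (∀ g, ∀ v ∈ U, R g v ∈ U) ∧
      ∀ z : C, (∀ c, z * c = c * z) → ∃ μ : ℂ, ∀ v ∈ U, R z v = μ • v := by
  obtain ⟨U, ⟨h1, h2, h3⟩, hmin⟩ := (wellFounded_lt (α := Submodule ℂ (EuclideanSpace ℂ C))).has_min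
    {U | U ≤ W ∧ U ≠ ⊥ ∧ ∀ g, ∀ v ∈ U, R g v ∈ U} ⟨W, le_rfl, hW, hinv⟩
  refine ⟨U, h1, h2, h3, fun z hz => ?_⟩
  have : Nontrivial U := Submodule.nontrivial_iff_ne_bot.2 h2
  obtain ⟨μ, hμ⟩ := Module.End.exists_eigenvalue ((R z).restrict (h3 z))
  obtain ⟨v₀, hv₀⟩ := hμ.exists_hasEigenvector
  have e0 : R z (v₀ : EuclideanSpace ℂ C) = μ • (v₀ : EuclideanSpace ℂ C) :=
    congrArg Subtype.val hv₀.apply_eq_smul
  let U' := U ⊓ Module.End.eigenspace (R z) μ
  have hU' : ¬ U' < U := by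
    refine hmin U' ⟨inf_le_left.trans h1, fun h => ?_, fun g v hv => ⟨h3 g v hv.1, ?_⟩⟩
    · have : (v₀ : EuclideanSpace ℂ C) ∈ U' := ⟨v₀.2, Module.End.mem_eigenspace_iff.2 e0⟩
      rw [h, Submodule.mem_bot] at this
      exact hv₀.2 (Subtype.ext this)
    · have hv2 := Module.End.mem_eigenspace_iff.1 hv.2
      refine Module.End.mem_eigenspace_iff.2 ?_
      rw [← Module.End.mul_apply, ← map_mul, hz, map_mul, Module.End.mul_apply, hv2, map_smul]
  have heq : U' = U := by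
    by_contra h
    exact hU' (lt_of_le_of_ne inf_le_left h)
  refine ⟨μ, fun v hv => ?_⟩
  rw [← heq] at hv
  exact Module.End.mem_eigenspace_iff.1 hv.2

/-- The operator bound. -/
lemma op_bound {Q : Type*} [Group Q] [Fintype Q] [DecidableEq Q] (p : C →* Q)
    (hp : Function.Surjective p) (hc : ∀ z, p z = 1 → ∀ c, z * c = c * z) {d : ℝ}
    (hd : ∀ (U : Submodule ℂ (EuclideanSpace ℂ C)) (ρ : C →* Module.End ℂ U),
      (finrank ℂ U : ℝ) < d → (∀ z, p z = 1 → ∃ μ : ℂ, ∀ v, ρ z v = μ • v) → ∀ g, ρ g = 1)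
    (E : Finset C) (hE : Set.InjOn p E) (f : EuclideanSpace ℂ C) (hf : ∑ x, f x = 0) :
    d * ‖T E f‖ ^ 2 ≤ Fintype.card Q * E.card * ‖f‖ ^ 2 := by
  by_cases hf0 : f = 0
  · simp [hf0]
  obtain ⟨lam, W, hW, hinv, hsum, hext, hle⟩ := extremal E f hf hf0
  obtain ⟨U, hUW, hU, hUinv, hUZ⟩ := minimal_inv W hW hinv
  have hfp : 0 < ‖f‖ ^ 2 := by positivity
  have hlam : 0 ≤ lam := by
    by_contra h
    push Not at h
    nlinarith [hle f hf, sq_nonneg ‖T E f‖]
  -- the dimension bound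
  have hdim : d ≤ finrank ℂ U := by
    by_contra h
    push Not at h
    let ρ : C →* Module.End ℂ U :=
      { toFun := fun g => (R g).restrict (hUinv g)
        map_one' := by ext v x; simp
        map_mul' := fun a b => by ext v x; simp [R_apply] }
    have h1 := hd U ρ h fun z hz => by
      obtain ⟨μ, hμ⟩ := hUZ z (hc z hz)
      exact ⟨μ, fun v => Subtype.ext (hμ v v.2)⟩
    apply hU
    rw [eq_bot_iff]
    intro v hv
    have h2 : ∀ g, v g = v 1 := fun g => by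
      have := congrArg (fun F : Module.End ℂ U => ((F ⟨v, hv⟩ : U) : EuclideanSpace ℂ C) 1) (h1 g)
      simpa [ρ, R_apply] using this
    have h3 := hsum v (hUW hv)
    rw [sum_congr rfl fun g _ => h2 g] at h3
    simp only [sum_const, card_univ, nsmul_eq_mul, mul_eq_zero, Nat.cast_eq_zero,
      Fintype.card_ne_zero, false_or] at h3
    rw [Submodule.mem_bot]
    ext g
    rw [h2, h3]; rfl
  -- the kernel
  let Z := univ.filter fun z : C => p z = 1
  have hZ : (Fintype.card C : ℝ) = Fintype.card Q * Z.card := by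
    have : ∀ q ∈ (univ : Finset Q), (univ.filter fun c : C => p c = q).card = Z.card :=
      fun q _ => MonoidHom.card_fiber_eq_of_mem_range p (hp q) ⟨1, map_one p⟩
    rw [← card_univ, card_eq_sum_card_fiberwise (f := p) (t := univ) (by simp), sum_congr rfl this]
    simp
  have hZp : (0 : ℝ) < Z.card := by
    exact_mod_cast card_pos.2 ⟨1, by simp [Z]⟩
  have hpt : ∀ x, ∀ v ∈ U, ‖T E v x‖ ^ 2 ≤ E.card / Z.card * ‖v‖ ^ 2 := by
    intro x v hv
    have a1 : ∀ z ∈ Z, ∀ y, ‖v (y * z)‖ ^ 2 = ‖v y‖ ^ 2 := by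
      intro z hz y
      obtain ⟨μ, hμ⟩ := hUZ z (hc z (by simpa [Z] using hz))
      by_cases hv0 : v = 0
      · simp [hv0]
      have b1 := norm_R z v
      rw [hμ v hv, norm_smul, mul_pow] at b1
      have b2 : ‖μ‖ ^ 2 = 1 := by
        have : 0 < ‖v‖ ^ 2 := by positivity
        nlinarith
      have b3 : v (y * z) = μ * v y := by rw [← R_apply, hμ v hv]; rfl
      rw [b3, norm_mul, mul_pow, b2, one_mul]
    have a2 : Z.card * ∑ e ∈ E, ‖v (e * x)‖ ^ 2 ≤ ‖v‖ ^ 2 := by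
      have b1 : Z.card * ∑ e ∈ E, ‖v (e * x)‖ ^ 2 =
          ∑ w ∈ E ×ˢ Z, ‖v (w.1 * x * w.2)‖ ^ 2 := by
        rw [sum_product, mul_sum]
        refine sum_congr rfl fun e _ => ?_
        rw [sum_congr rfl fun z hz => a1 z hz (e * x)]
        simp
      have b2 : Set.InjOn (fun w : C × C => w.1 * x * w.2) (E ×ˢ Z : Finset (C × C)) := by
        intro w hw w' hw' h
        simp only [coe_product, Set.mem_prod, mem_coe, Z, mem_filter, mem_univ, true_and] at hw hw'
        have c1 := congrArg p h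
        simp only [map_mul, hw.2, hw'.2, mul_one, mul_left_inj] at c1
        have c2 := hE hw.1 hw'.1 c1
        simp only [c2, mul_right_inj] at h
        exact Prod.ext c2 h
      rw [b1, ← sum_image (f := fun y => ‖v y‖ ^ 2) b2, EuclideanSpace.norm_sq_eq]
      exact sum_le_sum_of_subset_of_nonneg (subset_univ _) fun _ _ _ => sq_nonneg _
    have a3 : ‖T E v x‖ ^ 2 ≤ E.card * ∑ e ∈ E, ‖v (e * x)‖ ^ 2 := by
      refine le_trans ?_ sq_sum_le_card_mul_sum_sq
      rw [T_apply]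
      gcongr
      exact norm_sum_le _ _
    rw [div_mul_eq_mul_div, le_div_iff₀ hZp]
    have : (0 : ℝ) ≤ E.card := Nat.cast_nonneg _
    nlinarith
  -- the trace
  let b := stdOrthonormalBasis ℂ U
  have htr : lam * finrank ℂ U ≤ Fintype.card Q * E.card := by
    have c1 : ∑ i, ‖T E (b i)‖ ^ 2 = lam * finrank ℂ U := by
      rw [sum_congr rfl fun i _ => hext (b i) (hUW (b i).2)]
      have : ∀ i, ‖(b i : EuclideanSpace ℂ C)‖ = 1 := fun i => b.orthonormal.1 i
      simp [this, mul_comm]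
    rw [← c1, sum_congr rfl fun i _ => EuclideanSpace.norm_sq_eq (T E (b i)), sum_comm]
    have c2 : ∀ x ∈ (univ : Finset C), ∑ i, ‖T E (b i) x‖ ^ 2 ≤ E.card / Z.card := fun x _ =>
      sum_sq_le b ((EuclideanSpace.projₗ x).comp ((T E).comp U.subtype)) (by positivity)
        fun v => hpt x v v.2
    refine (sum_le_sum c2).trans (le_of_eq ?_)
    rw [sum_const, card_univ, nsmul_eq_mul, hZ]
    field_simp
  calc d * ‖T E f‖ ^ 2 ≤ finrank ℂ U * ‖T E f‖ ^ 2 := by gcongr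
    _ ≤ finrank ℂ U * (lam * ‖f‖ ^ 2) := by gcongr; exact hle f hf
    _ = lam * finrank ℂ U * ‖f‖ ^ 2 := by ring
    _ ≤ _ := by gcongr

/-- Relative mixing. -/
lemma mix {Q : Type*} [Group Q] [Fintype Q] [DecidableEq Q] (p : C →* Q)
    (hp : Function.Surjective p) (hc : ∀ z, p z = 1 → ∀ c, z * c = c * z) {d : ℝ}
    (hd : ∀ (U : Submodule ℂ (EuclideanSpace ℂ C)) (ρ : C →* Module.End ℂ U),
      (finrank ℂ U : ℝ) < d → (∀ z, p z = 1 → ∃ μ : ℂ, ∀ v, ρ z v = μ • v) → ∀ g, ρ g = 1)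
    (E : Finset C) (hE : Set.InjOn p E)
    (h : 4 * ((E⁻¹ * E).card : ℝ) * Fintype.card Q < d * (E.card : ℝ) ^ 2) :
    Fintype.card C < 2 * (E⁻¹ * E).card := by
  by_contra hF
  push Not at hF
  set F := E⁻¹ * E with hFdef
  have hF' : 2 * (F.card : ℝ) ≤ Fintype.card C := by exact_mod_cast hF
  set n : ℝ := (Fintype.card C : ℝ) with hn
  set m : ℝ := (E.card : ℝ) with hm
  have hn0 : 0 < n := by rw [hn]; exact_mod_cast Fintype.card_pos
  have hm0 : 0 ≤ m := Nat.cast_nonneg _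
  have hmp : 0 < m := by
    rcases hm0.eq_or_lt with h0 | h0
    · rw [← h0] at h
      have : (0 : ℝ) ≤ 4 * (F.card : ℝ) * Fintype.card Q := by positivity
      nlinarith
    · exact h0
  have hdp : 0 < d := by
    by_contra h0
    push Not at h0
    have : (0 : ℝ) ≤ 4 * (F.card : ℝ) * Fintype.card Q := by positivity
    nlinarith [sq_nonneg m]
  let g : C → ℝ := fun y => (if y ∈ E then 1 else 0) - m / n
  let f : EuclideanSpace ℂ C := WithLp.toLp 2 fun y => (g y : ℂ)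
  have hind : ∑ y : C, (if y ∈ E then (1 : ℝ) else 0) = m := by simp [hm]
  have hg : ∑ y, g y = 0 := by
    simp only [g, sum_sub_distrib, hind, sum_const, card_univ, nsmul_eq_mul, ← hn]
    field_simp
    ring
  have hf : ∑ x, f x = 0 := by
    have : ∑ x, f x = ((∑ y, g y : ℝ) : ℂ) := by simp [f]
    rw [this, hg]; rfl
  have hnf : ‖f‖ ^ 2 ≤ m := by
    rw [EuclideanSpace.norm_sq_eq]
    have : ∀ y ∈ (univ : Finset C), ‖f y‖ ^ 2 =
        (if y ∈ E then 1 else 0) - 2 * (m / n) * g y - (m / n) ^ 2 := fun y _ => by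
      simp only [f, Complex.norm_real, Real.norm_eq_abs, sq_abs, g]
      split_ifs <;> ring
    rw [sum_congr rfl this, sum_sub_distrib, sum_sub_distrib, ← mul_sum, hg, hind]
    have : 0 ≤ ∑ _y : C, (m / n) ^ 2 := sum_nonneg fun _ _ => sq_nonneg _
    linarith
  let r : C → ℝ := fun x => ∑ e ∈ E, g (e * x)
  have hT : ∀ x, ‖T E f x‖ ^ 2 = r x ^ 2 := fun x => by
    have : T E f x = (r x : ℂ) := by simp [T_apply, f, r]
    rw [this, Complex.norm_real, Real.norm_eq_abs, sq_abs]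
  have hr : ∑ x ∈ F, r x = m ^ 2 - F.card * (m * (m / n)) := by
    have e1 : ∀ e ∈ E, ∑ x ∈ F, (if e * x ∈ E then (1 : ℝ) else 0) = m := by
      intro e he
      rw [← hind, ← Fintype.sum_equiv (Equiv.mulLeft e) (fun x => if e * x ∈ E then (1 : ℝ) else 0)
        _ fun _ => rfl]
      refine sum_subset (subset_univ _) fun x _ hx => if_neg fun hex => hx ?_
      have : x = e⁻¹ * (e * x) := by group
      rw [this]
      exact mul_mem_mul (inv_mem_inv he) hex
    simp only [r, g, sum_sub_distrib]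
    rw [sum_comm, sum_congr rfl e1]
    simp [← hm, sq]
  have hcs : (∑ x ∈ F, r x) ^ 2 ≤ F.card * ‖T E f‖ ^ 2 := by
    refine sq_sum_le_card_mul_sum_sq.trans ?_
    gcongr
    rw [EuclideanSpace.norm_sq_eq, sum_congr rfl fun x _ => hT x]
    exact sum_le_sum_of_subset_of_nonneg (subset_univ _) fun _ _ _ => sq_nonneg _
  have hop := op_bound p hp hc hd E hE f hf
  rw [← hm] at hop
  have h1 : m ^ 2 / 2 ≤ ∑ x ∈ F, r x := by
    rw [hr]
    have : F.card * (m * (m / n)) ≤ m ^ 2 / 2 := by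
      rw [show F.card * (m * (m / n)) = (2 * F.card) * m ^ 2 / (2 * n) by field_simp,
        div_le_div_iff₀ (by positivity) (by positivity)]
      nlinarith [sq_nonneg m]
    linarith
  have h2 : (m ^ 2 / 2) ^ 2 ≤ F.card * ‖T E f‖ ^ 2 := le_trans (by gcongr) hcs
  have h3 : d * (m ^ 2 / 2) ^ 2 ≤ F.card * (Fintype.card Q * m * m) :=
    calc d * (m ^ 2 / 2) ^ 2 ≤ d * (F.card * ‖T E f‖ ^ 2) := by gcongr
      _ = F.card * (d * ‖T E f‖ ^ 2) := by ring
      _ ≤ F.card * (Fintype.card Q * m * ‖f‖ ^ 2) := by gcongr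
      _ ≤ _ := by gcongr
  have h4 : 0 < m ^ 2 := by positivity
  nlinarith

end Pool.Agent.Lib.MP_e18f8a_al.QB
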