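import Pool.Agent.Lib.MP_e18f8a_al.QRep

/-!
A spectral gap for a set that is almost invariant under all conjugates of two quasirandom
subgroups which generate the group.
-/

open scoped Pointwise
open Finset Module

namespace Pool.Agent.Lib.MP_e18f8a_al.QB

variable {C : Type*} [Group C] [Fintype C] [DecidableEq C]

lemma QR.op {d : ℝ} (hC : QR C d) (E : Finset C) (f : EuclideanSpace ℂ C) (hf : ∑ x, f x = 0) :
    d * ‖T E f‖ ^ 2 ≤ Fintype.card C * E.card * ‖f‖ ^ 2 :=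
  op_bound (MonoidHom.id C) Function.surjective_id (fun z hz c => by
    rw [show z = 1 from hz]; simp) (d := d) (fun _ ρ h1 _ => rep_triv hC ρ h1) E
    (Set.injOn_id _) f hf

omit [DecidableEq C] in
/-- Mixing along the cosets of the image of a quasirandom group. -/
lemma coset_bound {L : Type*} [Group L] [Fintype L] [DecidableEq L] {d : ℝ} (hL : QR L d)
    (ι : L →* C) (E : Finset L) (g : EuclideanSpace ℂ C) (hg : ∀ y, ∑ l, g (ι l * y) = 0) :
    d * ∑ x, ‖∑ e ∈ E, g (ι e * x)‖ ^ 2 ≤ Fintype.card L * E.card * ‖g‖ ^ 2 := by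
  let f : C → EuclideanSpace ℂ L := fun y => WithLp.toLp 2 fun l => g (ι l * y)
  have h1 : ∀ y, d * ‖T E (f y)‖ ^ 2 ≤ Fintype.card L * E.card * ‖f y‖ ^ 2 := fun y =>
    hL.op E (f y) (hg y)
  have h2 : ∑ y, ‖T E (f y)‖ ^ 2 = Fintype.card L * ∑ x, ‖∑ e ∈ E, g (ι e * x)‖ ^ 2 := by
    rw [sum_congr rfl fun y _ => EuclideanSpace.norm_sq_eq (T E (f y)), sum_comm]
    rw [sum_congr rfl (g := fun _ => ∑ x, ‖∑ e ∈ E, g (ι e * x)‖ ^ 2) fun l _ => ?_]
    · simp
    · refine Fintype.sum_equiv (Equiv.mulLeft (ι l)) _ _ fun y => ?_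
      simp [T_apply, f, mul_assoc]
  have h3 : ∑ y, ‖f y‖ ^ 2 = Fintype.card L * ‖g‖ ^ 2 := by
    rw [sum_congr rfl fun y _ => EuclideanSpace.norm_sq_eq (f y), sum_comm]
    rw [sum_congr rfl (g := fun _ => ‖g‖ ^ 2) fun l _ => ?_]
    · simp
    · rw [EuclideanSpace.norm_sq_eq]
      exact Fintype.sum_equiv (Equiv.mulLeft (ι l)) _ _ fun y => rfl
  have h4 := sum_le_sum fun y (_ : y ∈ (univ : Finset C)) => h1 y
  rw [← mul_sum, ← mul_sum, h2, h3] at h4
  have hp : (0 : ℝ) < Fintype.card L := by exact_mod_cast Fintype.card_pos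
  refine le_of_mul_le_mul_left ?_ hp
  linarith

omit [Fintype C] in
lemma sum_cosets {L M : Type*} [Group L] [Fintype L] [AddCommMonoid M] (ι : L →* C)
    (B Y : Finset C) (hY : ∀ l, ∀ b ∈ B, ι l * b ∈ Y) (φ : C → M) :
    ∑ c ∈ Y, ∑ l ∈ univ.filter (fun l => ι l * c ∈ B), φ (ι l * c) =
      Fintype.card L • ∑ b ∈ B, φ b := by
  simp_rw [sum_filter]
  rw [sum_comm, sum_congr rfl (g := fun _ => ∑ b ∈ B, φ b) fun l _ => ?_]
  · simp
  · rw [← sum_filter]
    refine sum_nbij' (fun c => ι l * c) (fun b => ι l⁻¹ * b) ?_ ?_ ?_ ?_ ?_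
    · intro c hc
      exact (mem_filter.1 hc).2
    · intro b hb
      exact mem_filter.2 ⟨hY _ b hb, by simpa using hb⟩
    · intro c _
      simp
    · intro b _
      simp
    · intro c _
      rfl

/-- The bound on functions with zero mean on every coset. -/
lemma left_bound {L : Type*} [Group L] [Fintype L] [DecidableEq L] {d : ℝ} (hL : QR L d)
    (hd : 0 ≤ d) (ι : L →* C) (B Y : Finset C) (hY : ∀ l, ∀ b ∈ B, ι l * b ∈ Y)
    (g : EuclideanSpace ℂ C) (hg : ∀ y, ∑ l, g (ι l * y) = 0) :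
    d * ‖T B g‖ ^ 2 ≤ Y.card * B.card * ‖g‖ ^ 2 := by
  let E : C → Finset L := fun c => univ.filter fun l => ι l * c ∈ B
  have hp : (0 : ℝ) < Fintype.card L := by exact_mod_cast Fintype.card_pos
  have h1 : ∀ x, (Fintype.card L : ℝ) ^ 2 * ‖T B g x‖ ^ 2 ≤
      Y.card * ∑ c ∈ Y, ‖∑ l ∈ E c, g (ι l * (c * x))‖ ^ 2 := fun x => by
    have a1 := sum_cosets ι B Y hY fun b => g (b * x)
    have a2 : (Fintype.card L : ℝ) * ‖T B g x‖ = ‖∑ c ∈ Y, ∑ l ∈ E c, g (ι l * (c * x))‖ := by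
      simp_rw [← mul_assoc]
      rw [a1, T_apply, nsmul_eq_mul, norm_mul, Complex.norm_natCast]
    rw [← mul_pow, a2]
    refine le_trans ?_ sq_sum_le_card_mul_sum_sq
    gcongr
    exact norm_sum_le _ _
  have h2 : ∀ c ∈ Y, d * ∑ x, ‖∑ l ∈ E c, g (ι l * (c * x))‖ ^ 2 ≤
      Fintype.card L * ‖g‖ ^ 2 * (E c).card := fun c _ => by
    have a1 := coset_bound hL ι (E c) g hg
    rw [Fintype.sum_equiv (Equiv.mulLeft c) (fun x => ‖∑ e ∈ E c, g (ι e * (c * x))‖ ^ 2)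
      (fun x => ‖∑ e ∈ E c, g (ι e * x)‖ ^ 2) fun _ => rfl]
    linarith
  have h3 : ∑ c ∈ Y, ((E c).card : ℝ) = Fintype.card L * B.card := by
    simpa using sum_cosets ι B Y hY fun _ => (1 : ℝ)
  have h4 := sum_le_sum h2
  rw [← mul_sum, ← mul_sum, h3, sum_comm] at h4
  have h5 := sum_le_sum fun x (_ : x ∈ (univ : Finset C)) => h1 x
  rw [← mul_sum, ← mul_sum, ← EuclideanSpace.norm_sq_eq] at h5
  have h6 : (0 : ℝ) ≤ Y.card := Nat.cast_nonneg _
  refine le_of_mul_le_mul_left ?_ (pow_pos hp 2)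
  have h7 := mul_le_mul_of_nonneg_left h5 hd
  have h8 := mul_le_mul_of_nonneg_left h4 h6
  nlinarith

/-- Left translation. -/
noncomputable def Lt (h : C) (f : EuclideanSpace ℂ C) : EuclideanSpace ℂ C :=
  WithLp.toLp 2 fun x => f (h * x)

omit [DecidableEq C] in
lemma norm_Lt (h : C) (f : EuclideanSpace ℂ C) : ‖Lt h f‖ = ‖f‖ := by
  rw [← sq_eq_sq₀ (norm_nonneg _) (norm_nonneg _), EuclideanSpace.norm_sq_eq,
    EuclideanSpace.norm_sq_eq]
  exact Fintype.sum_equiv (Equiv.mulLeft h) _ _ fun _ => rfl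

lemma sub_avg {L : Type*} [Group L] [Fintype L] [DecidableEq L] {d : ℝ} (hL : QR L d)
    (hd : 0 ≤ d) (ι : L →* C) (B Y : Finset C) (hY : ∀ l, ∀ b ∈ B, ι l * b ∈ Y)
    (u : EuclideanSpace ℂ C) :
    d * ‖T B (u - (Fintype.card L : ℂ)⁻¹ • ∑ l, Lt (ι l) u)‖ ^ 2 ≤
      4 * (Y.card * B.card) * ‖u‖ ^ 2 := by
  have hp : (0 : ℝ) < Fintype.card L := by exact_mod_cast Fintype.card_pos
  have hc : (Fintype.card L : ℂ) ≠ 0 := by exact_mod_cast Fintype.card_ne_zero
  set w := u - (Fintype.card L : ℂ)⁻¹ • ∑ l, Lt (ι l) u with hw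
  have h1 : ∀ y, ∑ l, w (ι l * y) = 0 := fun y => by
    have a1 : ∀ l' : L, w (ι l' * y) =
        u (ι l' * y) - (Fintype.card L : ℂ)⁻¹ * ∑ l, u (ι l * y) := fun l' => by
      have : ∑ l, u (ι l * (ι l' * y)) = ∑ l, u (ι l * y) :=
        Fintype.sum_equiv (Equiv.mulRight l') _ _ fun l => by simp [mul_assoc]
      simp [hw, Lt, ← this]
    rw [sum_congr rfl fun l _ => a1 l, sum_sub_distrib, sum_const, card_univ, nsmul_eq_mul,
      ← mul_assoc, mul_inv_cancel₀ hc, one_mul, sub_self]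
  have h2 : ‖w‖ ≤ 2 * ‖u‖ := by
    have a1 : ‖∑ l, Lt (ι l) u‖ ≤ Fintype.card L * ‖u‖ :=
      (norm_sum_le _ _).trans (by simp [norm_Lt])
    have a2 : ‖(Fintype.card L : ℂ)⁻¹ • ∑ l, Lt (ι l) u‖ ≤ ‖u‖ := by
      rw [norm_smul, norm_inv, Complex.norm_natCast, inv_mul_le_iff₀ hp]
      exact a1
    exact (norm_sub_le _ _).trans (by linarith)
  refine (left_bound hL hd ι B Y hY w h1).trans ?_
  have h3 : ‖w‖ ^ 2 ≤ (2 * ‖u‖) ^ 2 := by gcongr
  have h4 : (0 : ℝ) ≤ Y.card * B.card := by positivity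
  nlinarith

/-- The fixed vectors of a subgroup. -/
def fixS {U : Type*} [AddCommGroup U] [Module ℂ U] (ρ : C →* Module.End ℂ U) (L : Subgroup C) :
    Submodule ℂ U where
  carrier := {u | ∀ l ∈ L, ρ l u = u}
  zero_mem' := fun _ _ => map_zero _
  add_mem' := fun {a b} ha hb l hl => by rw [map_add, ha l hl, hb l hl]
  smul_mem' := fun c a ha l hl => by rw [map_smul, ha l hl]

omit [DecidableEq C] in
lemma scalar_avg {U : Type*} [AddCommGroup U] [Module ℂ U] [FiniteDimensional ℂ U]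
    (ρ : C →* Module.End ℂ U)
    (hS : ∀ φ : Module.End ℂ U, (∀ g u, φ (ρ g u) = ρ g (φ u)) → ∃ μ : ℂ, ∀ u, φ u = μ • u)
    (L : Subgroup C) [Fintype L] (h0 : 0 < finrank ℂ U)
    (h : 2 * finrank ℂ (fixS ρ L) ≤ finrank ℂ U) :
    ∃ r : ℝ, r ≤ 1 / 2 ∧ ∀ u, ∑ g : C, (Fintype.card L : ℂ)⁻¹ • ∑ l : L, ρ (g * l * g⁻¹) u =
      ((Fintype.card C * r : ℝ) : ℂ) • u := by
  have hc : (Fintype.card L : ℂ) ≠ 0 := by exact_mod_cast Fintype.card_ne_zero
  let p : Module.End ℂ U := (Fintype.card L : ℂ)⁻¹ • ∑ l : L, ρ l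
  have hp : LinearMap.IsProj (fixS ρ L) p :=
    { map_mem := fun u l hl => by
        simp only [p, LinearMap.smul_apply, LinearMap.sum_apply, map_smul, map_sum]
        congr 1
        refine Fintype.sum_equiv (Equiv.mulLeft (⟨l, hl⟩ : L)) _ _ fun l' => ?_
        simp
      map_id := fun u hu => by
        simp only [p, LinearMap.smul_apply, LinearMap.sum_apply]
        rw [sum_congr rfl fun (l : L) _ => hu l l.2, sum_const, card_univ, ← Nat.cast_smul_eq_nsmul ℂ,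
          smul_smul, inv_mul_cancel₀ hc, one_smul] }
  let Φ : Module.End ℂ U := ∑ g : C, (Fintype.card L : ℂ)⁻¹ • ∑ l : L, ρ (g * l * g⁻¹)
  have hΦ : ∀ u, Φ u = ∑ g : C, (Fintype.card L : ℂ)⁻¹ • ∑ l : L, ρ (g * l * g⁻¹) u := fun u => by
    simp only [Φ, LinearMap.smul_apply, LinearMap.sum_apply]
  obtain ⟨μ, hμ⟩ := hS Φ fun k u => by
    rw [hΦ, hΦ, map_sum]
    refine (Fintype.sum_equiv (Equiv.mulLeft k) _ _ fun g => ?_).symm
    rw [map_smul, map_sum]
    congr 1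
    refine sum_congr rfl fun l _ => ?_
    rw [← Module.End.mul_apply, ← Module.End.mul_apply, ← map_mul, ← map_mul]
    congr 2
    simp [mul_assoc]
  have t1 : LinearMap.trace ℂ U Φ = μ * finrank ℂ U := by
    rw [show Φ = μ • LinearMap.id from LinearMap.ext hμ, map_smul, LinearMap.trace_id, smul_eq_mul]
  have t2 : LinearMap.trace ℂ U Φ = Fintype.card C * finrank ℂ (fixS ρ L) := by
    rw [← hp.trace, map_sum,
      sum_congr rfl (g := fun _ => LinearMap.trace ℂ U p) fun g _ => ?_]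
    · simp
    · simp only [p, map_smul, map_sum]
      congr 1
      refine sum_congr rfl fun l _ => ?_
      rw [map_mul ρ, LinearMap.trace_mul_comm, ← map_mul]
      congr 2
      group
  have h1 : (0 : ℝ) < finrank ℂ U := by exact_mod_cast h0
  have h2 : (finrank ℂ U : ℂ) ≠ 0 := by exact_mod_cast h0.ne'
  refine ⟨finrank ℂ (fixS ρ L) / finrank ℂ U, ?_, fun u => ?_⟩
  · rw [div_le_iff₀ h1]
    have : 2 * (finrank ℂ (fixS ρ L) : ℝ) ≤ finrank ℂ U := by exact_mod_cast h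
    linarith
  · rw [← hΦ, hμ]
    congr 1
    push_cast
    rw [← mul_div_assoc, ← t2, t1, mul_div_cancel_right₀ _ h2]

/-- The spectral gap. -/
lemma gap {d : ℝ} (hd : 0 ≤ d) {L₁ L₂ : Subgroup C} (h₁ : QR L₁ d) (h₂ : QR L₂ d)
    (hJ : L₁ ⊔ L₂ = ⊤) (B Y : Finset C)
    (hY : ∀ g l, l ∈ L₁ ∨ l ∈ L₂ → ∀ b ∈ B, g * l * g⁻¹ * b ∈ Y)
    (f : EuclideanSpace ℂ C) (hf : ∑ x, f x = 0) :
    d * ‖T B f‖ ^ 2 ≤ 16 * Y.card * B.card * ‖f‖ ^ 2 := by
  classical
  by_cases hf0 : f = 0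
  · simp [hf0]
  obtain ⟨lam, W, hW, hinv, hsum, hext, hle⟩ := extremal B f hf hf0
  obtain ⟨U, hUW, hU, hUinv, hS⟩ := exists_schur (fun g : C => R g) W hW hinv
  let ρ : C →* Module.End ℂ U :=
    { toFun := fun g => (R g).restrict (hUinv g)
      map_one' := by ext v x; simp
      map_mul' := fun a b => by ext v x; simp [R_apply] }
  have hρ : ∀ g (v : U) x, (ρ g v : EuclideanSpace ℂ C) x = (v : EuclideanSpace ℂ C) (x * g) :=
    fun _ _ _ => rfl
  have hdis : Disjoint (fixS ρ L₁) (fixS ρ L₂) := by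
    rw [Submodule.disjoint_def]
    intro v hv1 hv2
    let S : Subgroup C :=
      { carrier := {g | ρ g v = v}
        one_mem' := by simp
        mul_mem' := fun {a b} ha hb => by
          change ρ (a * b) v = v
          rw [map_mul, Module.End.mul_apply, hb, ha]
        inv_mem' := fun {a} ha => by
          change ρ a⁻¹ v = v
          have ha' : ρ a v = v := ha
          conv_lhs => rw [← ha']
          rw [← Module.End.mul_apply, ← map_mul, inv_mul_cancel, map_one, Module.End.one_apply] }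
    have hS' : ⊤ ≤ S := hJ ▸ sup_le (fun l hl => hv1 l hl) fun l hl => hv2 l hl
    have h2 : ∀ g, (v : EuclideanSpace ℂ C) g = (v : EuclideanSpace ℂ C) 1 := fun g => by
      have a1 : ρ g v = v := hS' (Subgroup.mem_top g)
      have := hρ g v 1
      rw [a1, one_mul] at this
      exact this.symm
    have h3 := hsum v (hUW v.2)
    rw [sum_congr rfl fun g _ => h2 g] at h3
    simp only [sum_const, card_univ, nsmul_eq_mul, mul_eq_zero, Nat.cast_eq_zero,
      Fintype.card_ne_zero, false_or] at h3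
    ext g
    rw [h2, h3]; rfl
  have hnt : Nontrivial U := Submodule.nontrivial_iff_ne_bot.2 hU
  have h0 : 0 < finrank ℂ U := Module.finrank_pos
  obtain ⟨L, hL, hLY, hLf⟩ : ∃ L : Subgroup C, QR L d ∧
      (∀ g, ∀ l ∈ L, ∀ b ∈ B, g * l * g⁻¹ * b ∈ Y) ∧ 2 * finrank ℂ (fixS ρ L) ≤ finrank ℂ U := by
    have := Submodule.finrank_add_finrank_le_of_disjoint hdis
    by_cases hc : 2 * finrank ℂ (fixS ρ L₁) ≤ finrank ℂ U
    · exact ⟨L₁, h₁, fun g l hl => hY g l (Or.inl hl), hc⟩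
    · exact ⟨L₂, h₂, fun g l hl => hY g l (Or.inr hl), by omega⟩
  obtain ⟨r, hr, hΦ⟩ := scalar_avg ρ hS L h0 hLf
  obtain ⟨u, hu⟩ := exists_ne (0 : U)
  let ι : C → L →* C := fun g => (MulAut.conj g).toMonoidHom.comp L.subtype
  let w : C → EuclideanSpace ℂ C := fun g =>
    (u : EuclideanSpace ℂ C) - (Fintype.card L : ℂ)⁻¹ • ∑ l, Lt (ι g l) u
  have hw : ∀ g, d * ‖T B (w g)‖ ^ 2 ≤
      4 * (Y.card * B.card) * ‖(u : EuclideanSpace ℂ C)‖ ^ 2 := fun g =>
    sub_avg hL hd (ι g) B Y (fun l b hb => hLY g l l.2 b hb) u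
  have hsw : ∑ g, w g = ((Fintype.card C * (1 - r) : ℝ) : ℂ) • (u : EuclideanSpace ℂ C) := by
    ext x
    have a1 := congrArg (fun v : U => (v : EuclideanSpace ℂ C) x) (hΦ u)
    have a2 : ∑ g : C, (Fintype.card L : ℂ)⁻¹ * ∑ l : L, (u : EuclideanSpace ℂ C) (ι g l * x) =
        ∑ g : C, (Fintype.card L : ℂ)⁻¹ *
          ∑ l : L, (u : EuclideanSpace ℂ C) (x * (g * l * g⁻¹)) := by
      refine (Fintype.sum_equiv (Equiv.mulLeft x) _ _ fun g => ?_).symm
      congr 1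
      refine sum_congr rfl fun l _ => ?_
      simp [ι, mul_assoc]
    simp only [AddSubmonoidClass.coe_finsetSum, SetLike.val_smul, WithLp.ofLp_sum,
      WithLp.ofLp_smul, Finset.sum_apply, Pi.smul_apply, smul_eq_mul, hρ] at a1
    simp only [w, WithLp.ofLp_sum, WithLp.ofLp_sub, WithLp.ofLp_smul, Finset.sum_apply,
      Pi.sub_apply, Pi.smul_apply, smul_eq_mul, Lt, sum_sub_distrib, sum_const, card_univ,
      nsmul_eq_mul, Pi.mul_apply, Pi.natCast_apply]
    rw [a2, a1]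
    push_cast
    ring
  have hn : (0 : ℝ) < Fintype.card C := by exact_mod_cast Fintype.card_pos
  have h1 : (Fintype.card C * (1 - r)) ^ 2 * ‖T B u‖ ^ 2 ≤
      Fintype.card C * ∑ g, ‖T B (w g)‖ ^ 2 := by
    have a1 : ‖∑ g, T B (w g)‖ ^ 2 ≤ Fintype.card C * ∑ g, ‖T B (w g)‖ ^ 2 := by
      refine le_trans ?_ sq_sum_le_card_mul_sum_sq
      gcongr
      exact norm_sum_le _ _
    rwa [← map_sum, hsw, map_smul, norm_smul, mul_pow, Complex.norm_real, Real.norm_eq_abs,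
      sq_abs] at a1
  have h2 := sum_le_sum fun g (_ : g ∈ (univ : Finset C)) => hw g
  rw [← mul_sum, sum_const, card_univ, nsmul_eq_mul] at h2
  have hu2 : 0 < ‖(u : EuclideanSpace ℂ C)‖ ^ 2 := by
    have : (u : EuclideanSpace ℂ C) ≠ 0 := fun h => hu (Subtype.ext h)
    positivity
  have h3 : (Fintype.card C / 2 : ℝ) ^ 2 * ‖T B u‖ ^ 2 ≤
      Fintype.card C * ∑ g, ‖T B (w g)‖ ^ 2 := by
    refine le_trans ?_ h1
    gcongr
    nlinarith
  rw [hext u (hUW u.2)] at h3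
  have h4 : d * lam ≤ 16 * Y.card * B.card := by
    have a1 := mul_le_mul_of_nonneg_left h3 hd
    have a2 := mul_le_mul_of_nonneg_left h2 hn.le
    refine le_of_mul_le_mul_right ?_ (mul_pos (pow_pos hn 2) hu2)
    nlinarith
  calc d * ‖T B f‖ ^ 2 ≤ d * (lam * ‖f‖ ^ 2) := by gcongr; exact hle f hf
    _ = d * lam * ‖f‖ ^ 2 := by ring
    _ ≤ _ := by gcongr

/-- The variance of the representation function. -/
lemma var_bound (E₁ E₂ : Finset C) {d κ : ℝ} (hκ : 0 ≤ κ)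
    (hop : ∀ f : EuclideanSpace ℂ C, ∑ x, f x = 0 → d * ‖T E₁ f‖ ^ 2 ≤ κ * ‖f‖ ^ 2) :
    d * ∑ x, (((E₁.filter fun e => e * x ∈ E₂).card : ℝ) -
      E₁.card * E₂.card / Fintype.card C) ^ 2 ≤ κ * E₂.card := by
  set n : ℝ := (Fintype.card C : ℝ) with hn
  set m : ℝ := (E₂.card : ℝ) with hm
  have hn0 : 0 < n := by rw [hn]; exact_mod_cast Fintype.card_pos
  let g : C → ℝ := fun y => (if y ∈ E₂ then 1 else 0) - m / n
  let f : EuclideanSpace ℂ C := WithLp.toLp 2 fun y => (g y : ℂ)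
  have hind : ∑ y : C, (if y ∈ E₂ then (1 : ℝ) else 0) = m := by simp [hm]
  have hg : ∑ y, g y = 0 := by
    simp only [g, sum_sub_distrib, hind, sum_const, card_univ, nsmul_eq_mul, ← hn]
    field_simp
    ring
  have hf : ∑ x, f x = 0 := by
    have : ∑ x, f x = ((∑ y, g y : ℝ) : ℂ) := by simp [f]
    rw [this, hg]; rfl
  have hnf : ‖f‖ ^ 2 ≤ m := by
    rw [EuclideanSpace.norm_sq_eq]
    have : ∀ y ∈ (univ : Finset C), ‖f y‖ ^ 2 =
        (if y ∈ E₂ then 1 else 0) - 2 * (m / n) * g y - (m / n) ^ 2 := fun y _ => by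
      simp only [f, Complex.norm_real, Real.norm_eq_abs, sq_abs, g]
      split_ifs <;> ring
    rw [sum_congr rfl this, sum_sub_distrib, sum_sub_distrib, ← mul_sum, hg, hind]
    have : 0 ≤ ∑ _y : C, (m / n) ^ 2 := sum_nonneg fun _ _ => sq_nonneg _
    linarith
  have hT : ∀ x, ‖T E₁ f x‖ ^ 2 =
      (((E₁.filter fun e => e * x ∈ E₂).card : ℝ) - E₁.card * m / n) ^ 2 := fun x => by
    have : T E₁ f x = ((∑ e ∈ E₁, g (e * x) : ℝ) : ℂ) := by simp [T_apply, f]
    rw [this, Complex.norm_real, Real.norm_eq_abs, sq_abs]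
    simp [g, mul_div_assoc]
  have h1 := hop f hf
  rw [EuclideanSpace.norm_sq_eq (T E₁ f), sum_congr rfl fun x _ => hT x] at h1
  exact h1.trans (by gcongr)

omit [Fintype C] in
lemma rep_zero (E₁ E₂ : Finset C) {x : C} (hx : x ∉ E₁⁻¹ * E₂) :
    (E₁.filter fun e => e * x ∈ E₂).card = 0 := by
  rw [card_eq_zero, filter_eq_empty_iff]
  intro e he hex
  apply hx
  rw [show x = e⁻¹ * (e * x) by group]
  exact mul_mem_mul (inv_mem_inv he) hex

/-- The complement of a product set in a quasirandom group is small. -/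
lemma QR.compl {d : ℝ} (hC : QR C d) (hd : 0 ≤ d) (E₁ E₂ : Finset C) (h₁ : E₁.Nonempty)
    (h₂ : E₂.Nonempty) :
    d * ((E₁ * E₂)ᶜ).card * (E₁.card * E₂.card) ≤ (Fintype.card C : ℝ) ^ 3 := by
  have hn : (0 : ℝ) < Fintype.card C := by exact_mod_cast Fintype.card_pos
  have p1 : (0 : ℝ) < E₁.card := by exact_mod_cast h₁.card_pos
  have p2 : (0 : ℝ) < E₂.card := by exact_mod_cast h₂.card_pos
  have h1 := var_bound E₁⁻¹ E₂ (κ := Fintype.card C * (E₁⁻¹).card) (by positivity) (hC.op E₁⁻¹)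
  have h2 : (((E₁ * E₂)ᶜ).card : ℝ) * (E₁.card * E₂.card / Fintype.card C) ^ 2 ≤
      ∑ x, ((((E₁⁻¹).filter fun e => e * x ∈ E₂).card : ℝ) -
        (E₁⁻¹).card * E₂.card / Fintype.card C) ^ 2 := by
    refine le_trans (le_of_eq ?_)
      (sum_le_sum_of_subset_of_nonneg (subset_univ ((E₁ * E₂)ᶜ)) fun _ _ _ => sq_nonneg _)
    rw [sum_congr rfl (g := fun _ => (E₁.card * E₂.card / Fintype.card C : ℝ) ^ 2) fun x hx => ?_]
    · simp
    · rw [rep_zero E₁⁻¹ E₂ (by simpa using hx), card_inv]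
      simp
  have h3 := (mul_le_mul_of_nonneg_left h2 hd).trans h1
  rw [card_inv, div_pow, ← mul_div_assoc, ← mul_div_assoc, div_le_iff₀ (by positivity)] at h3
  refine le_of_mul_le_mul_right ?_ (mul_pos p1 p2)
  nlinarith

/-- A gap forces the difference set to be large. -/
lemma large_of_gap (E : Finset C) {d κ : ℝ} (hd : 0 ≤ d) (hκ : 0 ≤ κ)
    (hop : ∀ f : EuclideanSpace ℂ C, ∑ x, f x = 0 → d * ‖T E f‖ ^ 2 ≤ κ * E.card * ‖f‖ ^ 2)
    (hE : E.Nonempty) (h : 4 * ((E⁻¹ * E).card : ℝ) * κ < d * (E.card : ℝ) ^ 2) :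
    Fintype.card C < 2 * (E⁻¹ * E).card := by
  by_contra hF
  push Not at hF
  set F := E⁻¹ * E with hFdef
  have hF' : 2 * (F.card : ℝ) ≤ Fintype.card C := by exact_mod_cast hF
  have hn : (0 : ℝ) < Fintype.card C := by exact_mod_cast Fintype.card_pos
  have hm : (0 : ℝ) < E.card := by exact_mod_cast hE.card_pos
  have h1 := var_bound E E (κ := κ * E.card) (by positivity) hop
  set r : C → ℝ := fun x => ((E.filter fun e => e * x ∈ E).card : ℝ) with hr
  have h2 : ∑ x ∈ F, r x = (E.card : ℝ) ^ 2 := by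
    rw [sum_subset (subset_univ F) fun x _ hx => by simp only [hr]; rw [rep_zero E E hx]; simp]
    simp only [hr, card_filter]
    push_cast
    rw [sum_comm, sum_congr rfl (g := fun _ => (E.card : ℝ)) fun e _ => ?_]
    · simp [sq]
    · rw [Fintype.sum_equiv (Equiv.mulLeft e) (fun y => if e * y ∈ E then (1 : ℝ) else 0)
        (fun y => if y ∈ E then (1 : ℝ) else 0) fun _ => rfl]
      simp
  have h3 : (E.card : ℝ) ^ 2 / 2 ≤ ∑ x ∈ F, (r x - E.card * E.card / Fintype.card C) := by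
    rw [sum_sub_distrib, h2, sum_const, nsmul_eq_mul]
    have : (F.card : ℝ) * (E.card * E.card / Fintype.card C) ≤ (E.card : ℝ) ^ 2 / 2 := by
      rw [← mul_div_assoc, div_le_div_iff₀ hn (by norm_num)]
      nlinarith [mul_pos hm hm]
    linarith
  have h4 : ((E.card : ℝ) ^ 2 / 2) ^ 2 ≤
      F.card * ∑ x, (r x - E.card * E.card / Fintype.card C) ^ 2 := by
    refine le_trans (by gcongr) (sq_sum_le_card_mul_sum_sq.trans ?_)
    gcongr
    exact subset_univ _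
  have h5 := mul_le_mul_of_nonneg_left h4 hd
  have h6 := mul_le_mul_of_nonneg_left h1 (Nat.cast_nonneg F.card : (0 : ℝ) ≤ _)
  have h7 : 0 < (E.card : ℝ) ^ 2 := by positivity
  nlinarith

end Pool.Agent.Lib.MP_e18f8a_al.QB
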