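import Pool.Agent.Lib.MP_e18f8a_al.QRad

/-!
Popular cosets of a quasirandom normal subgroup.
-/

open scoped Pointwise
open Finset Module

namespace Pool.Agent.Lib.MP_e18f8a_al.QB

lemma QR.triple {C : Type*} [Group C] [Fintype C] [DecidableEq C] {d t : ℝ} (hC : QR C d)
    (ht : 0 ≤ t) (hd : t ^ 3 < d) (E₁ E₂ E₃ : Finset C) (h₁ : (Fintype.card C : ℝ) ≤ t * E₁.card)
    (h₂ : (Fintype.card C : ℝ) ≤ t * E₂.card) (h₃ : (Fintype.card C : ℝ) ≤ t * E₃.card) (p : C) :
    ∃ a ∈ E₁, ∃ b ∈ E₂, ∃ c ∈ E₃, a * b * c = p := by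
  by_contra hc
  push Not at hc
  have hn : (0 : ℝ) < Fintype.card C := by exact_mod_cast Fintype.card_pos
  have pos : ∀ E : Finset C, (Fintype.card C : ℝ) ≤ t * E.card → E.Nonempty := fun E h => by
    rw [nonempty_iff_ne_empty]
    rintro rfl
    simp only [card_empty, Nat.cast_zero, mul_zero] at h
    linarith
  have hd0 : 0 ≤ d := (pow_nonneg ht 3).trans hd.le
  have h1 := hC.compl hd0 E₁ E₂ (pos _ h₁) (pos _ h₂)
  have h2 : E₃.card ≤ ((E₁ * E₂)ᶜ).card := by
    refine card_le_card_of_injOn (fun c => p * c⁻¹) (fun c hc3 => ?_) fun x _ y _ h => by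
      simpa using h
    rw [mem_coe, mem_compl]
    intro h
    obtain ⟨a, ha, b, hb, hab⟩ := mem_mul.1 h
    exact hc a ha b hb c hc3 (by rw [hab]; group)
  have h3 : (E₃.card : ℝ) ≤ ((E₁ * E₂)ᶜ).card := by exact_mod_cast h2
  have p1 : (0 : ℝ) < E₁.card := by exact_mod_cast (pos _ h₁).card_pos
  have p2 : (0 : ℝ) < E₂.card := by exact_mod_cast (pos _ h₂).card_pos
  have p3 : (0 : ℝ) < E₃.card := by exact_mod_cast (pos _ h₃).card_pos
  have h4 : (Fintype.card C : ℝ) ^ 3 ≤ t ^ 3 * (E₃.card * (E₁.card * E₂.card)) :=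
    calc (Fintype.card C : ℝ) ^ 3 = Fintype.card C * Fintype.card C * Fintype.card C := by ring
      _ ≤ t * E₁.card * (t * E₂.card) * (t * E₃.card) := by gcongr
      _ = _ := by ring
  have h5 : d * E₃.card * (E₁.card * E₂.card) ≤ d * ((E₁ * E₂)ᶜ).card * (E₁.card * E₂.card) := by
    gcongr
  have h6 : (0 : ℝ) < E₃.card * (E₁.card * E₂.card) := by positivity
  nlinarith

lemma QR.pair {C : Type*} [Group C] [Fintype C] [DecidableEq C] {d t : ℝ} (hC : QR C d)
    (ht : 0 ≤ t) (hd : 2 * t ^ 2 < d) (E₁ E₂ : Finset C) (h₁ : (Fintype.card C : ℝ) ≤ t * E₁.card)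
    (h₂ : (Fintype.card C : ℝ) ≤ t * E₂.card) :
    (Fintype.card C : ℝ) < 2 * (E₁ * E₂).card := by
  have hn : (0 : ℝ) < Fintype.card C := by exact_mod_cast Fintype.card_pos
  have pos : ∀ E : Finset C, (Fintype.card C : ℝ) ≤ t * E.card → E.Nonempty := fun E h => by
    rw [nonempty_iff_ne_empty]
    rintro rfl
    simp only [card_empty, Nat.cast_zero, mul_zero] at h
    linarith
  have hd0 : 0 ≤ d := le_trans (by positivity) hd.le
  have h1 := hC.compl hd0 E₁ E₂ (pos _ h₁) (pos _ h₂)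
  have h2 : (((E₁ * E₂)ᶜ).card : ℝ) + (E₁ * E₂).card = Fintype.card C := by
    exact_mod_cast card_compl_add_card (E₁ * E₂)
  have p1 : (0 : ℝ) < E₁.card := by exact_mod_cast (pos _ h₁).card_pos
  have p2 : (0 : ℝ) < E₂.card := by exact_mod_cast (pos _ h₂).card_pos
  by_contra hc
  push Not at hc
  have h4 : (Fintype.card C : ℝ) ^ 3 ≤ t ^ 2 * (Fintype.card C * (E₁.card * E₂.card)) :=
    calc (Fintype.card C : ℝ) ^ 3 = Fintype.card C * Fintype.card C * Fintype.card C := by ring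
      _ ≤ t * E₁.card * (t * E₂.card) * Fintype.card C := by gcongr
      _ = _ := by ring
  have h5 : d * (Fintype.card C / 2) * (E₁.card * E₂.card) ≤
      d * ((E₁ * E₂)ᶜ).card * (E₁.card * E₂.card) := by
    gcongr
    linarith
  have h6 : (0 : ℝ) < Fintype.card C * (E₁.card * E₂.card) := by positivity
  nlinarith

variable {G Q : Type*} [Group G] [DecidableEq G] [Group Q] [DecidableEq Q] {K d : ℝ}
  {A : Finset G} {π : G →* Q} {P : Subgroup G} [Fintype P]

omit [DecidableEq G] in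
lemma lift_card (hker : ∀ g, π g = 1 ↔ g ∈ P) (u v : G) {q : Q} (h : π (u * v) = q)
    [DecidablePred fun e : P => u * e * v ∈ A] :
    (A.filter fun a => π a = q).card ≤ (univ.filter fun e : P => u * e * v ∈ A).card := by
  refine card_le_card_of_surjOn (fun e : P => u * e * v) fun a ha => ?_
  obtain ⟨a1, a2⟩ := mem_filter.1 (mem_coe.1 ha)
  refine ⟨⟨u⁻¹ * a * v⁻¹, (hker _).1 ?_⟩, ?_, ?_⟩
  · rw [map_mul, map_mul, a2, ← h]
    simp
  · simpa [mul_assoc] using a1
  · simp [mul_assoc]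

/-- The popular cosets. -/
noncomputable def pop (K : ℝ) (A : Finset G) (π : G →* Q) (P : Subgroup G) [Fintype P] :
    Finset Q :=
  (A.image π).filter fun q => (Fintype.card P : ℝ) ≤ 2 * K ^ 4 * (A.filter fun a => π a = q).card

omit [DecidableEq G] in
lemma pop_rep {q : Q} (hq : q ∈ pop K A π P) : ∃ a ∈ A, π a = q :=
  mem_image.1 (mem_filter.1 hq).1

lemma pop_lift (hker : ∀ g, π g = 1 ↔ g ∈ P) {q : Q} (hq : q ∈ pop K A π P) (u v : G)
    (h : π (u * v) = q) :
    (Fintype.card P : ℝ) ≤ 2 * K ^ 4 * (univ.filter fun e : P => u * e * v ∈ A).card := by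
  refine (mem_filter.1 hq).2.trans ?_
  gcongr
  exact lift_card hker u v h

omit [DecidableEq G] in
lemma pop_inv (hA : IsApproximateSubgroup K (A : Set G)) {q : Q} (hq : q ∈ pop K A π P) :
    q⁻¹ ∈ pop K A π P := by
  have hinv : ∀ a ∈ A, a⁻¹ ∈ A := fun a ha => by
    simpa using inv_mem_pow hA (mem_pow_one (mem_coe.2 ha))
  obtain ⟨a, ha, rfl⟩ := pop_rep hq
  refine mem_filter.2 ⟨mem_image.2 ⟨a⁻¹, hinv a ha, map_inv _ _⟩, (mem_filter.1 hq).2.trans ?_⟩
  refine mul_le_mul_of_nonneg_left (Nat.cast_le.2 ?_) (by positivity)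
  refine card_le_card_of_injOn (fun x : G => x⁻¹) (fun x hx => ?_) inv_injective.injOn
  obtain ⟨x1, x2⟩ := mem_filter.1 (mem_coe.1 hx)
  exact mem_coe.2 (mem_filter.2 ⟨hinv x x1, by rw [map_inv, x2]⟩)

lemma pop_three (hA : IsApproximateSubgroup K (A : Set G)) (hker : ∀ g, π g = 1 ↔ g ∈ P)
    (hP : QR P d) (hd : 128 * K ^ 14 ≤ d) {q₁ q₂ q₃ : Q} (h₁ : q₁ ∈ pop K A π P)
    (h₂ : q₂ ∈ pop K A π P) (h₃ : q₃ ∈ pop K A π P) {g : G} (hg : π g = q₁ * q₂ * q₃) :
    g ∈ (A : Set G) ^ 3 := by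
  have hK := hA.one_le
  have k14 : 1 ≤ K ^ 14 := one_le_pow₀ hK
  have k12 : K ^ 12 ≤ K ^ 14 := pow_le_pow_right₀ hK (by norm_num)
  obtain ⟨a, -, ha⟩ := pop_rep h₁
  obtain ⟨b, -, hb⟩ := pop_rep h₂
  obtain ⟨c, -, hc⟩ := pop_rep h₃
  obtain ⟨x, hx, y, hy, z, hz, h⟩ := hP.triple (t := 2 * K ^ 4) (by positivity) (by nlinarith) _ _ _
    (pop_lift hker h₁ (a * b * c) (b * c)⁻¹ (by rw [← ha]; congr 1; group))
    (pop_lift hker h₂ (b * c) c⁻¹ (by rw [← hb]; congr 1; group))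
    (pop_lift hker h₃ c 1 (by rw [← hc, mul_one]))
    ⟨(a * b * c)⁻¹ * g, (hker _).1 (by simp [hg, ha, hb, hc, mul_assoc])⟩
  have h1 : (x : G) * y * z = (a * b * c)⁻¹ * g := congrArg Subtype.val h
  have := mul_mem_pow (mul_mem_pow (mem_pow_one (mem_coe.2 (mem_filter.1 hx).2))
    (mem_pow_one (mem_coe.2 (mem_filter.1 hy).2)) rfl)
    (mem_pow_one (mem_coe.2 (mem_filter.1 hz).2)) rfl
  convert this using 1
  calc g = a * b * c * ((x : G) * y * z) := by rw [h1]; group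
    _ = _ := by group

lemma pop_two (hA : IsApproximateSubgroup K (A : Set G)) (hker : ∀ g, π g = 1 ↔ g ∈ P)
    (hP : QR P d) (hd : 128 * K ^ 14 ≤ d) :
    ∃ I : Finset G, (I.card : ℝ) ≤ K ∧ ∀ q₁ ∈ pop K A π P, ∀ q₂ ∈ pop K A π P,
      ∃ i ∈ I, (π i)⁻¹ * (q₁ * q₂) ∈ pop K A π P := by
  have hK := hA.one_le
  have k14 : 1 ≤ K ^ 14 := one_le_pow₀ hK
  have k8 : K ^ 8 ≤ K ^ 14 := pow_le_pow_right₀ hK (by norm_num)
  have k4 : K ≤ K ^ 4 := le_self_pow₀ hK (by norm_num)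
  have hn : (0 : ℝ) < Fintype.card P := by exact_mod_cast Fintype.card_pos
  obtain ⟨I, col, hI, hcol⟩ := exists_col hA 1
  rw [pow_one] at hI
  refine ⟨I, hI, fun q₁ h₁ q₂ h₂ => ?_⟩
  by_contra hc
  push Not at hc
  obtain ⟨a, -, ha⟩ := pop_rep h₁
  obtain ⟨b, -, hb⟩ := pop_rep h₂
  have h1 := hP.pair (t := 2 * K ^ 4) (by positivity) (by nlinarith) _ _
    (pop_lift hker h₁ (a * b) b⁻¹ (by rw [← ha]; congr 1; group))
    (pop_lift hker h₂ b 1 (by rw [← hb, mul_one]))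
  set Z := (univ.filter fun e : P => a * b * e * b⁻¹ ∈ A) * univ.filter fun e : P => b * e * 1 ∈ A
    with hZ
  have h2 : ∀ z ∈ Z, a * b * z ∈ (A : Set G) ^ (1 + 1) := fun z hz => by
    obtain ⟨x, hx, y, hy, rfl⟩ := mem_mul.1 hz
    have := mul_mem_pow (mem_pow_one (mem_coe.2 (mem_filter.1 hx).2))
      (mem_pow_one (mem_coe.2 (mem_filter.1 hy).2)) rfl
    convert this using 1
    push_cast
    group
  have h3 : ∀ i ∈ I, 2 * K ^ 4 * ((Z.filter fun z : P => col (a * b * z) = i).card : ℝ) ≤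
      Fintype.card P := fun i hi => by
    have a1 : ∀ z ∈ Z.filter fun z : P => col (a * b * z) = i,
        i⁻¹ * (a * b * z) ∈ A.filter fun x => π x = (π i)⁻¹ * (q₁ * q₂) := fun z hz => by
      obtain ⟨z1, z2⟩ := mem_filter.1 hz
      refine mem_filter.2 ⟨z2 ▸ (hcol _ (h2 z z1)).2, ?_⟩
      simp [ha, hb, (hker _).2 z.2]
    rcases (Z.filter fun z : P => col (a * b * z) = i).eq_empty_or_nonempty with h0 | ⟨u, hu⟩
    · simp [h0]
    · have a2 := hc i hi
      rw [pop, mem_filter, not_and, not_le] at a2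
      refine le_trans ?_ (a2 (mem_image.2 ⟨_, (mem_filter.1 (a1 u hu)).1,
        (mem_filter.1 (a1 u hu)).2⟩)).le
      gcongr
      exact card_le_card_of_injOn (fun z : P => i⁻¹ * (a * b * z)) (fun z hz => a1 z hz)
        fun x _ y _ h => Subtype.ext (by simpa using h)
  have h4 := sum_le_sum h3
  rw [← mul_sum, sum_const, nsmul_eq_mul, ← Nat.cast_sum, ← card_eq_sum_card_fiberwise
    (f := fun z : P => col (a * b * z)) fun z hz => (hcol _ (h2 z hz)).1] at h4
  have h5 : (I.card : ℝ) * Fintype.card P ≤ K ^ 4 * Fintype.card P := by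
    gcongr
    exact hI.trans k4
  have h6 : 0 < K ^ 4 := by positivity
  nlinarith

lemma pop_size (hA : IsApproximateSubgroup K (A : Set G)) (hker : ∀ g, π g = 1 ↔ g ∈ P)
    (sP : (P : Set G) ⊆ (A : Set G) ^ 4) :
    (A.card : ℝ) ≤ 2 * (pop K A π P).card * Fintype.card P := by
  have hK := hA.one_le
  have k4 : 0 < K ^ 4 := by positivity
  have hs : ∀ q ∈ A.image π, ∃ a ∈ A, π a = q := fun q hq => mem_image.1 hq
  choose! s hs1 hs2 using hs
  have h1 : ((A.image π) ×ˢ (univ : Finset P)).card ≤ (A ^ 5).card := by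
    refine card_le_card_of_injOn (fun w => s w.1 * w.2) (fun w hw => ?_) fun w hw w' hw' h => ?_
    · rw [coe_pow]
      exact mul_mem_pow (mem_pow_one (mem_coe.2 (hs1 _ (mem_product.1 (mem_coe.1 hw)).1)))
        (sP w.2.2) rfl
    · have c1 := congrArg π h
      simp only [map_mul, (hker _).2 w.2.2, (hker _).2 w'.2.2, mul_one,
        hs2 _ (mem_product.1 (mem_coe.1 hw)).1, hs2 _ (mem_product.1 (mem_coe.1 hw')).1] at c1
      simp only [c1, mul_right_inj] at h
      exact Prod.ext c1 (Subtype.ext h)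
  have h2 : ((A.image π).card : ℝ) * Fintype.card P ≤ K ^ 4 * A.card := by
    refine le_trans ?_ (hA.card_pow_le (n := 5))
    rw [card_product, card_univ] at h1
    exact_mod_cast h1
  have h3 : ∀ q ∈ A.image π, 2 * K ^ 4 * ((A.filter fun a => π a = q).card : ℝ) ≤
      (if q ∈ pop K A π P then 2 * K ^ 4 * Fintype.card P else 0) + Fintype.card P := by
    intro q hq
    have hn : (0 : ℝ) ≤ Fintype.card P := Nat.cast_nonneg _
    split_ifs with h
    · have a1 : ((A.filter fun a => π a = q).card : ℝ) ≤ Fintype.card P := by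
        exact_mod_cast (lift_card (A := A) hker (s q) 1 (by rw [mul_one, hs2 q hq])).trans
          (card_le_univ _)
      nlinarith
    · rw [pop, mem_filter, not_and, not_le] at h
      linarith [h hq]
  have h4 := sum_le_sum h3
  rw [← mul_sum, ← Nat.cast_sum, ← card_eq_sum_card_image, sum_add_distrib, ← sum_filter,
    sum_const, sum_const, nsmul_eq_mul, nsmul_eq_mul, filter_mem_eq_inter,
    inter_eq_right.2 (show pop K A π P ⊆ A.image π from filter_subset _ _)] at h4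
  refine le_of_mul_le_mul_left ?_ k4
  nlinarith

/-- The popular cosets form an approximate group whose fourth power lifts. -/
theorem reduction (hA : IsApproximateSubgroup K (A : Set G)) (hker : ∀ g, π g = 1 ↔ g ∈ P)
    (hP : QR P d) (hd : 128 * K ^ 14 ≤ d) (sP : (P : Set G) ⊆ (A : Set G) ^ 4) :
    ∃ B : Finset Q, IsApproximateSubgroup (K + 1) (B : Set Q) ∧ (B : Set Q) ⊆ π '' (A : Set G) ∧
      (A.card : ℝ) ≤ 2 * B.card * Fintype.card P ∧
      ∀ g, π g ∈ (B : Set Q) ^ 4 → g ∈ (A : Set G) ^ 4 := by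
  have hsz := pop_size hA hker sP
  obtain ⟨I, hI, htwo⟩ := pop_two hA hker hP hd
  set W := pop K A π P with hW
  obtain ⟨w, hw⟩ : W.Nonempty := by
    rw [nonempty_iff_ne_empty]
    intro h
    have : (0 : ℝ) < A.card := by exact_mod_cast card_pos.2 ⟨1, hA.one_mem⟩
    rw [h] at hsz
    simp only [card_empty, Nat.cast_zero, mul_zero, zero_mul] at hsz
    linarith
  have hw' : w⁻¹ ∈ W := pop_inv hA hw
  have hinv : ∀ q ∈ insert 1 W, q⁻¹ ∈ insert 1 W := fun q hq => by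
    rcases mem_insert.1 hq with rfl | h
    · simp
    · exact mem_insert_of_mem (pop_inv hA h)
  refine ⟨insert 1 W, ⟨by simp, ?_, insert 1 (I.image π), ?_, ?_⟩, ?_, ?_, ?_⟩
  · ext q
    rw [Set.mem_inv]
    exact ⟨fun h => by simpa using hinv _ h, hinv q⟩
  · have : (insert 1 (I.image π)).card ≤ I.card + 1 :=
      (card_insert_le _ _).trans (Nat.succ_le_succ card_image_le)
    calc ((insert 1 (I.image π)).card : ℝ) ≤ I.card + 1 := by exact_mod_cast this
      _ ≤ K + 1 := by gcongr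
  · rw [sq]
    rintro _ ⟨x, hx, y, hy, rfl⟩
    rcases mem_insert.1 (mem_coe.1 hx) with rfl | h1
    · exact ⟨1, by simp, y, hy, by simp⟩
    rcases mem_insert.1 (mem_coe.1 hy) with rfl | h2
    · exact ⟨1, by simp, x, hx, by simp⟩
    obtain ⟨i, hi, h⟩ := htwo x h1 y h2
    exact ⟨π i, mem_coe.2 (mem_insert_of_mem (mem_image_of_mem _ hi)), _,
      mem_coe.2 (mem_insert_of_mem h), by simp⟩
  · intro q hq
    rcases mem_insert.1 (mem_coe.1 hq) with rfl | h
    · exact ⟨1, hA.one_mem, map_one _⟩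
    · exact pop_rep h
  · refine hsz.trans ?_
    gcongr
    exact subset_insert _ _
  · have t3 : ∀ g, ∀ x ∈ W, ∀ y ∈ W, ∀ z ∈ W, π g = x * y * z → g ∈ (A : Set G) ^ 4 :=
      fun g x hx y hy z hz h => by
        simpa using mul_mem_pow (pop_three hA hker hP hd hx hy hz h) (mem_pow_one hA.one_mem) rfl
    have t4 : ∀ g, ∀ v ∈ W, ∀ x ∈ W, ∀ y ∈ W, ∀ z ∈ W, π g = v * x * y * z →
        g ∈ (A : Set G) ^ 4 := fun g v hv x hx y hy z hz h => by
      obtain ⟨a, ha, rfl⟩ := pop_rep hv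
      simpa using mul_mem_pow (mem_pow_one (mem_coe.2 ha))
        (pop_three hA hker hP hd hx hy hz (g := a⁻¹ * g) (by simp [h, mul_assoc])) rfl
    have t2 : ∀ u ∈ ((insert 1 W : Finset Q) : Set Q) ^ 2,
        u ∈ W ∨ ∃ x ∈ W, ∃ y ∈ W, u = x * y := fun u hu => by
      rw [sq] at hu
      obtain ⟨x, hx, y, hy, rfl⟩ := hu
      rcases mem_insert.1 (mem_coe.1 hx) with rfl | h1 <;>
        rcases mem_insert.1 (mem_coe.1 hy) with rfl | h2
      · exact Or.inr ⟨w, hw, _, hw', by simp⟩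
      · exact Or.inl (by simpa using h2)
      · exact Or.inl (by simpa using h1)
      · exact Or.inr ⟨x, h1, y, h2, rfl⟩
    intro g hg
    rw [show 4 = 2 + 2 from rfl, pow_add] at hg
    obtain ⟨u, hu, v, hv, h⟩ := hg
    have h : π g = u * v := h.symm
    rcases t2 u hu with h1 | ⟨x, hx, y, hy, rfl⟩ <;> rcases t2 v hv with h2 | ⟨x', hx', y', hy', rfl⟩
    · exact t4 g u h1 v h2 w hw _ hw' (by simp [h])
    · exact t3 g u h1 x' hx' y' hy' (by rw [h, mul_assoc])
    · exact t3 g x hx y hy v h2 h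
    · exact t4 g x hx y hy x' hx' y' hy' (by rw [h, mul_assoc (x * y)])

omit [DecidableEq G] [DecidableEq Q] [Fintype P] in
/-- An extension of a quasirandom group by a quasirandom group. -/
lemma QR.comap (hker : ∀ g, π g = 1 ↔ g ∈ P) (hπ : Function.Surjective π) (hP : QR P d)
    (L : Subgroup Q) (hL : QR L d) : QR (L.comap π) d := fun n hn ρ g => by
  have hle : P ≤ L.comap π := fun p hp => by
    rw [Subgroup.mem_comap, (hker p).2 hp]
    exact one_mem _
  let φ : L.comap π →* L := (π.comp (L.comap π).subtype).codRestrict L fun x => x.2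
  have hφ : Function.Surjective φ := fun l => by
    obtain ⟨x, hx⟩ := hπ l
    exact ⟨⟨x, by rw [Subgroup.mem_comap, hx]; exact l.2⟩, Subtype.ext hx⟩
  have hk : φ.ker ≤ ρ.ker := fun x hx =>
    hP n hn (ρ.comp (Subgroup.inclusion hle)) ⟨x, (hker _).1 (congrArg Subtype.val hx)⟩
  rw [← φ.liftOfRightInverse_comp_apply _ (Function.rightInverse_surjInv hφ) ⟨ρ, hk⟩ g]
  exact hL n hn _ _

end Pool.Agent.Lib.MP_e18f8a_al.QB
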