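import Pool.Agent.Lib.MP_e18f8a_al.QDesc

/-!
A finite perfect extension of a quasirandom group by a solvable group is quasirandom.
-/

open scoped Pointwise commutatorElement
open Finset Module

namespace Pool.Agent.Lib.MP_e18f8a_al.QB

/-- No nontrivial representation of dimension below `D`. -/
def QR (Q : Type*) [Group Q] (D : ℝ) : Prop :=
  ∀ n : ℕ, (n : ℝ) < D → ∀ ρ : Q →* GL (Fin n) ℂ, ∀ q, ρ q = 1

/-- No proper subgroup of index below `D`. -/
def IQ (G : Type*) [Group G] (D : ℝ) : Prop := ∀ H : Subgroup G, (H.index : ℝ) < D → H = ⊤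

variable {G Q : Type*} [Group G] [Group Q]

lemma QR.iq [Finite Q] {D : ℝ} (h : QR Q D) : IQ Q D := by
  classical
  intro H hH
  have := Fintype.ofFinite (Q ⧸ H)
  let ρ : Q →* Module.End ℂ (Q ⧸ H → ℂ) :=
    { toFun := fun q => LinearMap.funLeft ℂ ℂ fun x => q⁻¹ • x
      map_one' := by ext f x; simp
      map_mul' := fun a b => by ext f x; simp [mul_smul] }
  have hρ := rep_triv h ρ (by
    rwa [Module.finrank_fintype_fun_eq_card, ← Nat.card_eq_fintype_card])
  refine eq_top_iff.2 fun q _ => ?_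
  have h1 := congrArg (fun F : Module.End ℂ (Q ⧸ H → ℂ) =>
    F (Pi.single ((1 : Q) : Q ⧸ H) 1) ((1 : Q) : Q ⧸ H)) (hρ q⁻¹)
  simp only [ρ, MonoidHom.coe_mk, OneHom.coe_mk, inv_inv, LinearMap.funLeft_apply,
    Module.End.one_apply, Pi.single_eq_same] at h1
  by_contra hq
  rw [Pi.single_eq_of_ne] at h1
  · exact zero_ne_one h1
  · intro h2
    rw [MulAction.Quotient.smul_coe, smul_eq_mul, mul_one, eq_comm, QuotientGroup.eq] at h2
    exact hq (by simpa using h2)

/-- The derived series of a subgroup, inside the group. -/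
def ser (N : Subgroup G) : ℕ → Subgroup G
  | 0 => N
  | j + 1 => ⁅ser N j, ser N j⁆

lemma ser_normal (N : Subgroup G) [hN : N.Normal] : ∀ j, (ser N j).Normal
  | 0 => hN
  | j + 1 => by
    have := ser_normal N j
    exact Subgroup.commutator_normal _ _

lemma ser_bot (N : Subgroup G) [Group.IsSolvable N] : ∃ l, ser N l = ⊥ := by
  obtain ⟨l, hl⟩ := Group.IsSolvable.solvable (G := N)
  have : ∀ j, ser N j = (derivedSeries N j).map N.subtype := by
    intro j
    induction j with
    | zero => simp [ser, ← MonoidHom.range_eq_map]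
    | succ j ih => rw [ser, ih, derivedSeries_succ, Subgroup.map_commutator]
  exact ⟨l, by rw [this, hl, Subgroup.map_bot]⟩

lemma down (N : Subgroup G) [N.Normal] [Group.IsSolvable N] (P : Subgroup G → Prop) (h0 : P ⊥)
    (hs : ∀ V : Subgroup G, V.Normal → P ⁅V, V⁆ → P V) : P N := by
  obtain ⟨l, hl⟩ := ser_bot N
  have : ∀ j, P (ser N j) → P N := by
    intro j
    induction j with
    | zero => exact id
    | succ j ih => exact fun h => ih (hs _ (ser_normal N j) h)
  exact this l (hl ▸ h0)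

lemma up (N : Subgroup G) [N.Normal] [Group.IsSolvable N] (P : Subgroup G → Prop) (h0 : P N)
    (hs : ∀ V : Subgroup G, V.Normal → V ≤ N → P V → P ⁅V, V⁆) : P ⊥ := by
  obtain ⟨l, hl⟩ := ser_bot N
  have : ∀ j, ser N j ≤ N ∧ P (ser N j) := by
    intro j
    induction j with
    | zero => exact ⟨le_rfl, h0⟩
    | succ j ih =>
      have := ser_normal N j
      exact ⟨(Subgroup.commutator_le_left _ _).trans ih.1, hs _ this ih.1 ih.2⟩
  exact hl ▸ (this l).2

lemma perfect_triv (hG : commutator G = ⊤) {M : Type*} [Monoid M] (f : G →* M)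
    (hf : ∀ a b, f a * f b = f b * f a) (g : G) : f g = 1 := by
  have h4 : commutator G ≤ f.ker := by
    rw [commutator_def, Subgroup.commutator_le]
    intro a _ b _
    rw [MonoidHom.mem_ker, commutatorElement_def, map_mul, map_mul, map_mul, hf a b, mul_assoc (f b),
      ← map_mul f a, mul_inv_cancel, map_one, mul_one, ← map_mul, mul_inv_cancel, map_one]
  rw [hG] at h4
  exact h4 (Subgroup.mem_top g)

lemma commutatorElement_eq_one_iff_mul_comm' {M : Type*} [Monoid M] (f : G →* M) (a b : G) :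
    f ⁅a, b⁆ = 1 ↔ f a * f b = f b * f a := by
  have h : ⁅a, b⁆ * (b * a) = a * b := by simp only [commutatorElement_def]; group
  constructor
  · intro h1
    rw [← map_mul, ← h, map_mul, h1, one_mul, map_mul]
  · intro h1
    rw [commutatorElement_def, map_mul, map_mul, map_mul, h1, mul_assoc (f b),
      ← map_mul f a, mul_inv_cancel, map_one, mul_one, ← map_mul, mul_inv_cancel, map_one]

/-- Proper subgroups of the extension have large index. -/
lemma iq_ext [Finite G] (hG : commutator G = ⊤) (π : G →* Q) (hπ : Function.Surjective π)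
    [Group.IsSolvable π.ker] {D : ℝ} (hQ : IQ Q D) : IQ G D := by
  have key : ∀ n : ℕ, ∀ H : Subgroup G, H.index = n → (n : ℝ) < D → H = ⊤ := by
    intro n
    induction n using Nat.strong_induction_on with
    | _ n ih =>
    intro H₀ hH₀ hn
    by_contra hne
    obtain ⟨H, hH, hle⟩ := (eq_top_or_exists_le_coatom H₀).resolve_left hne
    have hm : H.index ≤ n := hH₀ ▸ Subgroup.index_antitone hle
    have h1 : H.map π = ⊤ := by
      refine hQ _ (lt_of_le_of_lt ?_ hn)
      exact_mod_cast (Nat.le_of_dvd (Nat.pos_of_ne_zero Subgroup.FiniteIndex.index_ne_zero)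
        (Subgroup.index_map_dvd H hπ)).trans hm
    have h2 : π.ker ≤ H := by
      refine down π.ker (· ≤ H) bot_le fun V hV hVV => ?_
      by_contra hVH
      have h3 : V ⊔ H = ⊤ := hH.2 _ (right_lt_sup.2 hVH)
      have h4 : ∀ g : G, ∃ v ∈ V, ∃ h ∈ H, v * h = g := fun g => by
        have : g ∈ V ⊔ H := h3 ▸ Subgroup.mem_top g
        rw [← SetLike.mem_coe, Subgroup.normal_mul] at this
        exact this
      have hVH' : ∀ v ∈ V, ∀ w ∈ V, ⁅v, w⁆ ∈ H := fun v hv w hw =>
        hVV (Subgroup.commutator_mem_commutator hv hw)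
      have hR : (H ⊓ V).Normal := ⟨fun r hr g => by
        obtain ⟨v, hv, h, hh, rfl⟩ := h4 g
        refine Subgroup.mem_inf.2 ⟨?_, hV.conj_mem r hr.2 _⟩
        have a1 : h * r * h⁻¹ ∈ H := mul_mem (mul_mem hh hr.1) (inv_mem hh)
        have a2 := mul_mem (hVH' v hv _ (hV.conj_mem r hr.2 h)) a1
        convert a2 using 1
        simp only [commutatorElement_def]
        group⟩
      let mk := QuotientGroup.mk' (H ⊓ V)
      let : MulAction G (G ⧸ (H ⊓ V)) := MulAction.compHom _ (MulAut.conj.comp mk)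
      have h5 : ∀ g : G, ∀ v ∈ V, ⁅g, v⁆ ∈ H := by
        intro g v hv
        by_cases hvH : v ∈ H ⊓ V
        · exact mul_mem (hR.conj_mem v hvH g).1 (inv_mem hvH.1)
        have a1 : MulAction.orbit G (mk v) ⊆ (V.map mk : Set _) \ {1} := by
          rintro _ ⟨x, rfl⟩
          refine ⟨⟨x * v * x⁻¹, hV.conj_mem v hv x, by simp; rfl⟩, fun h => hvH ?_⟩
          have a2 : mk x * mk v * (mk x)⁻¹ = 1 := h
          rw [← QuotientGroup.eq_one_iff]
          change mk v = 1
          simpa using a2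
        have a3 : (V.map mk : Set (G ⧸ (H ⊓ V))).ncard ≤ n := by
          rw [← Nat.card_coe_set_eq, SetLike.coe_sort_coe, ← Subgroup.relIndex_ker,
            QuotientGroup.ker_mk', Subgroup.inf_relIndex_right]
          refine le_trans (Subgroup.relIndex_le_of_le_right le_top ?_) ?_
          · rw [Subgroup.relIndex_top_right]; exact Subgroup.FiniteIndex.index_ne_zero
          · rwa [Subgroup.relIndex_top_right]
        have a4 : (MulAction.stabilizer G (mk v)).index < n := by
          rw [MulAction.index_stabilizer]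
          exact (Set.ncard_le_ncard a1).trans_lt
            ((Set.ncard_sdiff_singleton_lt_of_mem (one_mem _)).trans_le a3)
        have a5 := ih _ a4 _ rfl (lt_trans (by exact_mod_cast a4) hn)
        have a6 : g ∈ MulAction.stabilizer G (mk v) := a5 ▸ Subgroup.mem_top g
        have a7 : mk g * mk v * (mk g)⁻¹ = mk v := a6
        have a8 : mk ⁅g, v⁆ = 1 := by
          rw [commutatorElement_def, map_mul, map_mul, map_mul, map_inv, a7, map_inv, mul_inv_cancel]
        exact ((QuotientGroup.eq_one_iff _).1 a8).1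
      have hHn : H.Normal := ⟨fun x hx g => by
        obtain ⟨v, hv, h, hh, rfl⟩ := h4 g
        have a1 : h * x * h⁻¹ ∈ H := mul_mem (mul_mem hh hx) (inv_mem hh)
        have a2 := mul_mem (inv_mem (h5 (h * x * h⁻¹) v hv)) a1
        convert a2 using 1
        simp only [commutatorElement_def]
        group⟩
      have h6 : ∀ g, QuotientGroup.mk' H g = 1 := perfect_triv hG _ fun a b => by
        obtain ⟨v, hv, h, hh, rfl⟩ := h4 b
        have b1 : QuotientGroup.mk' H h = 1 := (QuotientGroup.eq_one_iff _).2 hh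
        have b2 : QuotientGroup.mk' H ⁅a, v⁆ = 1 := (QuotientGroup.eq_one_iff _).2 (h5 a v hv)
        rw [map_commutatorElement, commutatorElement_eq_one_iff_mul_comm] at b2
        rw [map_mul, b1, mul_one, b2]
      exact hH.1 (eq_top_iff.2 fun g _ => (QuotientGroup.eq_one_iff _).1 (h6 g))
    apply hH.1
    rw [← Subgroup.comap_top π, ← h1, Subgroup.comap_map_eq, sup_of_le_left h2]
  exact fun H hH => key _ H rfl hH

/-- A minimal invariant subspace has the Schur property. -/
lemma exists_schur {W ι : Type*} [AddCommGroup W] [Module ℂ W] [FiniteDimensional ℂ W]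
    (S : ι → Module.End ℂ W) (W' : Submodule ℂ W) (h0 : W' ≠ ⊥)
    (hinv : ∀ i, ∀ v ∈ W', S i v ∈ W') :
    ∃ U : Submodule ℂ W, U ≤ W' ∧ U ≠ ⊥ ∧ ∃ hU : ∀ i, ∀ v ∈ U, S i v ∈ U,
      ∀ φ : Module.End ℂ U, (∀ i u, φ ((S i).restrict (hU i) u) = (S i).restrict (hU i) (φ u)) →
        ∃ μ : ℂ, ∀ u, φ u = μ • u := by
  obtain ⟨U, ⟨h1, h2, h3⟩, hmin⟩ := (wellFounded_lt (α := Submodule ℂ W)).has_min
    {U | U ≤ W' ∧ U ≠ ⊥ ∧ ∀ i, ∀ v ∈ U, S i v ∈ U} ⟨W', le_rfl, h0, hinv⟩
  refine ⟨U, h1, h2, h3, fun φ hφ => ?_⟩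
  have : Nontrivial U := Submodule.nontrivial_iff_ne_bot.2 h2
  obtain ⟨μ, hμ⟩ := Module.End.exists_eigenvalue φ
  obtain ⟨v₀, hv₀⟩ := hμ.exists_hasEigenvector
  let U' := (Module.End.eigenspace φ μ).map U.subtype
  have hle : U' ≤ U := Submodule.map_subtype_le _ _
  have hU' : ¬ U' < U := by
    refine hmin U' ⟨hle.trans h1, fun h => ?_, ?_⟩
    · have : (v₀ : W) ∈ U' := ⟨v₀, hv₀.1, rfl⟩
      rw [h, Submodule.mem_bot] at this
      exact hv₀.2 (Subtype.ext this)
    · rintro i _ ⟨u, hu, rfl⟩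
      refine ⟨(S i).restrict (h3 i) u, Module.End.mem_eigenspace_iff.2 ?_, rfl⟩
      rw [hφ, Module.End.mem_eigenspace_iff.1 hu, map_smul]
  have heq : U' = U := by
    by_contra h
    exact hU' (lt_of_le_of_ne hle h)
  refine ⟨μ, fun u => ?_⟩
  have hu : (u : W) ∈ U' := by rw [heq]; exact u.2
  obtain ⟨w, hw, hwu⟩ := hu
  rw [← Subtype.ext hwu]
  exact Module.End.mem_eigenspace_iff.1 hw

/-- Triviality can be tested on minimal invariant subspaces. -/
lemma triv_of_schur [Finite G] {W : Type*} [AddCommGroup W] [Module ℂ W] [FiniteDimensional ℂ W]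
    (σ : G →* Module.End ℂ W) (V V₁ : Subgroup G) [hV₁ : V₁.Normal]
    (h : ∀ U : Submodule ℂ W, U ≠ ⊥ → ∀ hU : ∀ i : V, ∀ v ∈ U, σ i v ∈ U,
      (∀ φ : Module.End ℂ U, (∀ (i : V) u, φ ((σ i).restrict (hU i) u) = (σ i).restrict (hU i) (φ u)) →
        ∃ μ : ℂ, ∀ u, φ u = μ • u) → ∀ w ∈ V₁, ∀ u ∈ U, σ w u = u) :
    ∀ w ∈ V₁, σ w = 1 := by
  classical
  have := Fintype.ofFinite V₁
  let P : Module.End ℂ W := ∑ w : V₁, σ w
  have hP : ∀ i : V, ∀ v ∈ LinearMap.ker P, σ i v ∈ LinearMap.ker P := by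
    intro i v hv
    rw [LinearMap.mem_ker] at hv ⊢
    have : P * σ i = σ i * P := by
      simp only [P, sum_mul, mul_sum, ← map_mul]
      refine (Fintype.sum_equiv (MulAut.conjNormal (i : G)).toEquiv _ _ fun w => ?_).symm
      simp
    rw [← Module.End.mul_apply, this, Module.End.mul_apply, hv, map_zero]
  have hk : LinearMap.ker P = ⊥ := by
    by_contra h0
    obtain ⟨U, h1, h2, hU, h3⟩ := exists_schur (fun i : V => σ i) _ h0 hP
    refine h2 (eq_bot_iff.2 fun u hu => ?_)
    have a1 : P u = 0 := h1 hu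
    simp only [P, LinearMap.sum_apply] at a1
    rw [sum_congr rfl fun (w : V₁) _ => h U h2 hU h3 w w.2 u hu, sum_const, card_univ,
      ← Nat.cast_smul_eq_nsmul ℂ, smul_eq_zero] at a1
    exact a1.resolve_left (Nat.cast_ne_zero.2 Fintype.card_ne_zero)
  intro w hw
  ext v
  have : P * σ w = P := by
    simp only [P, sum_mul, ← map_mul]
    exact Fintype.sum_equiv (Equiv.mulRight ⟨w, hw⟩) _ _ fun x => rfl
  have a2 : σ w v - v ∈ LinearMap.ker P := by
    rw [LinearMap.mem_ker, map_sub, ← Module.End.mul_apply, this, sub_self]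
  rw [hk, Submodule.mem_bot, sub_eq_zero] at a2
  exact a2

/-- Weights of an abelian normal image are fixed. -/
lemma weights_fixed [Finite G] {D : ℝ} (hG : IQ G D) {W : Type*} [AddCommGroup W] [Module ℂ W]
    [FiniteDimensional ℂ W] (σ : G →* Module.End ℂ W) (hW : (finrank ℂ W : ℝ) < D)
    (V : Subgroup G) [hV : V.Normal] (hc : ∀ v ∈ V, ∀ w ∈ V, σ v * σ w = σ w * σ v) :
    ∀ w ∈ ⁅(⊤ : Subgroup G), V⁆, σ w = 1 := by
  refine triv_of_schur σ V _ fun U hU0 hU hS => ?_
  have hχ : ∀ v : V, ∃ μ : ℂ, ∀ u ∈ U, σ v u = μ • u := fun v => by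
    obtain ⟨μ, hμ⟩ := hS ((σ v).restrict (hU v)) fun i u => Subtype.ext (by
      change σ v (σ i u) = σ i (σ v u)
      rw [← Module.End.mul_apply, hc _ v.2 _ i.2, Module.End.mul_apply])
    exact ⟨μ, fun u hu => congrArg Subtype.val (hμ ⟨u, hu⟩)⟩
  choose χ hχ using hχ
  obtain ⟨e, he, he0⟩ := Submodule.exists_mem_ne_zero_of_ne_bot hU0
  let : MulAction G V := MulAction.compHom V (MulAut.conjNormal : G →* MulAut V)
  let : MulAction G (V → ℂ) := arrowAction
  have hsm : ∀ (g : G) (v : V), (g • χ) v = χ ⟨g⁻¹ * v * g, by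
      simpa using hV.conj_mem _ v.2 g⁻¹⟩ := fun g v => by
    change χ (MulAut.conjNormal g⁻¹ v) = _
    congr 1
    ext
    simp
  have hind := Module.End.independent_iInf_maxGenEigenspace_of_forall_mapsTo
    (fun v : V => σ v) fun i j φ => Module.End.mapsTo_maxGenEigenspace_of_comm (hc _ j.2 _ i.2) φ
  have horb : ∀ ψ : MulAction.orbit G χ, ∃ g : G, g • χ = ψ := fun ψ => ψ.2
  choose γ hγ using horb
  have hli : LinearIndependent ℂ fun ψ : MulAction.orbit G χ => σ (γ ψ) e := by
    refine iSupIndep.linearIndependent _ (hind.comp Subtype.val_injective) (fun ψ => ?_) fun ψ h => ?_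
    · simp only [Function.comp_apply, Submodule.mem_iInf]
      intro v
      refine Module.End.eigenspace_le_maxGenEigenspace (Module.End.mem_eigenspace_iff.2 ?_)
      rw [← hγ ψ, hsm, ← map_smul, ← hχ _ e he, ← Module.End.mul_apply, ← Module.End.mul_apply,
        ← map_mul, ← map_mul]
      congr 2
      simp only
      group
    · apply he0
      have := congrArg (σ (γ ψ)⁻¹) h
      rwa [← Module.End.mul_apply, ← map_mul, inv_mul_cancel, map_one, map_zero] at this
  have : Finite (MulAction.orbit G χ) := Set.finite_range _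
  have := Fintype.ofFinite (MulAction.orbit G χ)
  have hst : MulAction.stabilizer G χ = ⊤ := by
    refine hG _ (lt_of_le_of_lt ?_ hW)
    rw [MulAction.index_stabilizer, ← Nat.card_coe_set_eq, Nat.card_eq_fintype_card]
    exact_mod_cast hli.fintype_card_le_finrank
  let F : Subgroup G :=
    { carrier := {w | ∀ u ∈ U, σ w u = u}
      one_mem' := fun u _ => by simp
      mul_mem' := fun {a b} ha hb u hu => by rw [map_mul, Module.End.mul_apply, hb u hu, ha u hu]
      inv_mem' := fun {a} ha u hu => by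
        conv_lhs => rw [← ha u hu]
        rw [← Module.End.mul_apply, ← map_mul, inv_mul_cancel, map_one, Module.End.one_apply] }
  have hF : ⁅(⊤ : Subgroup G), V⁆ ≤ F := by
    rw [Subgroup.commutator_le]
    intro g _ v hv u hu
    have a1 : g⁻¹ • χ = χ := (hst ▸ Subgroup.mem_top g⁻¹ : g⁻¹ ∈ MulAction.stabilizer G χ)
    have a2 := congrFun a1 ⟨v, hv⟩
    rw [hsm] at a2
    have a3 := hχ ⟨g⁻¹⁻¹ * v * g⁻¹, by simpa using hV.conj_mem _ hv g⟩ _ (hU ⟨v⁻¹, inv_mem hv⟩ u hu)
    rw [a2, ← hχ ⟨v, hv⟩ _ (hU ⟨v⁻¹, inv_mem hv⟩ u hu)] at a3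
    simp only [← Module.End.mul_apply, ← map_mul, inv_inv, mul_inv_cancel, map_one,
      Module.End.one_apply] at a3
    exact a3
  exact fun w hw => hF hw

/-- Irreducible representations of small dimension are trivial. -/
lemma irr_triv [Finite G] [Finite Q] (hG : commutator G = ⊤) (π : G →* Q)
    (hπ : Function.Surjective π) [Group.IsSolvable π.ker] {d : ℝ} (hQ : QR Q (d ^ 2))
    {U : Type*} [AddCommGroup U] [Module ℂ U] [FiniteDimensional ℂ U] (ρ : G →* Module.End ℂ U)
    (hfin : (finrank ℂ U : ℝ) < d)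
    (hS : ∀ φ : Module.End ℂ U, (∀ g u, φ (ρ g u) = ρ g (φ u)) → ∃ μ : ℂ, ∀ u, φ u = μ • u)
    (w : G) : ρ w = 1 := by
  have hI := iq_ext hG π hπ hQ.iq
  let Ad : G →* Module.End ℂ (Module.End ℂ U) :=
    { toFun := fun g => (LinearMap.mulLeft ℂ (ρ g)).comp (LinearMap.mulRight ℂ (ρ g⁻¹))
      map_one' := by ext φ v; simp
      map_mul' := fun a b => by ext φ v; simp }
  have hAd : ∀ g φ, Ad g φ = ρ g * (φ * ρ g⁻¹) := fun g φ => rfl
  have hA1 : ∀ z, (∃ μ : ℂ, ∀ v, ρ z v = μ • v) → Ad z = 1 := by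
    rintro z ⟨μ, hμ⟩
    ext φ v
    rw [hAd]
    simp only [Module.End.mul_apply, Module.End.one_apply]
    rw [hμ, ← map_smul, ← hμ, ← Module.End.mul_apply (ρ z), ← map_mul]
    simp
  have hA2 : ∀ z, Ad z = 1 → ∀ φ, ρ z * φ = φ * ρ z := fun z hz φ => by
    have := congrArg (fun F => F (φ * ρ z)) hz
    simp only [hAd, Module.End.one_apply] at this
    rwa [mul_assoc, ← map_mul, mul_inv_cancel, map_one, mul_one] at this
  have hsq : (finrank ℂ (Module.End ℂ U) : ℝ) < d ^ 2 := by
    rw [Module.finrank_linearMap, Nat.cast_mul, sq]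
    exact mul_lt_mul'' hfin hfin (Nat.cast_nonneg _) (Nat.cast_nonneg _)
  have hsc : ∀ z ∈ π.ker, ∃ μ : ℂ, ∀ v, ρ z v = μ • v := by
    refine down π.ker (fun V => ∀ z ∈ V, ∃ μ : ℂ, ∀ v, ρ z v = μ • v) ?_ fun V hV ih => ?_
    · intro z hz
      rw [Subgroup.mem_bot] at hz
      exact ⟨1, by simp [hz]⟩
    have b1 := weights_fixed hI Ad hsq V fun v hv w hw => by
      rw [← commutatorElement_eq_one_iff_mul_comm' Ad]
      exact hA1 _ (ih _ (Subgroup.commutator_mem_commutator hv hw))
    intro z hz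
    have b2 : ∀ a : G, ∀ φ, ρ ⁅a, z⁆ * φ = φ * ρ ⁅a, z⁆ := fun a =>
      hA2 _ (b1 _ (Subgroup.commutator_mem_commutator (Subgroup.mem_top a) hz))
    let f : G →* Module.End ℂ U :=
      { toFun := fun a => ρ ⁅a, z⁆
        map_one' := by simp
        map_mul' := fun a b => by
          have : ⁅a * b, z⁆ = a * ⁅b, z⁆ * a⁻¹ * ⁅a, z⁆ := by
            simp only [commutatorElement_def]; group
          rw [this, map_mul, map_mul, map_mul, ← b2 b, mul_assoc (ρ ⁅b, z⁆), ← map_mul,
            mul_inv_cancel, map_one, mul_one, b2] }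
    have b3 := perfect_triv hG f fun a b => b2 a _
    refine hS (ρ z) fun i u => ?_
    have b4 : ρ i * ρ z = ρ z * ρ i := (commutatorElement_eq_one_iff_mul_comm' ρ _ _).1 (b3 i)
    rw [← Module.End.mul_apply, ← b4, Module.End.mul_apply]
  exact rep_triv_ext hQ π hπ hG ρ hfin hsc w

/-- The extension is quasirandom. -/
lemma qr_ext [Finite G] [Finite Q] (hG : commutator G = ⊤) (π : G →* Q)
    (hπ : Function.Surjective π) [Group.IsSolvable π.ker] {d : ℝ} (hQ : QR Q (d ^ 2)) : QR G d := by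
  intro n hn ρ₀ g
  let σ : G →* Module.End ℂ (Fin n → ℂ) :=
    (Matrix.toLinAlgEquiv' (R := ℂ) (n := Fin n)).toMulEquiv.toMonoidHom.comp
      ((Units.coeHom _).comp ρ₀)
  have h1 : σ g = 1 := by
    refine triv_of_schur σ ⊤ ⊤ (fun U _ hU hS => ?_) g (Subgroup.mem_top g)
    let ρ : G →* Module.End ℂ U :=
      { toFun := fun g => (σ g).restrict (hU ⟨g, Subgroup.mem_top g⟩)
        map_one' := by ext v x; simp
        map_mul' := fun a b => by ext v x; simp }
    have hfin : (finrank ℂ U : ℝ) < d := by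
      refine lt_of_le_of_lt ?_ hn
      exact_mod_cast (Submodule.finrank_le U).trans (by simp)
    intro w _ u hu
    have := irr_triv hG π hπ hQ ρ hfin (fun φ hφ => hS φ fun i u => hφ i u) w
    exact congrArg Subtype.val (congrArg (fun F : Module.End ℂ U => F ⟨u, hu⟩) this)
  ext1
  apply (Matrix.toLinAlgEquiv' (R := ℂ) (n := Fin n)).injective
  rw [Units.val_one, map_one]
  exact h1

end Pool.Agent.Lib.MP_e18f8a_al.QB
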