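import Pool.Agent.Lib.MP_e18f8a_al.QRep

/-!
Twirled mixing over an abelian normal subgroup.
-/

open scoped Pointwise
open Finset Module

namespace Pool.Agent.Lib.MP_e18f8a_al.QB

variable {C : Type*} [Group C] [Fintype C] [DecidableEq C]

omit [Group C] [DecidableEq C] in
/-- The extremal subspace of any operator. -/
lemma extremal' (Tm : Module.End ℂ (EuclideanSpace ℂ C)) (f₀ : EuclideanSpace ℂ C)
    (h0 : ∑ x, f₀ x = 0) (hf₀ : f₀ ≠ 0) :
    ∃ (lam : ℝ) (W : Submodule ℂ (EuclideanSpace ℂ C)), W ≠ ⊥ ∧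
      (∀ v, v ∈ W ↔ ∑ x, v x = 0 ∧ ‖Tm v‖ ^ 2 = lam * ‖v‖ ^ 2) ∧
      ∀ f : EuclideanSpace ℂ C, ∑ x, f x = 0 → ‖Tm f‖ ^ 2 ≤ lam * ‖f‖ ^ 2 := by
  let S : Set (EuclideanSpace ℂ C) := {f | ∑ x, f x = 0} ∩ Metric.sphere 0 1
  have hS : IsCompact S := by
    refine (isCompact_sphere 0 1).inter_left (isClosed_eq ?_ continuous_const)
    fun_prop
  have hsc : ∀ f : EuclideanSpace ℂ C, ∑ x, f x = 0 → f ≠ 0 → ((‖f‖⁻¹ : ℝ) : ℂ) • f ∈ S := by
    intro f hf hne
    refine ⟨?_, ?_⟩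
    · simp [← mul_sum, hf]
    · simp [norm_smul, hne]
  have hcont : Continuous fun f : EuclideanSpace ℂ C => ‖Tm f‖ ^ 2 :=
    (Tm.continuous_of_finiteDimensional.norm).pow 2
  obtain ⟨v₀, hv₀, hmax⟩ := hS.exists_isMaxOn ⟨_, hsc f₀ h0 hf₀⟩ hcont.continuousOn
  set lam := ‖Tm v₀‖ ^ 2 with hlam
  have hv1 : ‖v₀‖ = 1 := by simpa using hv₀.2
  have hle : ∀ f : EuclideanSpace ℂ C, ∑ x, f x = 0 → ‖Tm f‖ ^ 2 ≤ lam * ‖f‖ ^ 2 := by
    intro f hf
    by_cases hne : f = 0
    · simp [hne]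
    have h1 : ‖Tm (((‖f‖⁻¹ : ℝ) : ℂ) • f)‖ ^ 2 ≤ lam := hmax (hsc f hf hne)
    have hp : 0 < ‖f‖ := norm_pos_iff.2 hne
    rw [map_smul, norm_smul, Complex.norm_real, norm_inv, norm_norm, mul_pow, inv_pow,
      inv_mul_le_iff₀ (by positivity)] at h1
    linarith
  let W : Submodule ℂ (EuclideanSpace ℂ C) :=
    { carrier := {v | ∑ x, v x = 0 ∧ ‖Tm v‖ ^ 2 = lam * ‖v‖ ^ 2}
      zero_mem' := by simp
      smul_mem' := fun c v hv => ⟨by simp [← mul_sum, hv.1], by
        rw [map_smul, norm_smul, norm_smul, mul_pow, mul_pow, hv.2]; ring⟩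
      add_mem' := fun {u v} hu hv => by
        have s1 : ∑ x, (u + v) x = 0 := by simp [sum_add_distrib, hu.1, hv.1]
        have s2 : ∑ x, (u - v) x = 0 := by simp [sum_sub_distrib, hu.1, hv.1]
        refine ⟨s1, le_antisymm (hle _ s1) ?_⟩
        have p1 := parallelogram_law_with_norm ℂ u v
        have p2 := parallelogram_law_with_norm ℂ (Tm u) (Tm v)
        have p3 := hle _ s2
        rw [map_sub] at p3
        rw [map_add]
        have q1 := hu.2
        have q2 := hv.2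
        have : lam * ‖u + v‖ ^ 2 = lam * (2 * (‖u‖ ^ 2 + ‖v‖ ^ 2)) - lam * ‖u - v‖ ^ 2 := by
          rw [← mul_sub]; congr 1; nlinarith
        nlinarith }
  refine ⟨lam, W, fun h => ?_, fun v => Iff.rfl, hle⟩
  have : v₀ ∈ W := ⟨hv₀.1, by rw [hv1]; simp [hlam]⟩
  rw [h, Submodule.mem_bot] at this
  simp [this] at hv1

/-- The averaging operator of a family. -/
noncomputable def TF {ι : Type*} [Fintype ι] (e : ι → C) : Module.End ℂ (EuclideanSpace ℂ C) where
  toFun f := WithLp.toLp 2 fun x => ∑ i, f (e i * x)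
  map_add' f g := by ext x; simp [sum_add_distrib]
  map_smul' c f := by ext x; simp [mul_sum]

omit [Fintype C] [DecidableEq C] in
lemma TF_apply {ι : Type*} [Fintype ι] (e : ι → C) (f : EuclideanSpace ℂ C) (x : C) :
    TF e f x = ∑ i, f (e i * x) := rfl

/-- Left translation. -/
noncomputable def Lf (g : C) : Module.End ℂ (EuclideanSpace ℂ C) where
  toFun f := WithLp.toLp 2 fun y => f (g * y)
  map_add' _ _ := rfl
  map_smul' _ _ := rfl

omit [Fintype C] [DecidableEq C] in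
lemma Lf_apply (g : C) (f : EuclideanSpace ℂ C) (y : C) : Lf g f y = f (g * y) := rfl

omit [DecidableEq C] in
lemma norm_Lf (g : C) (f : EuclideanSpace ℂ C) : ‖Lf g f‖ ^ 2 = ‖f‖ ^ 2 := by
  rw [EuclideanSpace.norm_sq_eq, EuclideanSpace.norm_sq_eq]
  exact Fintype.sum_equiv (Equiv.mulLeft g) _ _ fun y => rfl

omit [DecidableEq C] in
lemma sum_Lf (g : C) (f : EuclideanSpace ℂ C) : ∑ x, Lf g f x = ∑ x, f x :=
  Fintype.sum_equiv (Equiv.mulLeft g) _ _ fun _ => rfl

variable {Q : Type*} [Group Q] [Fintype Q] [DecidableEq Q]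

/-- The operator bound for the twirled section. -/
lemma tw_bound (p : C →* Q) (s : Q → C) (hs : ∀ q, p (s q) = q)
    (hc : ∀ v w, p v = 1 → p w = 1 → v * w = w * v) {d : ℝ} (hd : QR C d)
    (f : EuclideanSpace ℂ C) (hf : ∑ x, f x = 0) :
    d * ‖TF (fun i : p.ker × Q => (i.1 : C)⁻¹ * s i.2 * i.1) f‖ ^ 2 ≤
      Fintype.card C * Fintype.card (p.ker × Q) * ‖f‖ ^ 2 := by
  set e := fun i : p.ker × Q => (i.1 : C)⁻¹ * s i.2 * i.1 with he
  by_cases hf0 : f = 0
  · simp [hf0]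
  obtain ⟨lam, W, hW, hmem, hle⟩ := extremal' (TF e) f hf hf0
  have hTR : ∀ g v, TF e (R g v) = R g (TF e v) := fun g v => by
    ext x
    simp [TF_apply, R_apply, mul_assoc]
  have hTL : ∀ (z : p.ker) v, TF e (Lf (z : C) v) = Lf (z : C) (TF e v) := fun z v => by
    ext x
    simp only [TF_apply, Lf_apply]
    refine Fintype.sum_equiv ((Equiv.mulRight z⁻¹).prodCongr (Equiv.refl Q)) _ _ fun i => ?_
    simp only [he, Equiv.prodCongr_apply, Prod.map_fst, Prod.map_snd, Equiv.coe_mulRight,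
      Equiv.coe_refl, id, Subgroup.coe_mul, Subgroup.coe_inv]
    group
  let S : C ⊕ p.ker → Module.End ℂ (EuclideanSpace ℂ C) := Sum.elim (fun g => R g) fun z => Lf (z : C)
  obtain ⟨U, hUW, hU, hUinv, hUZ⟩ := exists_schur S W hW (by
    rintro (g | z) v hv
    · refine (hmem _).2 ⟨?_, ?_⟩
      · exact (sum_R g v).trans ((hmem _).1 hv).1
      · change ‖TF e (R g v)‖ ^ 2 = lam * ‖R g v‖ ^ 2
        rw [hTR, norm_R, norm_R]; exact ((hmem _).1 hv).2
    · refine (hmem _).2 ⟨?_, ?_⟩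
      · exact (sum_Lf _ v).trans ((hmem _).1 hv).1
      · change ‖TF e (Lf (z : C) v)‖ ^ 2 = lam * ‖Lf (z : C) v‖ ^ 2
        rw [hTL, norm_Lf, norm_Lf]; exact ((hmem _).1 hv).2)
  have hfp : 0 < ‖f‖ ^ 2 := by positivity
  have hdim : d ≤ finrank ℂ U := by
    by_contra h
    push Not at h
    let ρ : C →* Module.End ℂ U :=
      { toFun := fun g => (R g).restrict (hUinv (Sum.inl g))
        map_one' := by ext v x; simp
        map_mul' := fun a b => by ext v x; simp [R_apply] }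
    have h1 := rep_triv hd ρ h
    apply hU
    rw [eq_bot_iff]
    intro v hv
    have h2 : ∀ g, v g = v 1 := fun g => by
      have := congrArg (fun F : Module.End ℂ U => ((F ⟨v, hv⟩ : U) : EuclideanSpace ℂ C) 1) (h1 g)
      simpa [ρ, R_apply] using this
    have h3 := ((hmem _).1 (hUW hv)).1
    rw [sum_congr rfl fun g _ => h2 g] at h3
    simp only [sum_const, card_univ, nsmul_eq_mul, mul_eq_zero, Nat.cast_eq_zero,
      Fintype.card_ne_zero, false_or] at h3
    rw [Submodule.mem_bot]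
    ext g
    rw [h2, h3]; rfl
  have a1 : ∀ v ∈ U, ∀ z, p z = 1 → ∀ y, ‖v (z * y)‖ ^ 2 = ‖v y‖ ^ 2 := by
    intro v hv z hz y
    obtain ⟨μ, hμ⟩ := hUZ ((Lf z).restrict (hUinv (Sum.inr ⟨z, hz⟩))) (by
      rintro (g | w) u
      · ext x
        change u.1 (z * x * g) = u.1 (z * (x * g))
        rw [mul_assoc]
      · ext x
        change u.1 (w * (z * x)) = u.1 (z * (w * x))
        rw [← mul_assoc, ← mul_assoc, hc _ _ hz w.2])
    have b0 : Lf z v = μ • v := congrArg Subtype.val (hμ ⟨v, hv⟩)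
    by_cases hv0 : v = 0
    · simp [hv0]
    have b1 := norm_Lf z v
    rw [b0, norm_smul, mul_pow] at b1
    have b2 : ‖μ‖ ^ 2 = 1 := by
      have : 0 < ‖v‖ ^ 2 := by positivity
      nlinarith
    have b3 : v (z * y) = μ * v y := by rw [← Lf_apply, b0]; rfl
    rw [b3, norm_mul, mul_pow, b2, one_mul]
  have hpt : ∀ x, ∀ v ∈ U, ‖TF e v x‖ ^ 2 ≤ Fintype.card (p.ker × Q) * ‖v‖ ^ 2 := by
    intro x v hv
    have a2 : ∑ i, ‖v (e i * x)‖ ^ 2 ≤ ‖v‖ ^ 2 := by
      have b1 : ∀ i ∈ (univ : Finset (p.ker × Q)),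
          ‖v (e i * x)‖ ^ 2 = ‖v (i.1 * s i.2 * x)‖ ^ 2 := fun i _ => by
        have c1 : e i * x = ((i.1 : C)⁻¹ * (s i.2 * i.1 * (s i.2)⁻¹) * (i.1 : C)⁻¹) *
            (i.1 * s i.2 * x) := by simp only [he]; group
        have c2 : p i.1 = 1 := i.1.2
        rw [c1, a1 v hv _ (by simp [c2])]
      have b2 : Function.Injective fun i : p.ker × Q => (i.1 : C) * s i.2 * x := by
        intro w w' h
        have c1 := congrArg p h
        have c2 : p w.1 = 1 := w.1.2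
        have c3 : p w'.1 = 1 := w'.1.2
        simp only [map_mul, c2, c3, one_mul, hs, mul_left_inj] at c1
        simp only [c1, mul_left_inj] at h
        exact Prod.ext (Subtype.ext h) c1
      rw [sum_congr rfl b1, ← sum_image (f := fun y => ‖v y‖ ^ 2) b2.injOn,
        EuclideanSpace.norm_sq_eq]
      exact sum_le_sum_of_subset_of_nonneg (subset_univ _) fun _ _ _ => sq_nonneg _
    have a3 : ‖TF e v x‖ ^ 2 ≤ Fintype.card (p.ker × Q) * ∑ i, ‖v (e i * x)‖ ^ 2 := by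
      refine le_trans ?_ sq_sum_le_card_mul_sum_sq
      rw [TF_apply]
      gcongr
      exact norm_sum_le _ _
    exact a3.trans (by gcongr)
  let b := stdOrthonormalBasis ℂ U
  have htr : lam * finrank ℂ U ≤ Fintype.card C * Fintype.card (p.ker × Q) := by
    have c1 : ∑ i, ‖TF e (b i)‖ ^ 2 = lam * finrank ℂ U := by
      rw [sum_congr rfl fun i _ => ((hmem _).1 (hUW (b i).2)).2]
      have : ∀ i, ‖(b i : EuclideanSpace ℂ C)‖ = 1 := fun i => b.orthonormal.1 i
      simp [this, mul_comm]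
    rw [← c1, sum_congr rfl fun i _ => EuclideanSpace.norm_sq_eq (TF e (b i)), sum_comm]
    have c2 : ∀ x ∈ (univ : Finset C), ∑ i, ‖TF e (b i) x‖ ^ 2 ≤ Fintype.card (p.ker × Q) :=
      fun x _ => sum_sq_le b ((EuclideanSpace.projₗ x).comp ((TF e).comp U.subtype))
        (by positivity) fun v => hpt x v v.2
    refine (sum_le_sum c2).trans (le_of_eq ?_)
    rw [sum_const, card_univ, nsmul_eq_mul]
  calc d * ‖TF e f‖ ^ 2 ≤ finrank ℂ U * ‖TF e f‖ ^ 2 := by gcongr
    _ ≤ finrank ℂ U * (lam * ‖f‖ ^ 2) := by gcongr; exact hle f hf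
    _ = lam * finrank ℂ U * ‖f‖ ^ 2 := by ring
    _ ≤ _ := by gcongr

/-- From an operator bound to density. -/
lemma dense_of_bound {ι : Type*} [Fintype ι] [Nonempty ι] (e : ι → C) {d B : ℝ}
    (hb : ∀ f : EuclideanSpace ℂ C, ∑ x, f x = 0 → d * ‖TF e f‖ ^ 2 ≤ B * ‖f‖ ^ 2) (hd : 0 ≤ d)
    (hB : 0 ≤ B) (A F : Finset C) (hF : ∀ i, ∀ a ∈ A, (e i)⁻¹ * a ∈ F)
    (h : 4 * (F.card : ℝ) * B < d * (Fintype.card ι : ℝ) ^ 2 * A.card) :
    Fintype.card C < 2 * F.card := by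
  by_contra hF0
  push Not at hF0
  have hF' : 2 * (F.card : ℝ) ≤ Fintype.card C := by exact_mod_cast hF0
  set n : ℝ := (Fintype.card C : ℝ) with hn
  set m : ℝ := (A.card : ℝ) with hm
  set k : ℝ := (Fintype.card ι : ℝ) with hk
  have hn0 : 0 < n := by rw [hn]; exact_mod_cast Fintype.card_pos
  have hk0 : 0 < k := by rw [hk]; exact_mod_cast Fintype.card_pos
  have hm0 : 0 ≤ m := Nat.cast_nonneg _
  have hmp : 0 < m := by
    rcases hm0.eq_or_lt with h0 | h0
    · rw [← h0] at h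
      have : (0 : ℝ) ≤ 4 * (F.card : ℝ) * B := by positivity
      nlinarith
    · exact h0
  let g : C → ℝ := fun y => (if y ∈ A then 1 else 0) - m / n
  let f : EuclideanSpace ℂ C := WithLp.toLp 2 fun y => (g y : ℂ)
  have hind : ∑ y : C, (if y ∈ A then (1 : ℝ) else 0) = m := by simp [hm]
  have hg : ∑ y, g y = 0 := by
    simp only [g, sum_sub_distrib, hind, sum_const, card_univ, nsmul_eq_mul, ← hn]
    field_simp
    ring
  have hf : ∑ x, f x = 0 := by
    have : ∑ x, f x = ((∑ y, g y : ℝ) : ℂ) := by simp [f]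
    rw [this, hg]; rfl
  have hnf : ‖f‖ ^ 2 ≤ m := by
    rw [EuclideanSpace.norm_sq_eq]
    have : ∀ y ∈ (univ : Finset C), ‖f y‖ ^ 2 =
        (if y ∈ A then 1 else 0) - 2 * (m / n) * g y - (m / n) ^ 2 := fun y _ => by
      simp only [f, Complex.norm_real, Real.norm_eq_abs, sq_abs, g]
      split_ifs <;> ring
    rw [sum_congr rfl this, sum_sub_distrib, sum_sub_distrib, ← mul_sum, hg, hind]
    have : 0 ≤ ∑ _y : C, (m / n) ^ 2 := sum_nonneg fun _ _ => sq_nonneg _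
    linarith
  let r : C → ℝ := fun x => ∑ i, g (e i * x)
  have hT : ∀ x, ‖TF e f x‖ ^ 2 = r x ^ 2 := fun x => by
    have : TF e f x = (r x : ℂ) := by simp [TF_apply, f, r]
    rw [this, Complex.norm_real, Real.norm_eq_abs, sq_abs]
  have hr : ∑ x ∈ F, r x = k * m - F.card * (k * (m / n)) := by
    have e1 : ∀ i ∈ (univ : Finset ι), ∑ x ∈ F, (if e i * x ∈ A then (1 : ℝ) else 0) = m := by
      intro i _
      rw [← hind, ← Fintype.sum_equiv (Equiv.mulLeft (e i))
        (fun x => if e i * x ∈ A then (1 : ℝ) else 0) _ fun _ => rfl]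
      refine sum_subset (subset_univ _) fun x _ hx => if_neg fun hex => hx ?_
      simpa using hF i _ hex
    simp only [r, g, sum_sub_distrib]
    rw [sum_comm, sum_congr rfl e1]
    simp [← hk]
  have hcs : (∑ x ∈ F, r x) ^ 2 ≤ F.card * ‖TF e f‖ ^ 2 := by
    refine sq_sum_le_card_mul_sum_sq.trans ?_
    gcongr
    rw [EuclideanSpace.norm_sq_eq, sum_congr rfl fun x _ => hT x]
    exact sum_le_sum_of_subset_of_nonneg (subset_univ _) fun _ _ _ => sq_nonneg _
  have hop := hb f hf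
  have h1 : k * m / 2 ≤ ∑ x ∈ F, r x := by
    rw [hr]
    have : F.card * (k * (m / n)) ≤ k * m / 2 := by
      rw [show F.card * (k * (m / n)) = (2 * F.card) * (k * m) / (2 * n) by field_simp,
        div_le_div_iff₀ (by positivity) (by positivity)]
      nlinarith [mul_pos hk0 hmp]
    linarith
  have h2 : (k * m / 2) ^ 2 ≤ F.card * ‖TF e f‖ ^ 2 := le_trans (by gcongr) hcs
  have h3 : d * (k * m / 2) ^ 2 ≤ F.card * (B * m) :=
    calc d * (k * m / 2) ^ 2 ≤ d * (F.card * ‖TF e f‖ ^ 2) := by gcongr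
      _ = F.card * (d * ‖TF e f‖ ^ 2) := by ring
      _ ≤ F.card * (B * ‖f‖ ^ 2) := by gcongr
      _ ≤ _ := by gcongr
  nlinarith

/-- Twirled mixing. -/
lemma twirl (p : C →* Q) (s : Q → C) (hs : ∀ q, p (s q) = q)
    (hc : ∀ v w, p v = 1 → p w = 1 → v * w = w * v) {d : ℝ} (hd : QR C d) (A F : Finset C)
    (hF : ∀ z, p z = 1 → ∀ q, ∀ a ∈ A, (z⁻¹ * s q * z)⁻¹ * a ∈ F)
    (h : 4 * (F.card : ℝ) < d * A.card) : Fintype.card C < 2 * F.card := by
  have hk : (Fintype.card C : ℝ) ≤ Fintype.card (p.ker × Q) := by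
    exact_mod_cast Fintype.card_le_of_surjective (fun i : p.ker × Q => (i.1 : C) * s i.2) fun g =>
      ⟨(⟨g * (s (p g))⁻¹, by simp [MonoidHom.mem_ker, hs]⟩, p g), by simp⟩
  have hn : (0 : ℝ) < Fintype.card C := by exact_mod_cast Fintype.card_pos
  have hd0 : 0 ≤ d := by
    by_contra h0
    push Not at h0
    have : (0 : ℝ) ≤ A.card := Nat.cast_nonneg _
    have : (0 : ℝ) ≤ F.card := Nat.cast_nonneg _
    nlinarith
  refine dense_of_bound _ (tw_bound p s hs hc hd) hd0 (by positivity) A F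
    (fun i a ha => hF _ i.1.2 _ a ha) ?_
  calc 4 * (F.card : ℝ) * (Fintype.card C * Fintype.card (p.ker × Q))
      ≤ 4 * (F.card : ℝ) * (Fintype.card (p.ker × Q) * Fintype.card (p.ker × Q)) := by gcongr
    _ < d * A.card * (Fintype.card (p.ker × Q) * Fintype.card (p.ker × Q)) := by
        have := hn.trans_le hk
        gcongr
    _ = _ := by ring

end Pool.Agent.Lib.MP_e18f8a_al.QB
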