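import Pool.Agent.Lib.MP_e18f8a_al.QEx

/-!
Kernels that are solvable by small fibres.
-/

open scoped Pointwise commutatorElement
open Finset Module

namespace Pool.Agent.Lib.MP_e18f8a_al.QB

variable {G Q : Type*} [Group G] [Group Q]

lemma exists_over' [DecidableEq G] [Finite Q] {K M d : ℝ} {A : Finset G}
    (hA : IsApproximateSubgroup K (A : Set G)) (hM : 1 ≤ M) (hd : 64 * K ^ 330 * M ≤ d)
    (Γ : Subgroup G) (π : Γ →* Q) (hQ : QR Q (d ^ 2))
    (h2 : (Nat.card Q : ℝ) ≤ M * (π '' {g : Γ | (g : G) ∈ A}).ncard)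
    (N : Subgroup Γ) [N.Normal] [Group.IsSolvable N] (hN : N ≤ π.ker)
    (h3 : ((QuotientGroup.mk' N '' {g : Γ | (g : G) ∈ (A : Set G) ^ 2}).ncard : ℝ) ≤
      M * Nat.card Q) :
    ∃ L : Subgroup G, QR L d ∧ (L : Set G) ⊆ (A : Set G) ^ 8 ∧
      ∀ q, ∃ g : Γ, (g : G) ∈ L ∧ π g = q := by
  classical
  have := Fintype.ofFinite Q
  have hK := hA.one_le
  have hKM : 0 < K ^ 330 * M := by positivity
  obtain ⟨c1, c2, -⟩ := const_le hK hM (d := d) (by nlinarith)
  have hP : (π '' {g : Γ | (g : G) ∈ A}).ncard = ((A.subtype (· ∈ Γ)).image π).card := by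
    rw [← Set.ncard_coe_finset]
    congr 1
    ext q
    simp
  rw [Nat.card_eq_fintype_card, hP] at h2
  obtain ⟨cov, I, h0, hg, -⟩ := data_of hA hM Γ π hQ c1 h2
  set T := (A ^ 2).subtype (· ∈ Γ) with hT
  have hTm : ∀ t : Γ, t ∈ T ↔ (t : G) ∈ (A : Set G) ^ 2 := fun t => by
    rw [hT, mem_subtype, ← mem_coe, coe_pow]
  have hTs : (T : Set Γ) = Γ.subtype ⁻¹' ((A : Set G) ^ 2) := Set.ext hTm
  let mk := QuotientGroup.mk' N
  let π' : Γ ⧸ N →* Q := QuotientGroup.lift N π hN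
  have hB : IsApproximateSubgroup (K ^ 3) (T.image mk : Set (Γ ⧸ N)) := by
    rw [coe_image, hTs]
    exact (approx_sub hA Γ.subtype Γ.subtype_injective).image mk
  have hc : (Fintype.card Q : ℝ) ≤ 2 *
      (((T.image mk).subtype (· ∈ (⊤ : Subgroup (Γ ⧸ N)))).image (π'.comp (Subgroup.subtype ⊤))).card := by
    obtain ⟨V, hVT, -, hV⟩ := hg
    have : V.image π ⊆ ((T.image mk).subtype (· ∈ (⊤ : Subgroup (Γ ⧸ N)))).image
        (π'.comp (Subgroup.subtype ⊤)) := fun q hq => by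
      obtain ⟨v, hv, rfl⟩ := mem_image.1 hq
      exact mem_image.2 ⟨⟨mk v, trivial⟩, mem_subtype.2 (mem_image_of_mem _ (hVT hv)), rfl⟩
    exact_mod_cast hV.le.trans (Nat.mul_le_mul_left _ (card_le_card this))
  have h42 : K ^ 42 ≤ K ^ 330 := pow_le_pow_right₀ hK (by norm_num)
  obtain ⟨cov', I', h0', hg', h1'⟩ := data_of (M := 2 * M) hB (by linarith) ⊤
    (π'.comp (Subgroup.subtype ⊤)) hQ (by
      have a1 : 64 * (K ^ 42 * M) ≤ d := by nlinarith
      have a2 : 0 < K ^ 42 * M := by positivity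
      have a3 : (64 * (K ^ 42 * M)) ^ 2 ≤ d ^ 2 := by gcongr
      have a4 : 8 * (9 * (K ^ 3) ^ 14 * (2 * M)) ^ 2 = 2592 * (K ^ 42 * M) ^ 2 := by ring
      nlinarith) (hc.trans (by gcongr; linarith))
  obtain ⟨C, -, -, hsol, hon⟩ := exists_sub h0' hg' (Or.inr (h1' (by
    have : ((T.image mk).card : ℝ) ≤ M * Fintype.card Q := by
      rw [← Nat.card_eq_fintype_card, ← Set.ncard_coe_finset, coe_image, hTs]
      exact h3
    nlinarith)))
  let Γ₁ := (C.map (Subgroup.subtype ⊤)).comap mk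
  obtain ⟨L, e1, e2, e3⟩ : ∃ L : Subgroup G, QR L d ∧ (L : Set G) ⊆ (A : Set G) ^ 8 ∧
      ∀ q, ∃ g : Γ₁, ((g : Γ) : G) ∈ L ∧ π g = q := by
    have hs1 : Group.IsSolvable (π.comp Γ₁.subtype).ker := by
      let ψ : ((π'.comp (Subgroup.subtype ⊤)).comp C.subtype).ker →* Γ ⧸ N :=
        ((Subgroup.subtype ⊤).comp C.subtype).comp (Subgroup.subtype _)
      have : Group.IsSolvable ψ.range := Group.isSolvable_of_surjective ψ.rangeRestrict_surjective
      let φ : (π.comp Γ₁.subtype).ker →* ψ.range :=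
        ((mk.comp Γ₁.subtype).comp (Subgroup.subtype _)).codRestrict _ fun x => by
          obtain ⟨c, hc, hcx⟩ := x.1.2
          refine ⟨⟨⟨c, hc⟩, ?_⟩, hcx⟩
          change π' (c : Γ ⧸ N) = 1
          rw [show (c : Γ ⧸ N) = mk x.1 from hcx]
          exact x.2
      let θ : φ.ker →* N := ((Γ₁.subtype.comp (Subgroup.subtype _)).comp φ.ker.subtype).codRestrict _
        fun x => (QuotientGroup.eq_one_iff _).1 (congrArg Subtype.val x.2)
      have : Group.IsSolvable φ.ker := Group.isSolvable_of_isSolvable_injective (f := θ)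
        fun x y h => Subtype.ext (Subtype.ext (Subtype.ext (congrArg (fun z : N => (z : Γ)) h)))
      exact Group.isSolvable_of_ker_le_range φ.ker.subtype φ (by simp)
    have hl : ∀ q, ∃ g ∈ Γ₁, π g = q ∧ g ∈ (T : Set Γ) ^ 4 := fun q => by
      obtain ⟨a, b, ha, hb, hab⟩ := hon q
      have a1 := pmul (m := 2) (n := 2) (S := (T.image mk : Set (Γ ⧸ N)))
        (by rw [← coe_pow]; exact mem_subtype.1 ha) (by rw [← coe_pow]; exact mem_subtype.1 hb)
      rw [coe_image, ← Set.image_pow] at a1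
      obtain ⟨g, hg, hgm⟩ := a1
      refine ⟨g, ⟨(a * b : C), (a * b).2, hgm.symm⟩, ?_, hg⟩
      rw [← hab]
      exact congrArg π' hgm
    choose s hs1' hs2 hs3 using hl
    obtain ⟨cov₂, I₂, hI₂, hcI₂, hcov₂⟩ := exists_cov hA 6
    have hs8 : ∀ q, (s q : G) ∈ (A : Set G) ^ 8 := fun q => by
      have a1 := Set.mem_image_of_mem Γ.subtype (hs3 q)
      rw [Set.image_pow, hTs] at a1
      have a2 := Set.pow_subset_pow_left (Set.image_preimage_subset _ _) a1
      rwa [← pow_mul] at a2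
    obtain ⟨V', hV', hcard⟩ := step π h0.mixQ (univ.image s) (fun g => cov₂ g) I₂ (fun v hv => by
      obtain ⟨q, -, rfl⟩ := mem_image.1 hv
      exact hcI₂ _ (hs8 q)) (hI₂.trans (by
        have a1 : K ^ (6 + 1) ≤ K ^ 14 := pow_le_pow_right₀ hK (by norm_num)
        have a2 : 0 < K ^ 14 := by positivity
        nlinarith)) (by
      have a1 : (univ.image s).image π = univ := by
        rw [image_image]
        exact image_univ_of_surjective fun q => ⟨q, hs2 q⟩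
      have := Fintype.card_pos (α := Q)
      rw [a1, card_univ]
      omega)
    have hg1 : Good (π.comp Γ₁.subtype) (T.subtype (· ∈ Γ₁)) Set.univ := by
      refine ⟨_, Subset.rfl, fun _ _ => trivial, hcard.trans_le
        (Nat.mul_le_mul_left _ (card_le_card fun q hq => ?_))⟩
      obtain ⟨w, hw, rfl⟩ := mem_image.1 hq
      obtain ⟨a, ha, b, hb, hab, rfl⟩ := hV' w hw
      obtain ⟨x, -, rfl⟩ := mem_image.1 ha
      obtain ⟨y, -, rfl⟩ := mem_image.1 hb
      exact mem_image.2 ⟨⟨_, mul_mem (inv_mem (hs1' x)) (hs1' y)⟩,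
        mem_subtype.2 ((hTm _).2 (hcov₂ _ (hs8 x) _ (hs8 y) hab)), rfl⟩
    obtain ⟨C₁, hC, hcl, hsol₁, hon₁⟩ := exists_sub (h0.sub Γ₁) hg1 (Or.inl hs1)
    have hTm₁ : ∀ t : Γ₁, t ∈ T.subtype (· ∈ Γ₁) ↔ ((t : Γ) : G) ∈ (A : Set G) ^ 2 := fun t => by
      rw [mem_subtype, hTm]
    let f : C₁ →* G := (Γ.subtype.comp Γ₁.subtype).comp C₁.subtype
    obtain ⟨e1, e2⟩ := engine_sub hA f
      ((Γ.subtype_injective.comp Γ₁.subtype_injective).comp C₁.subtype_injective) (by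
      convert hcl using 2
      ext x
      exact (hTm₁ _).symm) hC ((π.comp Γ₁.subtype).comp C₁.subtype) (fun q => by
      obtain ⟨a, b, ha, hb, hab⟩ := hon₁ q
      exact ⟨a, b, (hTm₁ _).1 ha, (hTm₁ _).1 hb, hab⟩) hQ c2
    refine ⟨f.range, e1, e2, fun q => ?_⟩
    obtain ⟨a, b, -, -, hab⟩ := hon₁ q
    exact ⟨a * b, ⟨a * b, rfl⟩, hab⟩
  refine ⟨L, e1, e2, fun q => ?_⟩
  obtain ⟨g, hg1, hg2⟩ := e3 q
  exact ⟨g, hg1, hg2⟩

end Pool.Agent.Lib.MP_e18f8a_al.QB
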