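import Mathlib

/-! Sampling from a set that depends on the translate: tails, near equality of averages. -/

open scoped Pointwise
open Finset

namespace Pool.Agent.Lib.MP_e18f8a_al.Six

lemma mgf {α : Type} (E : Finset α) (g : α → ℝ) (hg : ∀ y ∈ E, |g y| ≤ 1)
    (h0 : ∑ y ∈ E, g y = 0) (l : ℝ) (hl0 : 0 ≤ l) (hl : l ≤ 1) :
    ∑ y ∈ E, Real.exp (l * g y) ≤ E.card * Real.exp (l ^ 2) := by
  have h1 : ∀ y ∈ E, Real.exp (l * g y) ≤ (1 + l ^ 2) + l * g y := by
    intro y hy
    have ha : |l * g y| ≤ l := by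
      rw [abs_mul, abs_of_nonneg hl0]
      exact mul_le_of_le_one_right hl0 (hg y hy)
    have hb := Real.abs_exp_sub_one_sub_id_le (ha.trans hl)
    have hc : (l * g y) ^ 2 ≤ l ^ 2 := by
      rw [← sq_abs (l * g y)]
      exact pow_le_pow_left₀ (abs_nonneg _) ha 2
    have := (abs_le.mp hb).2
    linarith
  have h2 := Finset.sum_le_sum h1
  rw [Finset.sum_add_distrib, ← Finset.mul_sum, h0, Finset.sum_const, nsmul_eq_mul] at h2
  have h3 := Real.add_one_le_exp (l ^ 2)
  have h4 : (0 : ℝ) ≤ E.card := Nat.cast_nonneg _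
  nlinarith

lemma tail {α : Type} [DecidableEq α] (E : Finset α) (g : α → ℝ) (hg : ∀ y ∈ E, |g y| ≤ 1)
    (h0 : ∑ y ∈ E, g y = 0) (m : ℕ) (e : ℝ) (he0 : 0 ≤ e) (he : e ≤ 2) :
    (((Fintype.piFinset fun _ : Fin m => E).filter fun y => e * m < ∑ i, g (y i)).card : ℝ)
      ≤ (E.card : ℝ) ^ m * Real.exp (-(e ^ 2 * m / 4)) := by
  set T := (Fintype.piFinset fun _ : Fin m => E).filter fun y => e * m < ∑ i, g (y i) with hT
  have h1 : (T.card : ℝ) * Real.exp (e / 2 * (e * m))
      ≤ ∑ y ∈ Fintype.piFinset fun _ : Fin m => E, ∏ i, Real.exp (e / 2 * g (y i)) := by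
    calc (T.card : ℝ) * Real.exp (e / 2 * (e * m))
        = ∑ _y ∈ T, Real.exp (e / 2 * (e * m)) := by rw [Finset.sum_const, nsmul_eq_mul]
      _ ≤ ∑ y ∈ T, ∏ i, Real.exp (e / 2 * g (y i)) := by
          refine Finset.sum_le_sum fun y hy => ?_
          rw [← Real.exp_sum, ← Finset.mul_sum]
          exact Real.exp_le_exp.mpr
            (mul_le_mul_of_nonneg_left (Finset.mem_filter.mp hy).2.le (by linarith))
      _ ≤ _ := Finset.sum_le_sum_of_subset_of_nonneg (Finset.filter_subset _ _)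
          fun y _ _ => Finset.prod_nonneg fun i _ => (Real.exp_pos _).le
  rw [← Finset.prod_univ_sum (fun _ : Fin m => E) fun _ y => Real.exp (e / 2 * g y)] at h1
  have h2 := mgf E g hg h0 (e / 2) (by linarith) (by linarith)
  have h3 : ∏ _i : Fin m, ∑ y ∈ E, Real.exp (e / 2 * g y)
      ≤ (E.card * Real.exp ((e / 2) ^ 2)) ^ m := by
    rw [Finset.prod_const, Finset.card_univ, Fintype.card_fin]
    exact pow_le_pow_left₀ (Finset.sum_nonneg fun y _ => (Real.exp_pos _).le) h2 m
  have h4 := h1.trans h3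
  rw [mul_pow, ← Real.exp_nat_mul] at h4
  have h5 : Real.exp (m * (e / 2) ^ 2)
      = Real.exp (-(e ^ 2 * m / 4)) * Real.exp (e / 2 * (e * m)) := by
    rw [← Real.exp_add]; congr 1; ring
  rw [h5] at h4
  refine le_of_mul_le_mul_right (a := Real.exp (e / 2 * (e * m))) ?_ (Real.exp_pos _)
  rw [mul_assoc ((E.card : ℝ) ^ m)]
  exact h4

lemma pigeon {α β : Type} [DecidableEq β] (U : Finset α) (Ω : Finset β) (hΩ : Ω.Nonempty)
    (P : α → β → Prop) [∀ a b, Decidable (P a b)] (c : ℝ)
    (h : ∀ s ∈ U, c * Ω.card ≤ ((Ω.filter fun w => P s w).card : ℝ)) :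
    ∃ w ∈ Ω, c * U.card ≤ ((U.filter fun s => P s w).card : ℝ) := by
  have h1 : ∑ w ∈ Ω, ((U.filter fun s => P s w).card : ℝ)
      = ∑ s ∈ U, ((Ω.filter fun w => P s w).card : ℝ) := by
    simp only [Finset.card_filter, Nat.cast_sum]
    exact Finset.sum_comm
  refine Finset.exists_le_of_sum_le hΩ ?_
  rw [h1, Finset.sum_const, nsmul_eq_mul]
  have h2 := Finset.sum_le_sum h
  rw [Finset.sum_const, nsmul_eq_mul] at h2
  linarith

variable {G : Type} [Group G] [DecidableEq G]

/-- `Φ z - a ≤ Ψ (t z)` outside a set of at most `n` points -/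
def Near (Φ Ψ : G → ℝ) (t : G) (a n : ℝ) : Prop :=
  ∃ N : Finset G, (N.card : ℝ) ≤ n ∧ ∀ z, z ∉ N → Φ z - a ≤ Ψ (t * z)

lemma Near.trans {Φ Ψ Θ : G → ℝ} {t t' : G} {a a' n n' : ℝ} (h : Near Φ Ψ t a n)
    (h' : Near Ψ Θ t' a' n') : Near Φ Θ (t' * t) (a + a') (n + n') := by
  obtain ⟨N, hN, h⟩ := h
  obtain ⟨N', hN', h'⟩ := h'
  refine ⟨N ∪ N'.image fun w => t⁻¹ * w, ?_, fun z hz => ?_⟩
  · have h1 := Finset.card_union_le N (N'.image fun w => t⁻¹ * w)
    have h2 : (N'.image fun w => t⁻¹ * w).card ≤ N'.card := Finset.card_image_le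
    have h3 : ((N ∪ N'.image fun w => t⁻¹ * w).card : ℝ) ≤ N.card + N'.card := by
      exact_mod_cast h1.trans (Nat.add_le_add_left h2 _)
    linarith
  · rw [Finset.mem_union, not_or] at hz
    have h1 := h z hz.1
    have h2 := h' (t * z) fun hc => hz.2 (Finset.mem_image.mpr ⟨_, hc, by simp⟩)
    rw [mul_assoc]
    linarith

lemma near_pow {Φ : G → ℝ} {S : Finset G} {a n : ℝ} (h : ∀ t ∈ S, Near Φ Φ t a n) (k : ℕ) :
    ∀ t ∈ S ^ k, Near Φ Φ t (k * a) (k * n) := by
  induction k with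
  | zero =>
    intro t ht
    rw [pow_zero, Finset.mem_one] at ht
    exact ⟨∅, by simp, fun z _ => by simp [ht]⟩
  | succ k ih =>
    intro t ht
    rw [pow_succ', Finset.mem_mul] at ht
    obtain ⟨u, hu, v, hv, rfl⟩ := ht
    have := (ih v hv).trans (h u hu)
    convert this using 1 <;> (push_cast; ring)

/-- indicator -/
noncomputable def ind (W : Finset G) (z y : G) : ℝ := if y⁻¹ * z ∈ W then 1 else 0

/-- average over a set -/
noncomputable def avg (W E : Finset G) (z : G) : ℝ := (∑ y ∈ E, ind W z y) / E.card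

/-- average over a sample -/
noncomputable def emp (W : Finset G) {m : ℕ} (y : Fin m → G) (z : G) : ℝ :=
  (∑ i, ind W z (y i)) / m

/-- the sample represents the set -/
def Good (W E : Finset G) {m : ℕ} (y : Fin m → G) (e n : ℝ) : Prop :=
  (∀ i, y i ∈ E) ∧ Near (avg W E) (emp W y) 1 e n ∧ Near (emp W y) (avg W E) 1 e n

lemma ind_nonneg (W : Finset G) (z y : G) : 0 ≤ ind W z y := by
  unfold ind; split_ifs <;> norm_num

lemma ind_le (W : Finset G) (z y : G) : ind W z y ≤ 1 := by
  unfold ind; split_ifs <;> norm_num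

lemma avg_smul (W E : Finset G) (s z : G) : avg W (s • E) (s * z) = avg W E z := by
  unfold avg
  have hinj : Set.InjOn (fun x : G => s • x) E := fun a _ b _ h => mul_left_cancel (a := s) h
  rw [Finset.card_smul_finset, Finset.smul_finset_def, Finset.sum_image hinj]
  congr 1
  refine Finset.sum_congr rfl fun y _ => ?_
  simp [ind, mul_assoc]

lemma dev_count (W E : Finset G) (hE : E.Nonempty) (m : ℕ) (hm : 0 < m) (e : ℝ) (he0 : 0 ≤ e)
    (he : e ≤ 2) (z : G) :
    (((Fintype.piFinset fun _ : Fin m => E).filter fun y => e < |emp W y z - avg W E z|).card : ℝ)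
      ≤ 2 * ((E.card : ℝ) ^ m * Real.exp (-(e ^ 2 * m / 4))) := by
  have hc : (0 : ℝ) < E.card := by exact_mod_cast hE.card_pos
  have hm' : (0 : ℝ) < m := by exact_mod_cast hm
  have ha0 : 0 ≤ avg W E z := div_nonneg (Finset.sum_nonneg fun y _ => ind_nonneg W z y) hc.le
  have ha1 : avg W E z ≤ 1 := by
    unfold avg
    rw [div_le_one hc]
    have := Finset.sum_le_sum fun y (_ : y ∈ E) => ind_le W z y
    simpa using this
  have hg : ∀ y ∈ E, |ind W z y - avg W E z| ≤ 1 := fun y _ => by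
    have := ind_nonneg W z y
    have := ind_le W z y
    rw [abs_le]; constructor <;> linarith
  have h0 : ∑ y ∈ E, (ind W z y - avg W E z) = 0 := by
    rw [Finset.sum_sub_distrib, Finset.sum_const, nsmul_eq_mul]
    unfold avg
    field_simp
    ring
  have t1 := tail E (fun y => ind W z y - avg W E z) hg h0 m e he0 he
  have t2 := tail E (fun y => -(ind W z y - avg W E z)) (fun y hy => by rw [abs_neg]; exact hg y hy)
    (by rw [Finset.sum_neg_distrib, h0, neg_zero]) m e he0 he
  have hs : ∀ y : Fin m → G, ∑ i, (ind W z (y i) - avg W E z) = (emp W y z - avg W E z) * m := by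
    intro y
    rw [Finset.sum_sub_distrib, Finset.sum_const, Finset.card_univ, Fintype.card_fin, nsmul_eq_mul]
    unfold emp
    field_simp
  have hsub : ((Fintype.piFinset fun _ : Fin m => E).filter fun y => e < |emp W y z - avg W E z|) ⊆
      ((Fintype.piFinset fun _ : Fin m => E).filter
        fun y => e * m < ∑ i, (ind W z (y i) - avg W E z)) ∪
      ((Fintype.piFinset fun _ : Fin m => E).filter
        fun y => e * m < ∑ i, -(ind W z (y i) - avg W E z)) := by
    intro y hy
    rw [Finset.mem_filter] at hy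
    rw [Finset.mem_union, Finset.mem_filter, Finset.mem_filter, Finset.sum_neg_distrib, hs]
    rcases lt_abs.mp hy.2 with h | h
    · exact Or.inl ⟨hy.1, mul_lt_mul_of_pos_right h hm'⟩
    · exact Or.inr ⟨hy.1, by have := mul_lt_mul_of_pos_right h hm'; linarith⟩
  have h1 := (Finset.card_le_card hsub).trans (Finset.card_union_le _ _)
  have h2 := (Nat.cast_le (α := ℝ)).mpr h1
  push_cast at h2
  linarith

open Classical in
lemma good_many (W E X : Finset G) (hE : E.Nonempty) (hX : E ⊆ X) (m : ℕ) (hm : 0 < m) (e n : ℝ)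
    (he0 : 0 ≤ e) (he : e ≤ 2) (hn : 0 < n)
    (hD : 4 * ((X * W).card : ℝ) * Real.exp (-(e ^ 2 * m / 4)) ≤ n) :
    (E.card : ℝ) ^ m / 2
      ≤ (((Fintype.piFinset fun _ : Fin m => X).filter fun y => Good W E y e n).card : ℝ) := by
  set Ω := Fintype.piFinset fun _ : Fin m => E with hΩ
  let Bad : (Fin m → G) → Finset G := fun y => (X * W).filter fun z => e < |emp W y z - avg W E z|
  have h1 : ∑ y ∈ Ω, ((Bad y).card : ℝ)
      = ∑ z ∈ X * W, ((Ω.filter fun y => e < |emp W y z - avg W E z|).card : ℝ) := by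
    simp only [Bad, Finset.card_filter, Nat.cast_sum]
    exact Finset.sum_comm
  have h2 := Finset.sum_le_sum fun z (_ : z ∈ X * W) => dev_count W E hE m hm e he0 he z
  rw [← h1, Finset.sum_const, nsmul_eq_mul] at h2
  have hp : (0 : ℝ) ≤ (E.card : ℝ) ^ m := by positivity
  have h3 : ∑ y ∈ Ω, ((Bad y).card : ℝ) ≤ n * ((E.card : ℝ) ^ m / 2) := by nlinarith
  have h4 : ((Ω.filter fun y => n < ((Bad y).card : ℝ)).card : ℝ) * n
      ≤ ∑ y ∈ Ω, ((Bad y).card : ℝ) := by
    calc _ = ∑ _y ∈ Ω.filter fun y => n < ((Bad y).card : ℝ), n := by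
          rw [Finset.sum_const, nsmul_eq_mul]
      _ ≤ ∑ y ∈ Ω.filter fun y => n < ((Bad y).card : ℝ), ((Bad y).card : ℝ) :=
          Finset.sum_le_sum fun y hy => (Finset.mem_filter.mp hy).2.le
      _ ≤ _ := Finset.sum_le_sum_of_subset_of_nonneg (Finset.filter_subset _ _)
          fun y _ _ => Nat.cast_nonneg _
  have h5 : ((Ω.filter fun y => n < ((Bad y).card : ℝ)).card : ℝ) ≤ (E.card : ℝ) ^ m / 2 := by
    refine le_of_mul_le_mul_right ?_ hn
    linarith
  have h6 := Finset.card_filter_add_card_filter_not (s := Ω) fun y => n < ((Bad y).card : ℝ)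
  have h7 : Ω.card = E.card ^ m := by simp [hΩ]
  have h8 : (Ω.filter fun y => ¬ n < ((Bad y).card : ℝ)) ⊆
      (Fintype.piFinset fun _ : Fin m => X).filter fun y => Good W E y e n := by
    intro y hy
    rw [Finset.mem_filter, not_lt] at hy
    have hyE : ∀ i, y i ∈ E := Fintype.mem_piFinset.mp hy.1
    have key : ∀ z, z ∉ Bad y → |emp W y z - avg W E z| ≤ e := by
      intro z hz
      by_cases hzD : z ∈ X * W
      · exact not_lt.mp fun hc => hz (Finset.mem_filter.mpr ⟨hzD, hc⟩)
      · have hi : ∀ u ∈ E, ind W z u = 0 := fun u hu => by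
          unfold ind
          rw [if_neg]
          intro hc
          exact hzD (Finset.mem_mul.mpr ⟨u, hX hu, _, hc, by simp⟩)
        have e1 : emp W y z = 0 := by
          unfold emp
          rw [Finset.sum_eq_zero fun i _ => hi _ (hyE i), zero_div]
        have e2 : avg W E z = 0 := by
          unfold avg
          rw [Finset.sum_eq_zero hi, zero_div]
        rw [e1, e2, sub_zero, abs_zero]
        exact he0
    refine Finset.mem_filter.mpr ⟨Fintype.mem_piFinset.mpr fun i => hX (hyE i), hyE,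
      ⟨Bad y, hy.2, fun z hz => ?_⟩, ⟨Bad y, hy.2, fun z hz => ?_⟩⟩
    · have := abs_le.mp (key z hz)
      rw [one_mul]; linarith [this.1]
    · have := abs_le.mp (key z hz)
      rw [one_mul]; linarith [this.2]
  have h9 := (Nat.cast_le (α := ℝ)).mpr (Finset.card_le_card h8)
  have h10 := congrArg (Nat.cast (R := ℝ)) h6
  rw [h7] at h10
  push_cast at h10
  linarith

end Pool.Agent.Lib.MP_e18f8a_al.Six
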