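import Pool.Agent.Lib.MP_e18f8a_al.SixA

/-! The pigeonhole step on product sets, and the main construction. -/

open scoped Pointwise
open Finset

namespace Pool.Agent.Lib.MP_e18f8a_al.Six

variable {G : Type} [Group G] [DecidableEq G]

lemma kk (A : Finset G) (c ρ : ℝ) (hc : 0 < c) (hAc : (A.card : ℝ) ≤ c) (hρ : 0 < ρ) (j : ℕ) :
    ∀ Y ⊆ A, Y.Nonempty → ((Y * A).card : ℝ) < ρ ^ j * A.card →
      ∃ Z ⊆ A, c * (Y.card / c) ^ 2 ^ j ≤ Z.card ∧ ∀ s : G,
        (Z.card : ℝ) ^ 2 / c ≤ (Z ∩ s • Z).card →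
          ((Z * A).card : ℝ) ≤ ρ * ((Z ∩ s • Z) * A).card := by
  induction j with
  | zero =>
    intro Y _ hY h
    have h1 : (A.card : ℝ) ≤ (Y * A).card := by exact_mod_cast Finset.card_le_card_mul_left hY
    rw [pow_zero, one_mul] at h
    linarith
  | succ j ih =>
    intro Y hYA hY h
    have hy0 : (0 : ℝ) < Y.card := by exact_mod_cast hY.card_pos
    have hy1 : (Y.card : ℝ) / c ≤ 1 := by
      rw [div_le_one hc]
      exact le_trans (by exact_mod_cast Finset.card_le_card hYA) hAc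
    by_cases hg : ∀ s : G, (Y.card : ℝ) ^ 2 / c ≤ (Y ∩ s • Y).card →
        ((Y * A).card : ℝ) ≤ ρ * ((Y ∩ s • Y) * A).card
    · refine ⟨Y, hYA, ?_, hg⟩
      have h1 : ((Y.card : ℝ) / c) ^ 2 ^ (j + 1) ≤ Y.card / c :=
        pow_le_of_le_one (by positivity) hy1 (by positivity)
      calc c * ((Y.card : ℝ) / c) ^ 2 ^ (j + 1) ≤ c * (Y.card / c) :=
            mul_le_mul_of_nonneg_left h1 hc.le
        _ = Y.card := by field_simp
    · push Not at hg
      obtain ⟨s, h1, h2⟩ := hg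
      have h3 : (0 : ℝ) < (Y ∩ s • Y).card := lt_of_lt_of_le (by positivity) h1
      obtain ⟨Z, hZ, h4, h5⟩ := ih (Y ∩ s • Y) (Finset.inter_subset_left.trans hYA)
        (Finset.card_pos.mp (by exact_mod_cast h3))
        (lt_of_mul_lt_mul_left (a := ρ) (by rw [pow_succ'] at h; linarith) hρ.le)
      refine ⟨Z, hZ, le_trans (mul_le_mul_of_nonneg_left ?_ hc.le) h4, h5⟩
      rw [pow_succ', pow_mul]
      refine pow_le_pow_left₀ (by positivity) ?_ _
      rw [le_div_iff₀ hc]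
      calc ((Y.card : ℝ) / c) ^ 2 * c = (Y.card : ℝ) ^ 2 / c := by field_simp
        _ ≤ _ := h1

lemma popular (D Z : Finset G) (c : ℝ) (hc : 0 < c) (hZ : Z.Nonempty) (hD : Z * Z⁻¹ ⊆ D)
    (hDc : 2 * (D.card : ℝ) ≤ c) :
    (Z.card : ℝ) / 2 ≤ (D.filter fun s => (Z.card : ℝ) ^ 2 / c ≤ (Z ∩ s • Z).card).card := by
  have hz0 : (0 : ℝ) < Z.card := by exact_mod_cast hZ.card_pos
  have h1 : (Z ×ˢ Z).card = ∑ s ∈ D, ((Z ×ˢ Z).filter fun p => p.1 * p.2⁻¹ = s).card :=
    Finset.card_eq_sum_card_fiberwise fun p hp => by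
      have := Finset.mem_product.mp hp
      exact hD (Finset.mul_mem_mul this.1 (Finset.inv_mem_inv this.2))
  have h2 : ∀ s ∈ D, ((Z ×ˢ Z).filter fun p => p.1 * p.2⁻¹ = s).card ≤ (Z ∩ s • Z).card := by
    intro s _
    refine Finset.card_le_card_of_injOn (fun p => p.1) (fun p hp => ?_) fun p hp q hq h => ?_
    · simp only [Finset.coe_filter, Finset.mem_product, Set.mem_ofPred_eq] at hp
      refine Finset.mem_coe.mpr (Finset.mem_inter.mpr ⟨hp.1.1, ?_⟩)
      exact Finset.mem_smul_finset.mpr ⟨p.2, hp.1.2, by rw [← hp.2]; simp⟩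
    · simp only [Finset.coe_filter, Finset.mem_product, Set.mem_ofPred_eq] at hp hq
      have h' : p.1 = q.1 := h
      refine Prod.ext h' ?_
      have h3 := hp.2.trans hq.2.symm
      rw [h'] at h3
      exact inv_injective (mul_left_cancel h3)
  have h3 : (Z.card : ℝ) ^ 2 ≤ ∑ s ∈ D, ((Z ∩ s • Z).card : ℝ) := by
    have := h1.le.trans (Finset.sum_le_sum h2)
    rw [Finset.card_product, ← sq] at this
    exact_mod_cast this
  rw [← Finset.sum_filter_add_sum_filter_not D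
    fun s => (Z.card : ℝ) ^ 2 / c ≤ (Z ∩ s • Z).card] at h3
  have h4 : ∑ s ∈ D.filter fun s => (Z.card : ℝ) ^ 2 / c ≤ (Z ∩ s • Z).card,
      ((Z ∩ s • Z).card : ℝ)
      ≤ (D.filter fun s => (Z.card : ℝ) ^ 2 / c ≤ (Z ∩ s • Z).card).card * (Z.card : ℝ) := by
    rw [← nsmul_eq_mul]
    exact Finset.sum_le_card_nsmul _ _ _ fun s _ => by
      exact_mod_cast Finset.card_le_card Finset.inter_subset_left
  have h5 : ∑ s ∈ D.filter fun s => ¬ (Z.card : ℝ) ^ 2 / c ≤ (Z ∩ s • Z).card,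
      ((Z ∩ s • Z).card : ℝ) ≤ (Z.card : ℝ) ^ 2 / 2 := by
    have h6 := Finset.sum_le_card_nsmul
      (D.filter fun s => ¬ (Z.card : ℝ) ^ 2 / c ≤ (Z ∩ s • Z).card)
      (fun s => ((Z ∩ s • Z).card : ℝ)) ((Z.card : ℝ) ^ 2 / c)
      fun s hs => (not_le.mp (Finset.mem_filter.mp hs).2).le
    rw [nsmul_eq_mul] at h6
    have h7 : ((D.filter fun s => ¬ (Z.card : ℝ) ^ 2 / c ≤ (Z ∩ s • Z).card).card : ℝ) ≤ c / 2 := by
      have : ((D.filter fun s => ¬ (Z.card : ℝ) ^ 2 / c ≤ (Z ∩ s • Z).card).card : ℝ) ≤ D.card := by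
        exact_mod_cast Finset.card_filter_le _ _
      linarith
    calc _ ≤ _ := h6
      _ ≤ c / 2 * ((Z.card : ℝ) ^ 2 / c) := mul_le_mul_of_nonneg_right h7 (by positivity)
      _ = _ := by field_simp
  refine le_of_mul_le_mul_right ?_ hz0
  nlinarith

theorem core (A : Finset G) (K : ℝ) (hA : IsApproximateSubgroup K (A : Set G)) (J m k : ℕ)
    (ρ : ℝ) (hρ : 0 < ρ) (hJ : K < ρ ^ J) (hk : 0 < k) (hm : 0 < m)
    (hmm : 32 * k * K ^ 4 * Real.exp (-((1 / (8 * k)) ^ 2 * m / 4)) ≤ 1) :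
    ∃ S : Finset G, 1 ∈ S ∧ S⁻¹ = S ∧ S ⊆ A ^ 4 ∧ S ^ k ⊆ A ^ 6 ∧
      (1 / (2 * K)) ^ 2 ^ J / (4 * ρ ^ (2 * m)) * A.card ≤ S.card := by
  classical
  have hK : 1 ≤ K := hA.one_le
  have hAne : A.Nonempty := ⟨1, hA.one_mem⟩
  have hAi : A⁻¹ = A := by exact_mod_cast hA.inv_eq_self
  have ha0 : (0 : ℝ) < A.card := by exact_mod_cast hAne.card_pos
  have hk' : (1 : ℝ) ≤ k := by exact_mod_cast hk
  have h2 : ((A * A).card : ℝ) ≤ K * A.card := hA.card_mul_self_le
  have h5 : ((A ^ 5).card : ℝ) ≤ K ^ 4 * A.card := hA.card_pow_le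
  have hc : 0 < 2 * K * (A.card : ℝ) := by positivity
  obtain ⟨Z, hZA, hZc, hZ⟩ := kk A (2 * K * A.card) ρ hc (by nlinarith) hρ J A subset_rfl hAne
    (lt_of_le_of_lt h2 (mul_lt_mul_of_pos_right hJ ha0))
  have e0 : (A.card : ℝ) / (2 * K * A.card) = 1 / (2 * K) := by field_simp
  rw [e0] at hZc
  have hq : (0 : ℝ) < (1 / (2 * K)) ^ 2 ^ J := by positivity
  have hz0 : (0 : ℝ) < Z.card := lt_of_lt_of_le (by positivity) hZc
  have hZne : Z.Nonempty := Finset.card_pos.mp (by exact_mod_cast hz0)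
  have hZi : Z⁻¹ ⊆ A := hAi ▸ Finset.inv_subset_inv hZA
  have hU := popular (A * A) Z _ hc hZne (Finset.mul_subset_mul hZA hZi) (by linarith)
  set U := (A * A).filter fun s => (Z.card : ℝ) ^ 2 / (2 * K * A.card) ≤ (Z ∩ s • Z).card with hUd
  set X := Z * A with hX
  set W := X⁻¹ * A with hW
  have hX2 : X ⊆ A ^ 2 := by rw [sq]; exact Finset.mul_subset_mul_right hZA
  have hi2 : (A ^ 2)⁻¹ = A ^ 2 := by rw [← inv_pow, hAi]
  have hW3 : W ⊆ A ^ 3 := by
    rw [pow_succ]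
    exact Finset.mul_subset_mul_right (hi2 ▸ Finset.inv_subset_inv hX2)
  have hXW : ((X * W).card : ℝ) ≤ K ^ 4 * A.card := by
    refine le_trans ?_ h5
    have : X * W ⊆ A ^ 5 := by
      rw [show 5 = 2 + 3 from rfl, pow_add]
      exact Finset.mul_subset_mul hX2 hW3
    exact_mod_cast Finset.card_le_card this
  set e : ℝ := 1 / (8 * k) with he
  set n : ℝ := A.card / (8 * k) with hn
  have he0 : 0 ≤ e := by positivity
  have he2 : e ≤ 2 := by rw [he, div_le_iff₀ (by positivity)]; linarith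
  have hn0 : 0 < n := by positivity
  have hD : 4 * ((X * W).card : ℝ) * Real.exp (-(e ^ 2 * m / 4)) ≤ n := by
    rw [hn, le_div_iff₀ (by positivity)]
    have h6 := mul_le_mul_of_nonneg_right hmm ha0.le
    have h7 := mul_le_mul_of_nonneg_right hXW
      (show 0 ≤ 32 * k * Real.exp (-(e ^ 2 * m / 4)) by positivity)
    nlinarith
  have hΩ : (Fintype.piFinset fun _ : Fin m => X).Nonempty :=
    Fintype.piFinset_nonempty.mpr fun _ => hZne.mul hAne
  have many : ∀ E ⊆ X, (X.card : ℝ) ≤ ρ * E.card →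
      1 / (2 * ρ ^ m) * ((Fintype.piFinset fun _ : Fin m => X).card : ℝ)
        ≤ (((Fintype.piFinset fun _ : Fin m => X).filter fun y => Good W E y e n).card : ℝ) := by
    intro E hE h
    have hx0 : (0 : ℝ) < X.card := by exact_mod_cast (hZne.mul hAne).card_pos
    have hE0 : (0 : ℝ) < E.card := pos_of_mul_pos_right (hx0.trans_le h) hρ.le
    refine le_trans ?_ (good_many W E X (Finset.card_pos.mp (by exact_mod_cast hE0)) hE m hm e n
      he0 he2 hn0 hD)
    have h8 := pow_le_pow_left₀ hx0.le h m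
    rw [mul_pow] at h8
    simp only [Fintype.card_piFinset, Finset.prod_const, Finset.card_univ, Fintype.card_fin,
      Nat.cast_pow]
    rw [div_mul_eq_mul_div, div_le_div_iff₀ (by positivity) (by positivity)]
    nlinarith
  have hE1 : ∀ s : G, (Z ∩ s • Z) * A ⊆ X := fun s =>
    Finset.mul_subset_mul_right Finset.inter_subset_left
  have hE2 : ∀ s : G, s⁻¹ • ((Z ∩ s • Z) * A) ⊆ X := by
    intro s x hx
    obtain ⟨y, hy, rfl⟩ := Finset.mem_smul_finset.mp hx
    obtain ⟨z, hz, a, ha, rfl⟩ := Finset.mem_mul.mp hy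
    obtain ⟨z', hz', rfl⟩ := Finset.mem_smul_finset.mp (Finset.mem_inter.mp hz).2
    exact Finset.mem_mul.mpr ⟨z', hz', a, ha, by simp [mul_assoc]⟩
  obtain ⟨y, hy, hU1⟩ := pigeon U _ hΩ (fun s y => Good W ((Z ∩ s • Z) * A) y e n) _
    fun s hs => many _ (hE1 s) (hZ s (Finset.mem_filter.mp hs).2)
  obtain ⟨y', -, hU2⟩ := pigeon (U.filter fun s => Good W ((Z ∩ s • Z) * A) y e n) _ hΩ
    (fun s y => Good W (s⁻¹ • ((Z ∩ s • Z) * A)) y e n) _
    fun s hs => many _ (hE2 s) (by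
      rw [Finset.card_smul_finset]
      exact hZ s (Finset.mem_filter.mp (Finset.mem_filter.mp hs).1).2)
  set S := (U.filter fun s => Good W ((Z ∩ s • Z) * A) y e n).filter
    fun s => Good W (s⁻¹ • ((Z ∩ s • Z) * A)) y' e n with hS
  have hSc : (1 / (2 * K)) ^ 2 ^ J / (4 * ρ ^ (2 * m)) * A.card ≤ S.card := by
    have hr : (0 : ℝ) < 1 / (2 * ρ ^ m) := by positivity
    have h6 : (1 / (2 * K)) ^ 2 ^ J * A.card ≤ U.card := by
      have := mul_pos hq ha0
      nlinarith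
    refine le_trans ?_ hU2
    refine le_trans ?_ (mul_le_mul_of_nonneg_left hU1 hr.le)
    refine le_trans (le_of_eq ?_)
      (mul_le_mul_of_nonneg_left (mul_le_mul_of_nonneg_left h6 hr.le) hr.le)
    rw [mul_comm 2 m, pow_mul]
    field_simp
    ring
  have hS0 : (0 : ℝ) < S.card := lt_of_lt_of_le (by positivity) hSc
  have hSne : S.Nonempty := Finset.card_pos.mp (by exact_mod_cast hS0)
  have hS2 : S ⊆ A ^ 2 := fun s hs => by
    rw [sq]
    exact (Finset.mem_filter.mp (Finset.mem_filter.mp (Finset.mem_filter.mp hs).1).1).1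
  have step : ∀ t ∈ S * S⁻¹, Near (emp W y) (emp W y) t (4 * e) (4 * n) := by
    intro t ht
    obtain ⟨s', hs', u, hu, rfl⟩ := Finset.mem_mul.mp ht
    obtain ⟨s, hs, rfl⟩ := Finset.mem_inv.mp hu
    have g1 := (Finset.mem_filter.mp (Finset.mem_filter.mp hs).1).2
    have g2 := (Finset.mem_filter.mp hs).2
    have g3 := (Finset.mem_filter.mp (Finset.mem_filter.mp hs').1).2
    have g4 := (Finset.mem_filter.mp hs').2
    have n1 : Near (avg W ((Z ∩ s • Z) * A)) (avg W (s⁻¹ • ((Z ∩ s • Z) * A))) s⁻¹ 0 0 :=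
      ⟨∅, by simp, fun z _ => by rw [avg_smul, sub_zero]⟩
    have n2 : Near (avg W (s'⁻¹ • ((Z ∩ s' • Z) * A))) (avg W ((Z ∩ s' • Z) * A)) s' 0 0 :=
      ⟨∅, by simp, fun z _ => by rw [← avg_smul W _ s' z, smul_inv_smul, sub_zero]⟩
    have := ((((g1.2.2.trans n1).trans g2.2.1).trans g4.2.2).trans n2).trans g3.2.1
    convert this using 1
    · simp
    · ring
    · ring
  refine ⟨S * S⁻¹, ?_, by rw [mul_inv_rev, inv_inv], ?_, fun t ht => ?_, hSc.trans ?_⟩
  · obtain ⟨s, hs⟩ := hSne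
    exact Finset.mem_mul.mpr ⟨s, hs, _, Finset.inv_mem_inv hs, mul_inv_cancel s⟩
  · rw [show 4 = 2 + 2 from rfl, pow_add]
    exact Finset.mul_subset_mul hS2 (hi2 ▸ Finset.inv_subset_inv hS2)
  · obtain ⟨N, hN, h⟩ := near_pow step k t ht
    have e1 : (k : ℝ) * (4 * n) = A.card / 2 := by rw [hn]; field_simp; ring
    have e2 : (k : ℝ) * (4 * e) = 1 / 2 := by rw [he]; field_simp; ring
    rw [e1] at hN
    rw [e2] at h
    obtain ⟨b, hb, hbN⟩ := Finset.exists_mem_notMem_of_card_lt_card (s := N) (t := A)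
      (by exact_mod_cast (show (N.card : ℝ) < A.card by linarith))
    have hyX : ∀ i, y i ∈ X := Fintype.mem_piFinset.mp hy
    have hm' : (0 : ℝ) < m := by exact_mod_cast hm
    have e3 : emp W y b = 1 := by
      have : ∀ i, ind W b (y i) = 1 := fun i =>
        if_pos (Finset.mul_mem_mul (Finset.inv_mem_inv (hyX i)) hb)
      simp only [emp, this, Finset.sum_const, Finset.card_univ, Fintype.card_fin, nsmul_eq_mul,
        mul_one]
      exact div_self hm'.ne'
    have h6 := h b hbN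
    rw [e3] at h6
    by_contra hc'
    have : emp W y (t * b) = 0 := by
      unfold emp
      rw [Finset.sum_eq_zero, zero_div]
      intro i _
      refine if_neg fun hw => hc' ?_
      rw [show 6 = 2 + 3 + 1 from rfl, pow_succ, pow_add]
      refine Finset.mem_mul.mpr ⟨_, Finset.mul_mem_mul (hX2 (hyX i)) (hW3 hw), b⁻¹,
        hAi ▸ Finset.inv_mem_inv hb, by simp⟩
    linarith
  · exact_mod_cast Finset.card_le_card_mul_right (hSne.inv)

end Pool.Agent.Lib.MP_e18f8a_al.Six
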