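import Mathlib

/-!
A three function inequality on the discrete cube.
-/

open Finset

namespace Pool.Agent.Lib.MP_e18f8a_al

lemma zmod2_cases (i : ZMod 2) : i = 0 ∨ i = 1 := by revert i; decide

lemma sum_zmod2 (a : ZMod 2 → ℝ) (i : ZMod 2) : ∑ j, a j = a i + a (i + 1) := by
  have h : (univ : Finset (ZMod 2)) = {i, i + 1} := by revert i; decide
  have h2 : i ≠ i + 1 := by revert i; decide
  rw [h, sum_pair h2]

lemma exists_top (a : ZMod 2 → ℝ) : ∃ i, a (i + 1) ≤ a i := by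
  rcases le_total (a 1) (a 0) with h | h
  · exact ⟨0, by simpa using h⟩
  · refine ⟨1, ?_⟩
    have : (1 + 1 : ZMod 2) = 0 := by decide
    rw [this]; exact h

lemma three_real {a0 a1 b0 b1 c0 c1 R : ℝ} (ha : 0 ≤ a1) (hb : 0 ≤ b1) (hc : 0 ≤ c1)
    (ha' : a1 ≤ a0) (hb' : b1 ≤ b0) (hc' : c1 ≤ c0)
    (h : a0 * b0 * c0 ≤ R ∨ (a0 * b0 * c0 ≤ R * 4 ∧ a1 * b0 * c0 ≤ R ∧ a0 * b1 * c0 ≤ R ∧
      a0 * b0 * c1 ≤ R)) :
    (a0 + a1) * (b0 + b1) * (c0 + c1) ≤ 8 * R := by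
  have ha0 : 0 ≤ a0 := ha.trans ha'
  have hb0 : 0 ≤ b0 := hb.trans hb'
  have hc0 : 0 ≤ c0 := hc.trans hc'
  have easy : a0 * b0 * c0 ≤ R → (a0 + a1) * (b0 + b1) * (c0 + c1) ≤ 8 * R := by
    intro h1
    calc (a0 + a1) * (b0 + b1) * (c0 + c1) ≤ (2 * a0) * (2 * b0) * (2 * c0) := by
          gcongr <;> linarith
      _ = 8 * (a0 * b0 * c0) := by ring
      _ ≤ 8 * R := by linarith
  rcases h with h | ⟨h0, h1, h2, h3⟩
  · exact easy h
  by_cases hP : a0 * b0 * c0 ≤ R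
  · exact easy hP
  push Not at hP
  set P := a0 * b0 * c0 with hPdef
  have hR : 0 ≤ R := le_trans (by positivity) h1
  have hP0 : 0 < P := lt_of_le_of_lt hR hP
  have e1 : (a0 + a1) * P ≤ a0 * (P + R) := by
    have := mul_le_mul_of_nonneg_left h1 ha0
    rw [hPdef]; nlinarith
  have e2 : (b0 + b1) * P ≤ b0 * (P + R) := by
    have := mul_le_mul_of_nonneg_left h2 hb0
    rw [hPdef]; nlinarith
  have e3 : (c0 + c1) * P ≤ c0 * (P + R) := by
    have := mul_le_mul_of_nonneg_left h3 hc0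
    rw [hPdef]; nlinarith
  have e4 : ((a0 + a1) * P) * ((b0 + b1) * P) * ((c0 + c1) * P) ≤
      (a0 * (P + R)) * (b0 * (P + R)) * (c0 * (P + R)) := by
    gcongr
  have e5 : (P + R) ^ 3 ≤ 8 * R * P ^ 2 := by
    have h5 : 0 ≤ (P - R) * (P * (4 * R - P) + R ^ 2) := by
      apply mul_nonneg (by linarith)
      have : 0 ≤ P * (4 * R - P) := mul_nonneg hP0.le (by linarith)
      positivity
    nlinarith
  have e6 : (a0 * (P + R)) * (b0 * (P + R)) * (c0 * (P + R)) = P * (P + R) ^ 3 := by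
    rw [hPdef]; ring
  have e7 : ((a0 + a1) * (b0 + b1) * (c0 + c1)) * P ^ 3 ≤ (8 * R) * P ^ 3 := by
    calc ((a0 + a1) * (b0 + b1) * (c0 + c1)) * P ^ 3
        = ((a0 + a1) * P) * ((b0 + b1) * P) * ((c0 + c1) * P) := by ring
      _ ≤ P * (P + R) ^ 3 := e6 ▸ e4
      _ ≤ P * (8 * R * P ^ 2) := by gcongr
      _ = (8 * R) * P ^ 3 := by ring
  exact le_of_mul_le_mul_right e7 (by positivity)

lemma three_one (a b c : ZMod 2 → ℝ) (x : ZMod 2) (R : ℝ) (ha : ∀ i, 0 ≤ a i) (hb : ∀ i, 0 ≤ b i)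
    (hc : ∀ i, 0 ≤ c i)
    (h : ∀ i j k, a i * b j * c k ≤ R * (if x + i + j + k = 0 then 4 else 1)) :
    (∑ i, a i) * (∑ i, b i) * (∑ i, c i) ≤ 8 * R := by
  obtain ⟨i, hi⟩ := exists_top a
  obtain ⟨j, hj⟩ := exists_top b
  obtain ⟨k, hk⟩ := exists_top c
  rw [sum_zmod2 a i, sum_zmod2 b j, sum_zmod2 c k]
  refine three_real (ha _) (hb _) (hc _) hi hj hk ?_
  by_cases h0 : x + i + j + k = 0
  · right
    have n1 : ¬ x + (i + 1) + j + k = 0 := by
      have : x + (i + 1) + j + k = (x + i + j + k) + 1 := by ring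
      rw [this, h0]; decide
    have n2 : ¬ x + i + (j + 1) + k = 0 := by
      have : x + i + (j + 1) + k = x + (i + 1) + j + k := by ring
      rw [this]; exact n1
    have n3 : ¬ x + i + j + (k + 1) = 0 := by
      have : x + i + j + (k + 1) = x + (i + 1) + j + k := by ring
      rw [this]; exact n1
    refine ⟨?_, ?_, ?_, ?_⟩
    · simpa [h0] using h i j k
    · simpa [n1] using h (i + 1) j k
    · simpa [n2] using h i (j + 1) k
    · simpa [n3] using h i j (k + 1)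
  · left
    simpa [h0] using h i j k

lemma sum_cons {α : Type*} [Fintype α] [DecidableEq α] {n : ℕ} (F : (Fin (n + 1) → α) → ℝ) :
    ∑ u, F u = ∑ a, ∑ u : Fin n → α, F (Fin.cons a u) := by
  rw [← Fintype.sum_prod_type', ← (Fin.consEquiv fun _ => α).sum_comp]
  rfl

/-- The three function inequality. -/
theorem three_cube : ∀ (n : ℕ) (x : Fin n → ZMod 2) (R : ℝ)
    (F₁ F₂ F₃ : (Fin n → ZMod 2) → ℝ), (∀ u, 0 ≤ F₁ u) → (∀ u, 0 ≤ F₂ u) → (∀ u, 0 ≤ F₃ u) →
    (∀ u v w, F₁ u * F₂ v * F₃ w ≤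
      R * ∏ i, (if x i + u i + v i + w i = 0 then (4 : ℝ) else 1)) →
    (∑ u, F₁ u) * (∑ u, F₂ u) * (∑ u, F₃ u) ≤ 8 ^ n * R := by
  intro n
  induction n with
  | zero =>
    intro x R F₁ F₂ F₃ _ _ _ h
    rw [Fintype.sum_unique, Fintype.sum_unique, Fintype.sum_unique, pow_zero, one_mul]
    refine (h _ _ _).trans ?_
    simp
  | succ n ih =>
    intro x R F₁ F₂ F₃ h1 h2 h3 h
    rw [sum_cons F₁, sum_cons F₂, sum_cons F₃]
    have key := three_one (fun a => ∑ u : Fin n → ZMod 2, F₁ (Fin.cons a u))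
      (fun a => ∑ u : Fin n → ZMod 2, F₂ (Fin.cons a u))
      (fun a => ∑ u : Fin n → ZMod 2, F₃ (Fin.cons a u)) (x 0) (8 ^ n * R)
      (fun _ => sum_nonneg fun _ _ => h1 _) (fun _ => sum_nonneg fun _ _ => h2 _)
      (fun _ => sum_nonneg fun _ _ => h3 _) ?_
    · calc _ ≤ 8 * (8 ^ n * R) := key
        _ = 8 ^ (n + 1) * R := by ring
    intro a b c
    rw [mul_assoc (8 ^ n : ℝ)]
    refine ih (Fin.tail x) _ _ _ _ (fun _ => h1 _) (fun _ => h2 _) (fun _ => h3 _) ?_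
    intro u v w
    have := h (Fin.cons a u) (Fin.cons b v) (Fin.cons c w)
    rw [Fin.prod_univ_succ, ← mul_assoc] at this
    simp only [Fin.cons_zero, Fin.cons_succ] at this
    exact this

/-- Three sets all of whose sums with `x` have at least `r` zeros are small. -/
theorem three_sets {n : ℕ} (x : Fin n → ZMod 2) (r : ℕ) (U V W : Finset (Fin n → ZMod 2))
    (h : ∀ u ∈ U, ∀ v ∈ V, ∀ w ∈ W, r ≤ #{i | (x + u + v + w) i = 0}) :
    (4 : ℝ) ^ r * (#U * #V * #W) ≤ 8 ^ n := by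
  have key := three_cube n x 1 (fun u => if u ∈ U then (4 : ℝ) ^ r else 0)
    (fun u => if u ∈ V then 1 else 0) (fun u => if u ∈ W then 1 else 0)
    (fun u => by positivity) (fun u => by positivity) (fun u => by positivity) ?_
  · simp only [sum_ite_mem, univ_inter, sum_const, nsmul_eq_mul, mul_one] at key
    calc (4 : ℝ) ^ r * (#U * #V * #W) = #U * 4 ^ r * #V * #W := by ring
      _ ≤ _ := key
  intro u v w
  have hp : ∏ i, (if x i + u i + v i + w i = 0 then (4 : ℝ) else 1) =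
      4 ^ #{i | (x + u + v + w) i = 0} := by
    rw [prod_ite, prod_const, prod_const_one, mul_one]
    rfl
  rw [hp, one_mul]
  by_cases hu : u ∈ U
  · by_cases hv : v ∈ V
    · by_cases hw : w ∈ W
      · simp only [hu, hv, hw, if_true, mul_one]
        exact pow_le_pow_right₀ (by norm_num) (h u hu v hv w hw)
      · simp [hw]
    · simp [hv]
  · simp [hu]

end Pool.Agent.Lib.MP_e18f8a_al
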